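import Pool.Agent.FFG.Family
import Pool.Agent.FFG.Plainly

/-!
# Local topological order with a constant error: definitions
-/

open Finset

set_option autoImplicit false
set_option linter.unusedSectionVars false
set_option linter.unusedVariables false

namespace Pool.Agent.FFG.LT

/-! ### Finite-dimensional vectors and matrices -/

section Abstract

variable {X Y Z m c N ψ : Type} [Fintype X] [Fintype Y] [Fintype Z] [Fintype m] [Fintype c]
  [Fintype N] [Fintype ψ] [DecidableEq X] [DecidableEq Y] [DecidableEq Z] [DecidableEq m]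
  [DecidableEq c] [DecidableEq N] [DecidableEq ψ]

/-- The square of the norm. -/
noncomputable def nsq (x : X → ℂ) : ℝ := ∑ i, ‖x i‖ ^ 2

/-- The norm. -/
noncomputable def nm (x : X → ℂ) : ℝ := Real.sqrt (nsq x)

/-- The inner product. -/
noncomputable def ipr (x y : X → ℂ) : ℂ := ∑ i, star (x i) * y i

/-- Contractions. -/
def Contr (T : Matrix X Y ℂ) : Prop := ∀ y : Y → ℂ, nsq (T.mulVec y) ≤ nsq y

/-- Orthogonal projections. -/
def IsPr (P : Matrix X X ℂ) : Prop := P.IsHermitian ∧ P * P = P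

/-- The operator `O` on `m ⊗ ψ` as an operator on `N ⊗ ψ`, where `N = m ⊗ c`. -/
noncomputable def up (e : N ≃ m × c) (O : Matrix (m × ψ) (m × ψ) ℂ) : Matrix (N × ψ) (N × ψ) ℂ := fun p q =>
  if (e p.1).2 = (e q.1).2 then O ((e p.1).1, p.2) ((e q.1).1, q.2) else 0

/-- The operator `1 ⊗ O` on `N ⊗ ψ`. -/
noncomputable def dn (N : Type) [DecidableEq N] (O : Matrix ψ ψ ℂ) : Matrix (N × ψ) (N × ψ) ℂ := fun p q =>
  if p.1 = q.1 then O p.2 q.2 else 0

/-- The partial expectation `⟨v| T |v⟩` of the operator `T` on `N ⊗ ψ`. -/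
noncomputable def ex (v : N → ℂ) (T : Matrix (N × ψ) (N × ψ) ℂ) : Matrix ψ ψ ℂ := fun l l' =>
  ∑ n, ∑ n', star (v n) * T (n, l) (n', l') * v n'

/-- The vector `x` on `N ⊗ ψ` is in the range of the projection `G` on `N`. -/
def InR (G : Matrix N N ℂ) (x : N × ψ → ℂ) : Prop :=
  ∀ l, G.mulVec (fun n => x (n, l)) = fun n => x (n, l)

/-- The operators on the part `m` of `N` and on the reference system `ψ` agree on the range of `G`
with operators on the reference system, up to `ε`. -/
def Ind (e : N ≃ m × c) (G : Matrix N N ℂ) (v : N → ℂ) (ψ : Type) [Fintype ψ] [DecidableEq ψ]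
    (ε : ℝ) : Prop :=
  ∀ O : Matrix (m × ψ) (m × ψ) ℂ, Contr O → ∀ x y : N × ψ → ℂ, InR G x → InR G y →
    ‖ipr x ((up e O - dn N (ex v (up e O))).mulVec y)‖ ≤ ε * nm x * nm y

/-- The operator `T` acts on the coordinate `p`, and trivially on the coordinate `q`. -/
def Act (p : N → X) (q : N → Y) (T : Matrix N N ℂ) : Prop :=
  ∃ g : Matrix X X ℂ, ∀ n n', T n n' = if q n = q n' then g (p n) (p n') else 0

/-- The vector `x ⊗ e_i`. -/
noncomputable def tens (x : Z → ℂ) (i : ψ) : Z × ψ → ℂ := fun p => if p.2 = i then x p.1 else 0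

end Abstract

/-! ### The torus -/

section Torus

open Pool.Agent.PEPS953

variable {d L r : ℕ} [NeZero L] {κ : Type} [Fintype κ] [DecidableEq κ]

/-- The rectangle with corner `(x, y)` and sides `a` and `b`. -/
def bx (x y : ZMod L) (a b : ℕ) : Finset (Site L) :=
  univ.filter fun u => (u.1 - x).val < a ∧ (u.2 - y).val < b

/-- The sites at distance at most `ρ` from `M`. -/
def ball (ρ : ℕ) (M : Finset (Site L)) : Finset (Site L) :=
  univ.filter fun u => ∃ v ∈ M, sdist v u ≤ ρ

open scoped Classical in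
/-- The operator `O` acts on the sites in `R` and on the reference system `κ` only. -/
def ActsA (R : Finset (Site L)) (O : Matrix (Conf d L × κ) (Conf d L × κ) ℂ) : Prop :=
  ∃ m : (R → Fin d) × κ → (R → Fin d) × κ → ℂ, ∀ p q : Conf d L × κ, O p q =
    if ∀ u, u ∉ R → p.1 u = q.1 u then m (fun u => p.1 u, p.2) (fun u => q.1 u, q.2) else 0

open scoped Classical in
/-- The operator `O` acts on the sites in `R` only. -/
def Acts (R : Finset (Site L)) (O : Matrix (Conf d L) (Conf d L) ℂ) : Prop :=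
  ∃ m : (R → Fin d) → (R → Fin d) → ℂ, ∀ s s' : Conf d L, O s s' =
    if ∀ u, u ∉ R → s u = s' u then m (fun u => s u) (fun u => s' u) else 0

/-- The positions of the boxes contained in `K`. -/
noncomputable def inn (L r : ℕ) [NeZero L] (K : Finset (Site L)) : Finset (Site L) :=
  univ.filter fun v => ∀ p, boxPos L r v p ∈ K

/-- The vector `x` has zero energy for the terms at the positions in `A`. -/
def Zero (h : Matrix (LConf d r) (LConf d r) ℂ) (A : Finset (Site L)) (x : Conf d L → ℂ) : Prop :=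
  ∀ v ∈ A, (translate L h v).mulVec x = 0

/-- The same, in the presence of a reference system. -/
def ZeroA (h : Matrix (LConf d r) (LConf d r) ℂ) (A : Finset (Site L)) (x : Conf d L × κ → ℂ) :
    Prop := ∀ k, Zero h A fun s => x (s, k)

/-- Topological order: an operator which acts on a rectangle `M` and on sites at distance more than
`ρ` from `M` agrees, up to `ε`, on the vectors which have zero energy in the neighbourhood of `M`
of radius `ρ`, with an operator which acts outside of this neighbourhood. -/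
def TopOrd (L : ℕ) [NeZero L] (h : Matrix (LConf d r) (LConf d r) ℂ) (ρ : ℕ) (ε : ℝ) : Prop :=
  ∀ (x y : ZMod L) (a b : ℕ), 4 * a ≤ L → 4 * b ≤ L →
    ∀ O : Matrix (Conf d L) (Conf d L) ℂ, Contr O → Acts (bx x y a b ∪ (ball ρ (bx x y a b))ᶜ) O →
      ∃ O₁ : Matrix (Conf d L) (Conf d L) ℂ, Acts (ball ρ (bx x y a b))ᶜ O₁ ∧
        ∀ φ χ : Conf d L → ℂ, Zero h (inn L r (ball ρ (bx x y a b))) φ →
          Zero h (inn L r (ball ρ (bx x y a b))) χ →
          ‖ipr φ ((O - O₁).mulVec χ)‖ ≤ ε * nm φ * nm χ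

/-- The same with a reference system, for rectangles with sides at most `ℓ`. -/
def TOA (L : ℕ) [NeZero L] (h : Matrix (LConf d r) (LConf d r) ℂ) (ℓ w : ℕ) (ε : ℝ) : Prop :=
  ∀ (x y : ZMod L) (a b : ℕ), a ≤ ℓ → b ≤ ℓ → ∀ R : Finset (Site L),
    (∀ u ∈ R, ∀ v ∈ bx x y a b, w < sdist v u) → ∀ (κ : Type) [Fintype κ] [DecidableEq κ]
    (O : Matrix (Conf d L × κ) (Conf d L × κ) ℂ), Contr O → ActsA (bx x y a b ∪ R) O →
      ∃ O₁ : Matrix (Conf d L × κ) (Conf d L × κ) ℂ, Contr O₁ ∧ ActsA R O₁ ∧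
        ∀ φ χ : Conf d L × κ → ℂ, ZeroA h (ball w (bx x y a b)) φ →
          ZeroA h (ball w (bx x y a b)) χ → ‖ipr φ ((O - O₁).mulVec χ)‖ ≤ ε * nm φ * nm χ

/-- The pieces `A j` are contained in rectangles with sides at most `ℓ` which have distance more
than `w` from `S` and from the other pieces. -/
def Layer (w ℓ : ℕ) (S : Finset (Site L)) {n : ℕ} (A : Fin n → Finset (Site L)) : Prop :=
  ∀ j, ∃ (x y : ZMod L) (a b : ℕ), a ≤ ℓ ∧ b ≤ ℓ ∧ A j ⊆ bx x y a b ∧
    (∀ u ∈ S, ∀ v ∈ bx x y a b, w < sdist v u) ∧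
    ∀ i, i ≠ j → ∀ u ∈ A i, ∀ v ∈ bx x y a b, w < sdist v u

/-! ### Decompositions of the configurations -/

/-- Configurations on `K`. -/
abbrev CK (d : ℕ) {L : ℕ} (K : Finset (Site L)) : Type := K → Fin d

/-- `Conf d L = (Fin d) ^ K × (Fin d) ^ Kᶜ`. -/
noncomputable def eF (d : ℕ) {L : ℕ} [NeZero L] (K : Finset (Site L)) :
    Conf d L ≃ CK d K × CK d Kᶜ where
  toFun s := (fun u => s u, fun u => s u)
  invFun t u := if hu : u ∈ K then t.1 ⟨u, hu⟩ else t.2 ⟨u, mem_compl.mpr hu⟩
  left_inv s := by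
    funext u
    by_cases hu : u ∈ K <;> simp [hu]
  right_inv t := by
    refine Prod.ext ?_ ?_
    · funext u
      simp
    · funext u
      have hu : (u : Site L) ∉ K := mem_compl.mp u.2
      simp [hu]

/-- The same with a reference system. -/
noncomputable def eE (d : ℕ) {L : ℕ} [NeZero L] (K : Finset (Site L)) (κ : Type) :
    Conf d L × κ ≃ CK d K × (CK d Kᶜ × κ) :=
  ((eF d K).prodCongr (Equiv.refl κ)).trans (Equiv.prodAssoc _ _ _)

/-- The decomposition of the neighbourhood `K` of `M` into `M₀`, `M \ M₀` and `K \ M`. -/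
noncomputable def eN (d : ℕ) {L : ℕ} [NeZero L] {M₀ M K : Finset (Site L)} (h0 : M₀ ⊆ M)
    (h1 : M ⊆ K) : CK d K ≃ CK d M₀ × CK d (M \ M₀) × CK d (K \ M) where
  toFun n := (fun u => n ⟨u, h1 (h0 u.2)⟩, fun u => n ⟨u, h1 (mem_sdiff.mp u.2).1⟩,
    fun u => n ⟨u, (mem_sdiff.mp u.2).1⟩)
  invFun t u := if hu : (u : Site L) ∈ M₀ then t.1 ⟨u, hu⟩ else
    if hu' : (u : Site L) ∈ M then t.2.1 ⟨u, mem_sdiff.mpr ⟨hu', hu⟩⟩ else
      t.2.2 ⟨u, mem_sdiff.mpr ⟨u.2, hu'⟩⟩
  left_inv n := by
    funext u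
    by_cases hu : (u : Site L) ∈ M₀
    · simp [hu]
    · by_cases hu' : (u : Site L) ∈ M <;> simp [hu, hu']
  right_inv t := by
    refine Prod.ext ?_ (Prod.ext ?_ ?_)
    · funext u
      simp
    · funext u
      have hu := mem_sdiff.mp u.2
      simp [hu.1, hu.2]
    · funext u
      have hu := mem_sdiff.mp u.2
      have hu' : (u : Site L) ∉ M₀ := fun h => hu.2 (h0 h)
      simp [hu.2, hu']

/-! ### The quadtree -/

/-- The number of the dyadic interval of level `k` which contains `x`. -/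
def dx (L k : ℕ) (x : ZMod L) : ℕ := x.val * 2 ^ k / L

/-- The dyadic square of level `k` which contains `u`. -/
def dsq {L : ℕ} (k : ℕ) (u : Site L) : ℕ × ℕ := (dx L k u.1, dx L k u.2)

/-- The square of level `k` which contains `u` has distance more than `g` from `S`. -/
def free (S : Finset (Site L)) (g k : ℕ) (u : Site L) : Prop :=
  ∀ v : Site L, dsq k v = dsq k u → ∀ s ∈ S, g < sdist v s

open scoped Classical in
/-- The level of the leaf which contains `u`: the first level `k ≥ 3` for which the square is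
free, and `K` if there is none. -/
noncomputable def lev (S : Finset (Site L)) (g K : ℕ) (u : Site L) : ℕ :=
  if h : ∃ k, 3 ≤ k ∧ k ≤ K ∧ free S g k u then Nat.find h else K

/-- The leaf which contains `u`. -/
noncomputable def leaf (S : Finset (Site L)) (g K : ℕ) (u : Site L) : ℕ × ℕ × ℕ :=
  (lev S g K u, dsq (lev S g K u) u)

/-- The leaves which meet the window of radius `w` about `u`. -/
noncomputable def nbl (S : Finset (Site L)) (g K w : ℕ) (u : Site L) : Finset (ℕ × ℕ × ℕ) :=
  (ball w {u}).image (leaf S g K)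

/-- `v` is a corner of its leaf. -/
def corner (S : Finset (Site L)) (g K : ℕ) (v : Site L) : Prop :=
  (dx L (lev S g K v) (v.1 - 1) ≠ dx L (lev S g K v) v.1 ∨
    dx L (lev S g K v) (v.1 + 1) ≠ dx L (lev S g K v) v.1) ∧
  (dx L (lev S g K v) (v.2 - 1) ≠ dx L (lev S g K v) v.2 ∨
    dx L (lev S g K v) (v.2 + 1) ≠ dx L (lev S g K v) v.2)

end Torus

end Pool.Agent.FFG.LT
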