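import Pool.Agent.FFG.LT.Defs

/-!
# The ground state projections near a rectangle, as matrices on the neighbourhood
-/

open Finset
open scoped InnerProductSpace ComplexOrder

set_option autoImplicit false
set_option linter.unusedSectionVars false
set_option linter.unusedVariables false

namespace Pool.Agent.FFG.LT

open Pool.Agent.PEPS953

section LT7

variable {d L r : ℕ} [NeZero L]

/-- The matrix of an operator acts on vectors as the operator. -/
lemma lt7_mat_mulVec (O : Hil d L →L[ℂ] Hil d L) (x : Hil d L) (s : Conf d L) :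
    (O x) s = (mat O).mulVec (fun t => x t) s := by
  have h1 : O = Matrix.toEuclideanCLM (𝕜 := ℂ) (n := Conf d L) (mat O) := by
    unfold mat
    rw [StarAlgEquiv.apply_symm_apply]
  conv_lhs => rw [h1]
  rfl

lemma lt7_mat_sub (O O' : Hil d L →L[ℂ] Hil d L) : mat (O - O') = mat O - mat O' :=
  map_sub _ _ _

lemma lt7_mat_star (O : Hil d L →L[ℂ] Hil d L) : mat (star O) = (mat O).conjTranspose :=
  map_star (Matrix.toEuclideanCLM (𝕜 := ℂ) (n := Conf d L)).symm O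

/-- The matrix on `CK d K` of an operator which acts on `K`. -/
noncomputable def lt7_to (K : Finset (Site L)) (c₀ : CK d Kᶜ) (O : Hil d L →L[ℂ] Hil d L) :
    Matrix (CK d K) (CK d K) ℂ :=
  fun n n' => mat O ((eF d K).symm (n, c₀)) ((eF d K).symm (n', c₀))

lemma lt7_eF_in (K : Finset (Site L)) (n : CK d K) (c : CK d Kᶜ) (u : Site L) (hu : u ∈ K) :
    (eF d K).symm (n, c) u = n ⟨u, hu⟩ := by
  change (if hu : u ∈ K then n ⟨u, hu⟩ else c ⟨u, mem_compl.mpr hu⟩) = _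
  rw [dif_pos hu]

lemma lt7_eF_out (K : Finset (Site L)) (n : CK d K) (c : CK d Kᶜ) (u : Site L) (hu : u ∉ K) :
    (eF d K).symm (n, c) u = c ⟨u, mem_compl.mpr hu⟩ := by
  change (if hu : u ∈ K then n ⟨u, hu⟩ else c ⟨u, mem_compl.mpr hu⟩) = _
  rw [dif_neg hu]

lemma lt7_link {K : Finset (Site L)} (c₀ : CK d Kᶜ) {O : Hil d L →L[ℂ] Hil d L}
    (h : LocalOn K O) (n n' : CK d K) (c c' : CK d Kᶜ) :
    mat O ((eF d K).symm (n, c)) ((eF d K).symm (n', c')) =
      if c = c' then lt7_to K c₀ O n n' else 0 := by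
  classical
  obtain ⟨m, hm⟩ := h.form
  unfold lt7_to
  rw [hm, hm]
  have e1 : ∀ (n : CK d K) (c : CK d Kᶜ),
      (fun u : K => (eF d K).symm (n, c) (u : Site L)) = n := by
    intro n c
    funext u
    exact lt7_eF_in K n c u u.2
  rw [e1, e1, e1, e1]
  have e2 : ∀ u, u ∉ K → (eF d K).symm (n, c₀) u = (eF d K).symm (n', c₀) u := by
    intro u hu
    rw [lt7_eF_out K n c₀ u hu, lt7_eF_out K n' c₀ u hu]
  rw [if_pos e2]
  by_cases hc : c = c'
  · rw [if_pos hc, if_pos]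
    intro u hu
    rw [lt7_eF_out K n c u hu, lt7_eF_out K n' c' u hu, hc]
  · rw [if_neg hc, if_neg]
    intro hall
    apply hc
    funext u
    have hu : (u : Site L) ∉ K := mem_compl.mp u.2
    have := hall u hu
    rw [lt7_eF_out K n c u hu, lt7_eF_out K n' c' u hu] at this
    exact this

lemma lt7_sum (K : Finset (Site L)) (F : Conf d L → ℂ) :
    ∑ s, F s = ∑ n : CK d K, ∑ c : CK d Kᶜ, F ((eF d K).symm (n, c)) := by
  rw [← Fintype.sum_prod_type', ← Equiv.sum_comp (eF d K).symm]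

lemma lt7_mul {K : Finset (Site L)} (c₀ : CK d Kᶜ) {O O' : Hil d L →L[ℂ] Hil d L}
    (h : LocalOn K O) (h' : LocalOn K O') :
    lt7_to K c₀ (O * O') = lt7_to K c₀ O * lt7_to K c₀ O' := by
  classical
  ext n n'
  rw [Matrix.mul_apply]
  change mat (O * O') _ _ = _
  rw [mat_mul, Matrix.mul_apply, lt7_sum K]
  refine Finset.sum_congr rfl fun k _ => ?_
  rw [Finset.sum_eq_single c₀]
  · rfl
  · intro c _ hc
    rw [lt7_link c₀ h, if_neg (fun h => hc h.symm), zero_mul]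
  · intro h; exact absurd (Finset.mem_univ _) h

lemma lt7_mulVec {K : Finset (Site L)} (c₀ : CK d Kᶜ) {O : Hil d L →L[ℂ] Hil d L}
    (h : LocalOn K O) (x : CK d K × CK d Kᶜ → ℂ) (n : CK d K) (c : CK d Kᶜ) :
    (mat O).mulVec (x ∘ eF d K) ((eF d K).symm (n, c)) =
      (lt7_to K c₀ O).mulVec (fun n' => x (n', c)) n := by
  classical
  change ∑ s', mat O _ s' * (x ∘ eF d K) s' = ∑ n', lt7_to K c₀ O n n' * x (n', c)
  rw [lt7_sum K]
  refine Finset.sum_congr rfl fun k _ => ?_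
  rw [Finset.sum_eq_single c]
  · rw [lt7_link c₀ h, if_pos rfl, Function.comp_apply, Equiv.apply_symm_apply]
  · intro c' _ hc
    rw [lt7_link c₀ h, if_neg (fun h => hc h.symm), zero_mul]
  · intro h; exact absurd (Finset.mem_univ _) h

lemma lt7_star {K : Finset (Site L)} (c₀ : CK d Kᶜ) (O : Hil d L →L[ℂ] Hil d L) :
    lt7_to K c₀ (star O) = (lt7_to K c₀ O).conjTranspose := by
  ext n n'
  change mat (star O) _ _ = star (mat O _ _)
  rw [lt7_mat_star, Matrix.conjTranspose_apply]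

lemma lt7_isPr {K : Finset (Site L)} (c₀ : CK d Kᶜ) {P : Hil d L →L[ℂ] Hil d L}
    (hP : IsStarProjection P) (h : LocalOn K P) : IsPr (lt7_to K c₀ P) := by
  refine ⟨?_, ?_⟩
  · change (lt7_to K c₀ P).conjTranspose = _
    rw [← lt7_star, hP.isSelfAdjoint.star_eq]
  · rw [← lt7_mul c₀ h h, hP.isIdempotentElem.eq]

lemma lt7_sub {K : Finset (Site L)} (c₀ : CK d Kᶜ) (O O' : Hil d L →L[ℂ] Hil d L) :
    lt7_to K c₀ (O - O') = lt7_to K c₀ O - lt7_to K c₀ O' := by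
  ext n n'
  change mat (O - O') _ _ = mat O _ _ - mat O' _ _
  rw [lt7_mat_sub, Matrix.sub_apply]

/-- The vector on the torus which is `x` on `K` and the basis vector `c₀` off `K`. -/
noncomputable def lt7_ext (K : Finset (Site L)) (c₀ : CK d Kᶜ) (x : CK d K → ℂ) :
    CK d K × CK d Kᶜ → ℂ := fun p => if p.2 = c₀ then x p.1 else 0

lemma lt7_norm_sq (x : Hil d L) : ‖x‖ ^ 2 = nsq (fun s => x s) := by
  rw [EuclideanSpace.norm_sq_eq]
  rfl

lemma lt7_nsq_ext (K : Finset (Site L)) (c₀ : CK d Kᶜ) (x : CK d K → ℂ) :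
    nsq (lt7_ext K c₀ x ∘ eF d K) = nsq x := by
  classical
  unfold nsq
  have h1 : ∑ s, ‖(lt7_ext K c₀ x ∘ eF d K) s‖ ^ 2 =
      ∑ n : CK d K, ∑ c : CK d Kᶜ, ‖lt7_ext K c₀ x (n, c)‖ ^ 2 := by
    rw [← Fintype.sum_prod_type', ← Equiv.sum_comp (eF d K)]
    rfl
  rw [h1]
  refine Finset.sum_congr rfl fun n _ => ?_
  rw [Finset.sum_eq_single c₀]
  · simp [lt7_ext]
  · intro c _ hc
    simp [lt7_ext, hc]
  · intro h; exact absurd (Finset.mem_univ _) h

lemma lt7_nsq_mulVec {K : Finset (Site L)} (c₀ : CK d Kᶜ) {O : Hil d L →L[ℂ] Hil d L}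
    (h : LocalOn K O) {δ : ℝ} (hδ : 0 ≤ δ) (hO : ‖O‖ ≤ δ) (x : CK d K → ℂ) :
    nsq ((lt7_to K c₀ O).mulVec x) ≤ δ ^ 2 * nsq x := by
  classical
  set X : Hil d L := WithLp.toLp 2 (lt7_ext K c₀ x ∘ eF d K) with hX
  have hXs : (fun s => X s) = lt7_ext K c₀ x ∘ eF d K := rfl
  have h1 : ‖O X‖ ≤ δ * ‖X‖ := (O.le_opNorm X).trans
    (mul_le_mul_of_nonneg_right hO (norm_nonneg _))
  have h2 : ‖O X‖ ^ 2 ≤ δ ^ 2 * ‖X‖ ^ 2 := by
    rw [← mul_pow]
    exact pow_le_pow_left₀ (norm_nonneg _) h1 2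
  rw [lt7_norm_sq, lt7_norm_sq, hXs, lt7_nsq_ext] at h2
  have h3 : (fun s => (O X) s) = lt7_ext K c₀ ((lt7_to K c₀ O).mulVec x) ∘ eF d K := by
    funext s
    obtain ⟨⟨n, c⟩, rfl⟩ := (eF d K).symm.surjective s
    rw [lt7_mat_mulVec, hXs, lt7_mulVec c₀ h, Function.comp_apply, Equiv.apply_symm_apply]
    unfold lt7_ext
    by_cases hc : c = c₀
    · simp only [hc, if_true]
    · simp only [hc, if_false]
      exact congrFun (Matrix.mulVec_zero _) n
  rw [h3, lt7_nsq_ext] at h2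
  exact h2

lemma lt7_inR_iff {K : Finset (Site L)} (c₀ : CK d Kᶜ) {h : Matrix (LConf d r) (LConf d r) ℂ}
    (hrL : r ≤ L) (hh : h.PosSemidef) {A : Finset (Site L)} (hA : ∀ v ∈ A, ∀ p, boxPos L r v p ∈ K)
    (x : CK d K × CK d Kᶜ → ℂ) :
    InR (lt7_to K c₀ (GA (L := L) h A)) x ↔ Zero h A (x ∘ eF d K) := by
  classical
  have hl : LocalOn K (GA (L := L) h A) := GA_localOn hrL hh A K hA
  set X : Hil d L := WithLp.toLp 2 (x ∘ eF d K) with hX
  have hXs : (fun s => X s) = x ∘ eF d K := rfl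
  have h1 : InR (lt7_to K c₀ (GA (L := L) h A)) x ↔ GA (L := L) h A X = X := by
    constructor
    · intro H
      ext s
      obtain ⟨⟨n, c⟩, rfl⟩ := (eF d K).symm.surjective s
      rw [lt7_mat_mulVec, hXs, lt7_mulVec c₀ hl, H c]
      have : X ((eF d K).symm (n, c)) = (x ∘ eF d K) ((eF d K).symm (n, c)) := rfl
      rw [this, Function.comp_apply, Equiv.apply_symm_apply]
    · intro H c
      funext n
      rw [← lt7_mulVec c₀ hl, ← hXs, ← lt7_mat_mulVec, H]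
      have : X ((eF d K).symm (n, c)) = (x ∘ eF d K) ((eF d K).symm (n, c)) := rfl
      rw [this, Function.comp_apply, Equiv.apply_symm_apply]
  rw [h1]
  have h2 : GA (L := L) h A X = X ↔ hamOn h A X = 0 := by
    unfold GA
    rw [Submodule.starProjection_eq_self_iff, LinearMap.mem_ker]
    rfl
  rw [h2, pj_mem_ker hrL hh]
  unfold Zero
  refine forall₂_congr fun v hv => ?_
  constructor
  · intro H
    funext s
    have h3 := lt7_mat_mulVec (locOp L h v) X s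
    rw [H, mat_locOp, hXs] at h3
    exact h3.symm
  · intro H
    ext s
    rw [lt7_mat_mulVec, mat_locOp, hXs, H]
    rfl

lemma lt7_GA_mul {h : Matrix (LConf d r) (LConf d r) ℂ} (hrL : r ≤ L) (hh : h.PosSemidef)
    {A B : Finset (Site L)} (hAB : A ⊆ B) :
    GA (L := L) h A * GA h B = GA h B ∧ GA (L := L) h B * GA h A = GA h B := by
  have h1 : GA (L := L) h A * GA h B = GA h B := by
    ext1 x
    rw [mul_apply_eq_comp]
    have h2 : GA h B x ∈ LinearMap.ker (hamOn h B : Hil d L →ₗ[ℂ] Hil d L) :=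
      Submodule.starProjection_apply_mem _ x
    have h3 : hamOn h A (GA h B x) = 0 :=
      (pj_mem_ker hrL hh A _).mpr fun v hv => (pj_mem_ker hrL hh B _).mp h2 v (hAB hv)
    have h4 : GA h B x ∈ LinearMap.ker (hamOn h A : Hil d L →ₗ[ℂ] Hil d L) := h3
    exact Submodule.starProjection_eq_self_iff.mpr h4
  refine ⟨h1, ?_⟩
  have hs : ∀ C : Finset (Site L), star (GA (L := L) h C) = GA h C := fun C =>
    (isStarProjection_starProjection : IsStarProjection (GA (L := L) h C)).isSelfAdjoint.star_eq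
  have h5 := congrArg star h1
  rw [star_mul, hs, hs] at h5
  exact h5

/-- The projection onto the zero-energy vectors of boxes which avoid `M₀`. -/
lemma lt7_act_out {M₀ M K : Finset (Site L)} (h0 : M₀ ⊆ M) (h1 : M ⊆ K) (c₀ : CK d Kᶜ)
    {O : Hil d L →L[ℂ] Hil d L} (h : LocalOn (K \ M₀) O) :
    Act (fun n => (eN d h0 h1 n).2) (fun n => (eN d h0 h1 n).1) (lt7_to K c₀ O) := by
  classical
  obtain ⟨m, hm⟩ := h.form
  have hmem : ∀ u : (K \ M₀ : Finset (Site L)), (u : Site L) ∈ K ∧ (u : Site L) ∉ M₀ :=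
    fun u => mem_sdiff.mp u.2
  refine ⟨fun t t' => m
    (fun u => if hu : (u : Site L) ∈ M then t.1 ⟨u, mem_sdiff.mpr ⟨hu, (hmem u).2⟩⟩ else
      t.2 ⟨u, mem_sdiff.mpr ⟨(hmem u).1, hu⟩⟩)
    (fun u => if hu : (u : Site L) ∈ M then t'.1 ⟨u, mem_sdiff.mpr ⟨hu, (hmem u).2⟩⟩ else
      t'.2 ⟨u, mem_sdiff.mpr ⟨(hmem u).1, hu⟩⟩), fun n n' => ?_⟩
  have e1 : ∀ n : CK d K, (fun u : (K \ M₀ : Finset (Site L)) =>
      if hu : (u : Site L) ∈ M then (eN d h0 h1 n).2.1 ⟨u, mem_sdiff.mpr ⟨hu, (hmem u).2⟩⟩ else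
      (eN d h0 h1 n).2.2 ⟨u, mem_sdiff.mpr ⟨(hmem u).1, hu⟩⟩) =
      fun u : (K \ M₀ : Finset (Site L)) => (eF d K).symm (n, c₀) (u : Site L) := by
    intro n
    funext u
    rw [lt7_eF_in K n c₀ u (hmem u).1]
    by_cases hu : (u : Site L) ∈ M
    · rw [dif_pos hu]; rfl
    · rw [dif_neg hu]; rfl
  change mat O _ _ = _
  rw [hm, ← e1, ← e1]
  by_cases hc : (eN d h0 h1 n).1 = (eN d h0 h1 n').1
  · rw [if_pos hc, if_pos]
    intro u hu
    by_cases huK : u ∈ K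
    · have huM : u ∈ M₀ := by
        by_contra h2
        exact hu (mem_sdiff.mpr ⟨huK, h2⟩)
      rw [lt7_eF_in K n c₀ u huK, lt7_eF_in K n' c₀ u huK]
      exact congrFun hc ⟨u, huM⟩
    · rw [lt7_eF_out K n c₀ u huK, lt7_eF_out K n' c₀ u huK]
  · rw [if_neg hc, if_neg]
    intro hall
    apply hc
    funext u
    have huK : (u : Site L) ∈ K := h1 (h0 u.2)
    have := hall u (fun h2 => (mem_sdiff.mp h2).2 u.2)
    rw [lt7_eF_in K n c₀ u huK, lt7_eF_in K n' c₀ u huK] at this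
    exact this

lemma lt7_act_in {M₀ M K : Finset (Site L)} (h0 : M₀ ⊆ M) (h1 : M ⊆ K) (c₀ : CK d Kᶜ)
    {O : Hil d L →L[ℂ] Hil d L} (h : LocalOn M O) :
    Act (fun n => ((eN d h0 h1 n).1, (eN d h0 h1 n).2.1)) (fun n => (eN d h0 h1 n).2.2)
      (lt7_to K c₀ O) := by
  classical
  obtain ⟨m, hm⟩ := h.form
  refine ⟨fun t t' => m
    (fun u => if hu : (u : Site L) ∈ M₀ then t.1 ⟨u, hu⟩ else
      t.2 ⟨u, mem_sdiff.mpr ⟨u.2, hu⟩⟩)
    (fun u => if hu : (u : Site L) ∈ M₀ then t'.1 ⟨u, hu⟩ else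
      t'.2 ⟨u, mem_sdiff.mpr ⟨u.2, hu⟩⟩), fun n n' => ?_⟩
  have e1 : ∀ n : CK d K, (fun u : M =>
      if hu : (u : Site L) ∈ M₀ then (eN d h0 h1 n).1 ⟨u, hu⟩ else
      (eN d h0 h1 n).2.1 ⟨u, mem_sdiff.mpr ⟨u.2, hu⟩⟩) =
      fun u : M => (eF d K).symm (n, c₀) (u : Site L) := by
    intro n
    funext u
    rw [lt7_eF_in K n c₀ u (h1 u.2)]
    by_cases hu : (u : Site L) ∈ M₀
    · rw [dif_pos hu]; rfl
    · rw [dif_neg hu]; rfl
  change mat O _ _ = _
  rw [hm, ← e1, ← e1]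
  by_cases hc : (eN d h0 h1 n).2.2 = (eN d h0 h1 n').2.2
  · rw [if_pos hc, if_pos]
    intro u hu
    by_cases huK : u ∈ K
    · rw [lt7_eF_in K n c₀ u huK, lt7_eF_in K n' c₀ u huK]
      exact congrFun hc ⟨u, mem_sdiff.mpr ⟨huK, hu⟩⟩
    · rw [lt7_eF_out K n c₀ u huK, lt7_eF_out K n' c₀ u huK]
  · rw [if_neg hc, if_neg]
    intro hall
    apply hc
    funext u
    have huK : (u : Site L) ∈ K := (mem_sdiff.mp u.2).1
    have := hall u (mem_sdiff.mp u.2).2
    rw [lt7_eF_in K n c₀ u huK, lt7_eF_in K n' c₀ u huK] at this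
    exact this

/-- LT7 (the ground state projections near a rectangle, as matrices on the neighbourhood). -/
theorem abs_ops (hd : 0 < d) (hrL : r ≤ L) {h : Matrix (LConf d r) (LConf d r) ℂ}
    (hh : h.PosSemidef) {M₀ M K : Finset (Site L)} (h0 : M₀ ⊆ M) (h1 : M ⊆ K) {δ : ℝ} (hδ : 0 ≤ δ)
    (hg : ‖GA (L := L) h ((inn L r K).filter fun v => ∀ p, boxPos L r v p ∉ M₀) *
        GA h ((inn L r K).filter fun v => ∀ p, boxPos L r v p ∈ M) - GA h (inn L r K)‖ ≤ δ)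
    (Ψ : Hil d L) (hΨ : Ψ ≠ 0) (hΨ0 : hamOn h univ Ψ = 0) :
    ∃ (G A B : Matrix (CK d K) (CK d K) ℂ) (v : CK d K → ℂ), IsPr G ∧ IsPr A ∧ IsPr B ∧
      nsq v = 1 ∧ G.mulVec v = v ∧ G * A = G ∧ B * G = G ∧
      (∀ x, nsq ((A * B - G).mulVec x) ≤ δ ^ 2 * nsq x) ∧
      Act (fun n => (eN d h0 h1 n).2) (fun n => (eN d h0 h1 n).1) A ∧
      Act (fun n => ((eN d h0 h1 n).1, (eN d h0 h1 n).2.1)) (fun n => (eN d h0 h1 n).2.2) B ∧
      (∀ x : CK d K × CK d Kᶜ → ℂ, InR G x ↔ Zero h (inn L r K) (x ∘ eF d K)) ∧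
      ∀ (κ : Type) [Fintype κ] [DecidableEq κ] (x : CK d K × (CK d Kᶜ × κ) → ℂ),
        InR G x ↔ ZeroA h (inn L r K) (x ∘ eE d K κ) := by
  classical
  set c₀ : CK d Kᶜ := fun _ => ⟨0, hd⟩ with hc₀
  set TA := (inn L r K).filter fun v => ∀ p, boxPos L r v p ∉ M₀ with hTA
  set TB := (inn L r K).filter fun v => ∀ p, boxPos L r v p ∈ M with hTB
  have hinn : ∀ v ∈ inn L r K, ∀ p, boxPos L r v p ∈ K := by
    intro v hv p
    unfold inn at hv
    exact (mem_filter.mp hv).2 p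
  have hTAs : TA ⊆ inn L r K := filter_subset _ _
  have hTBs : TB ⊆ inn L r K := filter_subset _ _
  have lG : LocalOn K (GA (L := L) h (inn L r K)) := GA_localOn hrL hh _ K hinn
  have lA' : LocalOn (K \ M₀) (GA (L := L) h TA) := by
    refine GA_localOn hrL hh _ _ fun v hv p => ?_
    exact mem_sdiff.mpr ⟨hinn v (hTAs hv) p, (mem_filter.mp hv).2 p⟩
  have lB' : LocalOn M (GA (L := L) h TB) :=
    GA_localOn hrL hh _ _ fun v hv p => (mem_filter.mp hv).2 p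
  have lA : LocalOn K (GA (L := L) h TA) := lA'.mono sdiff_subset
  have lB : LocalOn K (GA (L := L) h TB) := lB'.mono h1
  have hpr : ∀ C : Finset (Site L), IsStarProjection (GA (L := L) h C) :=
    fun C => isStarProjection_starProjection
  have hloc : LocalOn K (GA (L := L) h TA * GA h TB - GA h (inn L r K)) := by
    intro u hu a b
    rw [mul_sub, sub_mul, (lA.mul lB) u hu a b, lG u hu a b]
  -- the vector
  obtain ⟨c, hc⟩ : ∃ c : CK d Kᶜ, (fun n : CK d K => Ψ ((eF d K).symm (n, c))) ≠ 0 := by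
    by_contra hcon
    push Not at hcon
    apply hΨ
    ext s
    obtain ⟨⟨n, c⟩, rfl⟩ := (eF d K).symm.surjective s
    exact congrFun (hcon c) n
  set w : CK d K → ℂ := fun n => Ψ ((eF d K).symm (n, c)) with hw
  have hGw : (lt7_to K c₀ (GA (L := L) h (inn L r K))).mulVec w = w := by
    have h2 : Zero h (inn L r K) ((fun p => Ψ ((eF d K).symm p)) ∘ eF d K) := by
      intro v _
      have h3 := (pj_mem_ker hrL hh univ Ψ).mp hΨ0 v (mem_univ _)
      have h4 : ((fun p => Ψ ((eF d K).symm p)) ∘ eF d K) = fun s => Ψ s := by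
        funext s
        rw [Function.comp_apply, Equiv.symm_apply_apply]
      rw [h4]
      funext s
      have h5 := lt7_mat_mulVec (locOp L h v) Ψ s
      rw [h3, mat_locOp] at h5
      exact h5.symm
    exact (lt7_inR_iff c₀ hrL hh hinn _).mpr h2 c
  have hwpos : 0 < nsq w := by
    unfold nsq
    rcases Function.ne_iff.mp hc with ⟨n, hn⟩
    refine Finset.sum_pos' (fun i _ => by positivity) ⟨n, mem_univ _, ?_⟩
    have : 0 < ‖w n‖ := norm_pos_iff.mpr hn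
    positivity
  refine ⟨lt7_to K c₀ (GA h (inn L r K)), lt7_to K c₀ (GA h TA), lt7_to K c₀ (GA h TB),
    (((Real.sqrt (nsq w))⁻¹ : ℝ) : ℂ) • w, lt7_isPr c₀ (hpr _) lG, lt7_isPr c₀ (hpr _) lA,
    lt7_isPr c₀ (hpr _) lB, ?_, ?_, ?_, ?_, ?_, lt7_act_out h0 h1 c₀ lA',
    lt7_act_in h0 h1 c₀ lB', lt7_inR_iff c₀ hrL hh hinn, ?_⟩
  · have h2 : nsq ((((Real.sqrt (nsq w))⁻¹ : ℝ) : ℂ) • w) =
        ((Real.sqrt (nsq w))⁻¹) ^ 2 * nsq w := by
      unfold nsq
      rw [Finset.mul_sum]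
      refine Finset.sum_congr rfl fun i _ => ?_
      rw [Pi.smul_apply, smul_eq_mul, norm_mul, mul_pow, Complex.norm_real, Real.norm_eq_abs,
        sq_abs]
    rw [h2, inv_pow, Real.sq_sqrt hwpos.le, inv_mul_cancel₀ hwpos.ne']
  · rw [Matrix.mulVec_smul, hGw]
  · rw [← lt7_mul c₀ lG lA, (lt7_GA_mul hrL hh hTAs).2]
  · rw [← lt7_mul c₀ lB lG, (lt7_GA_mul hrL hh hTBs).1]
  · intro x
    rw [← lt7_mul c₀ lA lB, ← lt7_sub]
    exact lt7_nsq_mulVec c₀ hloc hδ hg x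
  · intro κ _ _ x
    have h2 : ∀ k : κ, InR (lt7_to K c₀ (GA (L := L) h (inn L r K)))
        (fun p : CK d K × CK d Kᶜ => x (p.1, (p.2, k))) ↔
        Zero h (inn L r K) ((fun p : CK d K × CK d Kᶜ => x (p.1, (p.2, k))) ∘ eF d K) :=
      fun k => lt7_inR_iff c₀ hrL hh hinn _
    constructor
    · intro H k
      exact (h2 k).mp fun c => H (c, k)
    · intro H ck
      exact (h2 ck.2).mpr (H ck.2) ck.1

end LT7

end Pool.Agent.FFG.LT
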