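import Pool.Agent.FFG.LT.Defs

/-!
# LT16: elimination of the pieces of a layer
-/

open Finset
open scoped ComplexOrder

set_option autoImplicit false
set_option linter.unusedSectionVars false
set_option linter.unusedVariables false

namespace Pool.Agent.FFG.LT

section Torus

open Pool.Agent.PEPS953

variable {d L r : ℕ} [NeZero L]

/-- An operator which acts on `R` acts on every larger set. -/
theorem lt16_actsA_mono {κ : Type} [Fintype κ] [DecidableEq κ] {R R' : Finset (Site L)}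
    (hR : R ⊆ R') {O : Matrix (Conf d L × κ) (Conf d L × κ) ℂ} (hO : ActsA R O) : ActsA R' O := by
  classical
  obtain ⟨m, hm⟩ := hO
  refine ⟨fun f g => if ∀ u : R', (u : Site L) ∉ R → f.1 u = g.1 u then
    m (fun u => f.1 ⟨u, hR u.2⟩, f.2) (fun u => g.1 ⟨u, hR u.2⟩, g.2) else 0, fun p q => ?_⟩
  rw [hm]
  by_cases h : ∀ u, u ∉ R → p.1 u = q.1 u
  · rw [if_pos h, if_pos fun u hu => h u fun hu' => hu (hR hu')]
    have h' : ∀ u : R', (u : Site L) ∉ R → p.1 u = q.1 u := fun u hu => h u hu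
    simp only
    rw [if_pos h']
  · rw [if_neg h]
    by_cases h1 : ∀ u, u ∉ R' → p.1 u = q.1 u
    · rw [if_pos h1]
      simp only
      rw [if_neg]
      intro h2
      refine h fun u hu => ?_
      by_cases hu' : u ∈ R'
      · exact h2 ⟨u, hu'⟩ hu
      · exact h1 u hu'
    · rw [if_neg h1]

/-- An operator which acts on the empty set acts on the reference system. -/
theorem lt16_actsA_empty {κ : Type} [Fintype κ] [DecidableEq κ]
    {O : Matrix (Conf d L × κ) (Conf d L × κ) ℂ} (hO : ActsA (∅ : Finset (Site L)) O) :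
    ∃ O₁ : Matrix κ κ ℂ, O = dn (Conf d L) O₁ := by
  classical
  obtain ⟨m, hm⟩ := hO
  refine ⟨fun k k' => m (fun u => absurd u.2 (notMem_empty _), k)
    (fun u => absurd u.2 (notMem_empty _), k'), ?_⟩
  ext p q
  rw [hm]
  simp only [dn]
  by_cases h : p.1 = q.1
  · rw [if_pos h, if_pos fun u _ => congrFun h u]
    congr 2 <;> (funext u; exact absurd u.2 (notMem_empty _))
  · rw [if_neg h, if_neg]
    exact fun h' => h (funext fun u => h' u (notMem_empty _))

theorem lt16_ipr_add {X : Type} [Fintype X] (x y z : X → ℂ) : ipr x (y + z) = ipr x y + ipr x z := by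
  simp only [ipr, Pi.add_apply, mul_add, sum_add_distrib]

theorem lt16_aux {h : Matrix (LConf d r) (LConf d r) ℂ} {ℓ w : ℕ} {ε : ℝ} (hε : 0 ≤ ε)
    (H : TOA L h ℓ w ε) (S : Finset (Site L)) {n : ℕ} (A : Fin n → Finset (Site L))
    (hA : Layer w ℓ S A) {κ : Type} [Fintype κ] [DecidableEq κ] (T : Finset (Fin n)) :
    ∀ (O : Matrix (Conf d L × κ) (Conf d L × κ) ℂ), Contr O → ActsA (T.biUnion A) O →
    ∃ O₁ : Matrix κ κ ℂ, ∀ φ χ : Conf d L × κ → ℂ, ZeroA h Sᶜ φ → ZeroA h Sᶜ χ →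
      ‖ipr φ ((O - dn (Conf d L) O₁).mulVec χ)‖ ≤ T.card * ε * nm φ * nm χ := by
  classical
  induction T using Finset.induction_on with
  | empty =>
    intro O hO hact
    rw [biUnion_empty] at hact
    obtain ⟨O₁, h1⟩ := lt16_actsA_empty hact
    refine ⟨O₁, fun φ χ _ _ => ?_⟩
    rw [← h1, sub_self, Matrix.zero_mulVec]
    simp [ipr]
  | insert j T hj ih =>
    intro O hO hact
    obtain ⟨x, y, a, b, ha, hb, hAj, hS, hij⟩ := hA j
    have hact' : ActsA (bx x y a b ∪ T.biUnion A) O := by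
      refine lt16_actsA_mono ?_ hact
      rw [biUnion_insert]
      exact union_subset_union hAj subset_rfl
    have hR : ∀ u ∈ T.biUnion A, ∀ v ∈ bx x y a b, w < sdist v u := by
      intro u hu v hv
      obtain ⟨i, hi, hui⟩ := mem_biUnion.mp hu
      exact hij i (fun h' => hj (h' ▸ hi)) u hui v hv
    obtain ⟨O', hO', hact1, hO1⟩ := H x y a b ha hb _ hR κ O hO hact'
    obtain ⟨O₁, h1⟩ := ih O' hO' hact1
    refine ⟨O₁, fun φ χ hφ hχ => ?_⟩
    have hsub : ball w (bx x y a b) ⊆ Sᶜ := by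
      intro u hu
      rw [mem_compl]
      intro huS
      obtain ⟨v, hv, hvu⟩ := (mem_filter.mp hu).2
      exact absurd (hS u huS v hv) (not_lt.mpr hvu)
    have hφ' : ZeroA h (ball w (bx x y a b)) φ := fun k v hv => hφ k v (hsub hv)
    have hχ' : ZeroA h (ball w (bx x y a b)) χ := fun k v hv => hχ k v (hsub hv)
    have e1 : (O - dn (Conf d L) O₁).mulVec χ =
        (O - O').mulVec χ + (O' - dn (Conf d L) O₁).mulVec χ := by
      rw [← Matrix.add_mulVec, sub_add_sub_cancel]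
    rw [e1, lt16_ipr_add, card_insert_of_notMem hj]
    refine (norm_add_le _ _).trans ((add_le_add (hO1 φ χ hφ' hχ') (h1 φ χ hφ hχ)).trans
      (le_of_eq ?_))
    push_cast
    ring

/-- LT16 (iteration). -/
theorem iterate {h : Matrix (LConf d r) (LConf d r) ℂ} {ℓ w : ℕ} {ε : ℝ} (hε : 0 ≤ ε)
    (H : TOA L h ℓ w ε) (S : Finset (Site L)) {n : ℕ} (A : Fin n → Finset (Site L))
    (hA : Layer w ℓ S A) {κ : Type} [Fintype κ] [DecidableEq κ]
    (O : Matrix (Conf d L × κ) (Conf d L × κ) ℂ) (hO : Contr O)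
    (hact : ActsA (univ.biUnion A) O) :
    ∃ O₁ : Matrix κ κ ℂ, ∀ φ χ : Conf d L × κ → ℂ, ZeroA h Sᶜ φ → ZeroA h Sᶜ χ →
      ‖ipr φ ((O - dn (Conf d L) O₁).mulVec χ)‖ ≤ n * ε * nm φ * nm χ := by
  obtain ⟨O₁, h1⟩ := lt16_aux hε H S A hA univ O hO hact
  refine ⟨O₁, fun φ χ hφ hχ => ?_⟩
  have := h1 φ χ hφ hχ
  rwa [card_univ, Fintype.card_fin] at this

end Torus

end Pool.Agent.FFG.LT
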