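import Pool.Agent.FFG.LT.Defs

/-!
# LT2: the size of the reference system (Smith)
-/

open Finset
open scoped ComplexOrder

set_option autoImplicit false
set_option linter.unusedSectionVars false

namespace Pool.Agent.FFG.LT

section Basic

variable {X Y Z N f ψ : Type} [Fintype X] [Fintype Y] [Fintype Z] [Fintype N] [Fintype f]
  [Fintype ψ] [DecidableEq X] [DecidableEq Y] [DecidableEq Z] [DecidableEq N] [DecidableEq f]
  [DecidableEq ψ]

theorem lt2_nsq_eq (x : X → ℂ) : nsq x = ‖(WithLp.toLp 2 x : EuclideanSpace ℂ X)‖ ^ 2 := by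
  rw [EuclideanSpace.norm_sq_eq, nsq]

theorem lt2_nsq_nonneg (x : X → ℂ) : 0 ≤ nsq x := sum_nonneg fun i _ => by positivity

theorem lt2_nm_nonneg (x : X → ℂ) : 0 ≤ nm x := Real.sqrt_nonneg _

theorem lt2_nm_sq (x : X → ℂ) : nm x ^ 2 = nsq x := Real.sq_sqrt (lt2_nsq_nonneg x)

theorem lt2_nm_eq (x : X → ℂ) : nm x = ‖(WithLp.toLp 2 x : EuclideanSpace ℂ X)‖ := by
  rw [nm, lt2_nsq_eq, Real.sqrt_sq (norm_nonneg _)]

theorem lt2_ipr_adj (A : Matrix X Y ℂ) (x : X → ℂ) (w : Y → ℂ) :
    ipr (A.conjTranspose.mulVec x) w = ipr x (A.mulVec w) := by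
  have h1 : ipr (A.conjTranspose.mulVec x) w = dotProduct (star (A.conjTranspose.mulVec x)) w := rfl
  have h2 : ipr x (A.mulVec w) = dotProduct (star x) (A.mulVec w) := rfl
  rw [h1, h2, Matrix.star_mulVec, Matrix.conjTranspose_conjTranspose, Matrix.dotProduct_mulVec]

theorem lt2_contr_mul {A : Matrix X Y ℂ} {B : Matrix Y Z ℂ} (hA : Contr A) (hB : Contr B) :
    Contr (A * B) := by
  intro z
  rw [← Matrix.mulVec_mulVec]
  exact (hA _).trans (hB z)

theorem lt2_nsq_prod (x : N × ψ → ℂ) : nsq x = ∑ n, nsq fun l => x (n, l) := by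
  simp only [nsq]
  rw [Fintype.sum_prod_type]

theorem lt2_ipr_prod (x y : N × ψ → ℂ) :
    ipr x y = ∑ n, ipr (fun l => x (n, l)) (fun l => y (n, l)) := by
  simp only [ipr]
  rw [Fintype.sum_prod_type]

/-- The operator `1 ⊗ V`, for a rectangular matrix `V`. -/
noncomputable def lt2_lift (N : Type) [DecidableEq N] (V : Matrix f ψ ℂ) :
    Matrix (N × f) (N × ψ) ℂ := fun p q => if p.1 = q.1 then V p.2 q.2 else 0

theorem lt2_lift_mulVec (V : Matrix f ψ ℂ) (x : N × ψ → ℂ) (n : N) (a : f) :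
    (lt2_lift N V).mulVec x (n, a) = V.mulVec (fun l => x (n, l)) a := by
  rw [Matrix.mulVec, dotProduct, Fintype.sum_prod_type, sum_eq_single n]
  · simp [lt2_lift, Matrix.mulVec, dotProduct]
  · intro n' _ hn
    refine sum_eq_zero fun l _ => ?_
    simp only [lt2_lift]
    rw [if_neg hn.symm, zero_mul]
  · intro h
    exact absurd (mem_univ n) h

theorem lt2_lift_contr {V : Matrix f ψ ℂ} (hV : Contr V) : Contr (lt2_lift N V) := by
  intro x
  rw [lt2_nsq_prod, lt2_nsq_prod x]
  refine sum_le_sum fun n _ => ?_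
  have : (fun l => (lt2_lift N V).mulVec x (n, l)) = V.mulVec (fun l => x (n, l)) := by
    funext a
    exact lt2_lift_mulVec V x n a
  rw [this]
  exact hV _

theorem lt2_lift_conj (V : Matrix f ψ ℂ) :
    (lt2_lift N V).conjTranspose = lt2_lift N V.conjTranspose := by
  ext ⟨n, l⟩ ⟨n', a⟩
  simp only [Matrix.conjTranspose_apply, lt2_lift]
  by_cases h : n' = n
  · rw [if_pos h, if_pos h.symm]
  · rw [if_neg h, if_neg (fun h' => h h'.symm), star_zero]

theorem lt2_dn_eq (E : Matrix ψ ψ ℂ) : dn N E = lt2_lift N E := rfl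

theorem lt2_entry (V W : Matrix f ψ ℂ) (T : Matrix (N × ψ) (N × ψ) ℂ) (n n' : N) (a b : f) :
    (lt2_lift N V * T * (lt2_lift N W).conjTranspose) (n, a) (n', b) =
      ∑ l, ∑ l', V a l * T (n, l) (n', l') * star (W b l') := by
  have h1 : ∀ q : N × ψ, (lt2_lift N V * T) (n, a) q = ∑ l, V a l * T (n, l) q := by
    intro q
    rw [Matrix.mul_apply, Fintype.sum_prod_type, sum_eq_single n]
    · simp [lt2_lift]
    · intro k _ hk
      refine sum_eq_zero fun l _ => ?_
      simp only [lt2_lift]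
      rw [if_neg hk.symm, zero_mul]
    · intro h
      exact absurd (mem_univ n) h
  rw [Matrix.mul_apply, Fintype.sum_prod_type, sum_eq_single n']
  · simp only [h1, Matrix.conjTranspose_apply, lt2_lift, if_true, sum_mul]
    rw [sum_comm]
  · intro k _ hk
    refine sum_eq_zero fun l _ => ?_
    rw [Matrix.conjTranspose_apply]
    simp only [lt2_lift]
    rw [if_neg hk.symm, star_zero, mul_zero]
  · intro h
    exact absurd (mem_univ n') h

theorem lt2_up {m c : Type} [Fintype m] [Fintype c] [DecidableEq m] [DecidableEq c]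
    (e : N ≃ m × c) (V W : Matrix f ψ ℂ) (O : Matrix (m × ψ) (m × ψ) ℂ) :
    up e (lt2_lift m V * O * (lt2_lift m W).conjTranspose) =
      lt2_lift N V * up e O * (lt2_lift N W).conjTranspose := by
  ext ⟨n, a⟩ ⟨n', b⟩
  rw [lt2_entry]
  simp only [up]
  by_cases h : (e n).2 = (e n').2
  · simp only [if_pos h]
    rw [lt2_entry]
  · simp only [if_neg h]
    simp

theorem lt2_ex (v : N → ℂ) (V W : Matrix f ψ ℂ) (T : Matrix (N × ψ) (N × ψ) ℂ) :
    ex v (lt2_lift N V * T * (lt2_lift N W).conjTranspose) =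
      V * ex v T * W.conjTranspose := by
  ext a b
  have h1 : (V * ex v T * W.conjTranspose) a b =
      ∑ l, ∑ l', V a l * ex v T l l' * star (W b l') := by
    rw [Matrix.mul_apply]
    simp only [Matrix.mul_apply, Matrix.conjTranspose_apply, sum_mul]
    rw [sum_comm]
  rw [h1]
  simp only [ex, lt2_entry]
  simp only [mul_sum, sum_mul]
  -- exchange the sums
  calc ∑ n, ∑ n', ∑ l, ∑ l', star (v n) * (V a l * T (n, l) (n', l') * star (W b l')) * v n'
      = ∑ n, ∑ l, ∑ n', ∑ l', star (v n) * (V a l * T (n, l) (n', l') * star (W b l')) * v n' :=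
        sum_congr rfl fun n _ => sum_comm
    _ = ∑ l, ∑ n, ∑ n', ∑ l', star (v n) * (V a l * T (n, l) (n', l') * star (W b l')) * v n' :=
        sum_comm
    _ = ∑ l, ∑ n, ∑ l', ∑ n', star (v n) * (V a l * T (n, l) (n', l') * star (W b l')) * v n' :=
        sum_congr rfl fun l _ => sum_congr rfl fun n _ => sum_comm
    _ = ∑ l, ∑ l', ∑ n, ∑ n', star (v n) * (V a l * T (n, l) (n', l') * star (W b l')) * v n' :=
        sum_congr rfl fun l _ => sum_comm
    _ = _ := by
        refine sum_congr rfl fun l _ => sum_congr rfl fun l' _ => sum_congr rfl fun n _ =>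
          sum_congr rfl fun n' _ => ?_
        ring

theorem lt2_dn (V W : Matrix f ψ ℂ) (E : Matrix ψ ψ ℂ) :
    dn N (V * E * W.conjTranspose) = lt2_lift N V * dn N E * (lt2_lift N W).conjTranspose := by
  ext ⟨n, a⟩ ⟨n', b⟩
  rw [lt2_entry]
  have h1 : (V * E * W.conjTranspose) a b = ∑ l, ∑ l', V a l * E l l' * star (W b l') := by
    rw [Matrix.mul_apply]
    simp only [Matrix.mul_apply, Matrix.conjTranspose_apply, sum_mul]
    rw [sum_comm]
  simp only [dn]
  by_cases h : n = n'
  · simp only [if_pos h]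
    rw [h1]
  · simp only [if_neg h]
    simp

/-- A partial isometry which fixes finitely many vectors. -/
theorem lt2_iso (X : N → ψ → ℂ) (hcard : Fintype.card N ≤ Fintype.card f) :
    ∃ V : Matrix f ψ ℂ, Contr V ∧ Contr V.conjTranspose ∧
      ∀ n, V.conjTranspose.mulVec (V.mulVec (X n)) = X n := by
  classical
  set S : Submodule ℂ (EuclideanSpace ℂ ψ) :=
    Submodule.span ℂ (Set.range fun n => (WithLp.toLp 2 (X n) : EuclideanSpace ℂ ψ)) with hS
  have hfr : Module.finrank ℂ S ≤ Fintype.card f :=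
    (finrank_range_le_card (R := ℂ) (fun n => (WithLp.toLp 2 (X n) : EuclideanSpace ℂ ψ))).trans
      hcard
  set b := stdOrthonormalBasis ℂ S with hb
  obtain ⟨g⟩ : Nonempty (Fin (Module.finrank ℂ S) ↪ f) :=
    Function.Embedding.nonempty_of_card_le (by simpa using hfr)
  set V : Matrix f ψ ℂ := fun a l =>
    ∑ k, if g k = a then star ((b k : EuclideanSpace ℂ ψ) l) else 0 with hV
  -- `V y`
  have hVy : ∀ (y : ψ → ℂ) (a : f), V.mulVec y a = ∑ k, if g k = a then
      inner ℂ (b k : EuclideanSpace ℂ ψ) (WithLp.toLp 2 y) else 0 := by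
    intro y a
    simp only [Matrix.mulVec, dotProduct, hV, sum_mul]
    rw [sum_comm]
    refine sum_congr rfl fun k _ => ?_
    by_cases h : g k = a
    · simp only [if_pos h]
      rw [PiLp.inner_apply]
      refine sum_congr rfl fun l _ => ?_
      rw [RCLike.inner_apply, mul_comm]
      rfl
    · simp only [if_neg h]
      simp
  have hVyg : ∀ (y : ψ → ℂ) k, V.mulVec y (g k) =
      inner ℂ (b k : EuclideanSpace ℂ ψ) (WithLp.toLp 2 y) := by
    intro y k
    rw [hVy, sum_eq_single k]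
    · rw [if_pos rfl]
    · intro k' _ hk
      rw [if_neg]
      intro h
      exact hk (g.injective h)
    · intro h
      exact absurd (mem_univ k) h
  have hVy0 : ∀ (y : ψ → ℂ) a, a ∉ univ.map g → V.mulVec y a = 0 := by
    intro y a ha
    rw [hVy]
    refine sum_eq_zero fun k _ => ?_
    rw [if_neg]
    intro h
    exact ha (mem_map.2 ⟨k, mem_univ k, h⟩)
  -- `V* z`
  have hVz : ∀ (z : f → ℂ), V.conjTranspose.mulVec z =
      WithLp.ofLp (∑ k, z (g k) • (b k : EuclideanSpace ℂ ψ)) := by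
    intro z
    funext l
    simp only [Matrix.mulVec, dotProduct, Matrix.conjTranspose_apply, hV, star_sum, sum_mul]
    rw [sum_comm]
    have h1 : (WithLp.ofLp (∑ k, z (g k) • (b k : EuclideanSpace ℂ ψ))) l =
        ∑ k, z (g k) * (b k : EuclideanSpace ℂ ψ) l := by
      simp
    rw [h1]
    refine sum_congr rfl fun k _ => ?_
    rw [sum_eq_single (g k)]
    · rw [if_pos rfl, star_star, mul_comm]
    · intro a _ ha
      rw [if_neg ha.symm, star_zero, zero_mul]
    · intro h
      exact absurd (mem_univ _) h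
  have hon : Orthonormal ℂ fun k => (b k : EuclideanSpace ℂ ψ) := by
    have h1 := b.orthonormal
    exact h1.comp_linearIsometry S.subtypeₗᵢ
  refine ⟨V, ?_, ?_, ?_⟩
  · intro y
    have h1 : nsq (V.mulVec y) = ∑ k, ‖inner ℂ (b k : EuclideanSpace ℂ ψ)
        (WithLp.toLp 2 y)‖ ^ 2 := by
      rw [nsq]
      rw [← sum_subset (subset_univ (univ.map g)) (fun a _ ha => by
        rw [hVy0 y a ha]
        simp), sum_map]
      refine sum_congr rfl fun k _ => ?_
      rw [hVyg]
    rw [h1, lt2_nsq_eq y]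
    exact hon.sum_inner_products_le _
  · intro z
    have h1 : nsq (V.conjTranspose.mulVec z) = ∑ k, ‖z (g k)‖ ^ 2 := by
      rw [hVz, lt2_nsq_eq]
      have h2 : (WithLp.toLp 2 (WithLp.ofLp (∑ k, z (g k) • (b k : EuclideanSpace ℂ ψ))) :
          EuclideanSpace ℂ ψ) = ((∑ k, z (g k) • b k : S) : EuclideanSpace ℂ ψ) := by
        push_cast
        rfl
      rw [h2]
      have h3 : ‖((∑ k, z (g k) • b k : S) : EuclideanSpace ℂ ψ)‖ = ‖(∑ k, z (g k) • b k : S)‖ := rfl
      rw [h3]
      have h4 : (∑ k, z (g k) • b k : S) =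
          b.repr.symm (WithLp.toLp 2 fun k => z (g k)) := by
        exact b.sum_repr_symm (WithLp.toLp 2 fun k => z (g k))
      rw [h4, LinearIsometryEquiv.norm_map, EuclideanSpace.norm_sq_eq]
    rw [h1, nsq]
    calc ∑ k, ‖z (g k)‖ ^ 2 = ∑ a ∈ univ.map g, ‖z a‖ ^ 2 := by rw [sum_map]
      _ ≤ ∑ a, ‖z a‖ ^ 2 := sum_le_sum_of_subset_of_nonneg (subset_univ _)
          fun a _ _ => by positivity
  · intro n
    rw [hVz]
    have h1 : (∑ k, V.mulVec (X n) (g k) • (b k : EuclideanSpace ℂ ψ)) =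
        (WithLp.toLp 2 (X n) : EuclideanSpace ℂ ψ) := by
      have hmem : (WithLp.toLp 2 (X n) : EuclideanSpace ℂ ψ) ∈ S :=
        Submodule.subset_span ⟨n, rfl⟩
      have h2 := b.sum_repr' ⟨_, hmem⟩
      have h3 := congrArg (fun s : S => (s : EuclideanSpace ℂ ψ)) h2
      simp only at h3
      rw [← h3]
      push_cast
      refine sum_congr rfl fun k _ => ?_
      rw [hVyg]
      rfl
    rw [h1]

end Basic

/-- LT2 (Smith). -/
theorem smith {m c N f : Type} [Fintype m] [Fintype c] [Fintype N] [Fintype f] [DecidableEq m]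
    [DecidableEq c] [DecidableEq N] [DecidableEq f] (e : N ≃ m × c) (G : Matrix N N ℂ)
    (hG : IsPr G) (v : N → ℂ) (hv : nsq v = 1) (hGv : G.mulVec v = v) (ε : ℝ)
    (hcard : Fintype.card N ≤ Fintype.card f)
    (H : ∀ O : Matrix (m × f) (m × f) ℂ, Contr O → ∃ O₁ : Matrix f f ℂ,
      ∀ x y : N × f → ℂ, InR G x → InR G y →
        ‖ipr x ((up e O - dn N O₁).mulVec y)‖ ≤ ε * nm x * nm y)
    (ψ : Type) [Fintype ψ] [DecidableEq ψ] : Ind e G v ψ (2 * ε) := by
  -- product vectors
  have hprod_nsq : ∀ ξ : f → ℂ, nsq (fun p : N × f => v p.1 * ξ p.2) = nsq ξ := by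
    intro ξ
    rw [lt2_nsq_prod]
    have : ∀ n, (nsq fun l => v n * ξ l) = ‖v n‖ ^ 2 * nsq ξ := by
      intro n
      rw [nsq, nsq, mul_sum]
      refine sum_congr rfl fun l _ => ?_
      rw [norm_mul, mul_pow]
    simp only [this]
    rw [← sum_mul]
    have h2 : ∑ n, ‖v n‖ ^ 2 = 1 := hv
    rw [h2, one_mul]
  have hprod_nm : ∀ ξ : f → ℂ, nm (fun p : N × f => v p.1 * ξ p.2) = nm ξ := by
    intro ξ
    rw [nm, nm, hprod_nsq]
  have hprod_R : ∀ ξ : f → ℂ, InR G (fun p : N × f => v p.1 * ξ p.2) := by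
    intro ξ l
    have h1 : (fun n => v n * ξ l) = ξ l • v := by
      funext n
      simp [mul_comm]
    simp only
    rw [h1, Matrix.mulVec_smul, hGv]
  have hprod_ipr : ∀ (T : Matrix (N × f) (N × f) ℂ) (ξ η : f → ℂ),
      ipr (fun p : N × f => v p.1 * ξ p.2) (T.mulVec fun p : N × f => v p.1 * η p.2) =
        ipr ξ ((ex v T).mulVec η) := by
    intro T ξ η
    simp only [ipr, Matrix.mulVec, dotProduct, ex, Fintype.sum_prod_type, mul_sum, sum_mul]
    calc ∑ n, ∑ a, ∑ n', ∑ b, star (v n * ξ a) * (T (n, a) (n', b) * (v n' * η b))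
        = ∑ a, ∑ n, ∑ n', ∑ b, star (v n * ξ a) * (T (n, a) (n', b) * (v n' * η b)) := sum_comm
      _ = ∑ a, ∑ n, ∑ b, ∑ n', star (v n * ξ a) * (T (n, a) (n', b) * (v n' * η b)) :=
          sum_congr rfl fun a _ => sum_congr rfl fun n _ => sum_comm
      _ = ∑ a, ∑ b, ∑ n, ∑ n', star (v n * ξ a) * (T (n, a) (n', b) * (v n' * η b)) :=
          sum_congr rfl fun a _ => sum_comm
      _ = _ := by
          refine sum_congr rfl fun a _ => sum_congr rfl fun b _ => sum_congr rfl fun n _ =>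
            sum_congr rfl fun n' _ => ?_
          rw [star_mul']
          ring
  have hprod_dn : ∀ (E : Matrix f f ℂ) (ξ η : f → ℂ),
      ipr (fun p : N × f => v p.1 * ξ p.2) ((dn N E).mulVec fun p : N × f => v p.1 * η p.2) =
        ipr ξ (E.mulVec η) := by
    intro E ξ η
    rw [lt2_ipr_prod]
    have h1 : ∀ n, ipr (fun l => v n * ξ l)
        (fun l => (dn N E).mulVec (fun p : N × f => v p.1 * η p.2) (n, l)) =
        ((‖v n‖ ^ 2 : ℝ) : ℂ) * ipr ξ (E.mulVec η) := by
      intro n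
      have h2 : (fun l => (dn N E).mulVec (fun p : N × f => v p.1 * η p.2) (n, l)) =
          v n • E.mulVec η := by
        funext l
        rw [lt2_dn_eq, lt2_lift_mulVec, ← Matrix.mulVec_smul]
        rfl
      rw [h2]
      simp only [ipr, mul_sum, Pi.smul_apply, smul_eq_mul]
      refine sum_congr rfl fun l _ => ?_
      have h3 : ((‖v n‖ ^ 2 : ℝ) : ℂ) = star (v n) * v n := by
        rw [Complex.star_def, Complex.conj_mul', Complex.ofReal_pow]
      rw [h3, star_mul']
      ring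
    simp only [h1]
    rw [← sum_mul, ← Complex.ofReal_sum]
    have h2 : ∑ n, ‖v n‖ ^ 2 = 1 := hv
    rw [h2, Complex.ofReal_one, one_mul]
  -- `f` is not empty and `0 ≤ ε`
  have hN : 0 < Fintype.card N := by
    rw [Fintype.card_pos_iff]
    by_contra h
    rw [not_nonempty_iff] at h
    rw [nsq] at hv
    simp at hv
  obtain ⟨a0⟩ : Nonempty f := by
    rw [← Fintype.card_pos_iff]
    omega
  have hε : 0 ≤ ε := by
    obtain ⟨O₁, hO₁⟩ := H 0 (fun y => by
      rw [Matrix.zero_mulVec]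
      simp only [nsq, Pi.zero_apply, norm_zero]
      simp only [ne_eq, OfNat.ofNat_ne_zero, not_false_eq_true, zero_pow, sum_const_zero]
      exact sum_nonneg fun i _ => by positivity)
    have h1 := hO₁ _ _ (hprod_R (Pi.single a0 1)) (hprod_R (Pi.single a0 1))
    have h2 : nm (Pi.single a0 (1 : ℂ)) = 1 := by
      rw [nm, nsq, sum_eq_single a0]
      · simp
      · intro b _ hb
        rw [Pi.single_eq_of_ne hb]
        simp
      · intro h
        exact absurd (mem_univ a0) h
    rw [hprod_nm, h2, mul_one, mul_one] at h1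
    exact (norm_nonneg _).trans h1
  -- the bound for `1 ⊗ D`
  have hdn : ∀ D : Matrix f f ℂ, (∀ ξ η : f → ℂ, ‖ipr ξ (D.mulVec η)‖ ≤ ε * nm ξ * nm η) →
      ∀ x y : N × f → ℂ, ‖ipr x ((dn N D).mulVec y)‖ ≤ ε * nm x * nm y := by
    intro D hD x y
    rw [lt2_ipr_prod]
    have h1 : ∀ n, (fun l => (dn N D).mulVec y (n, l)) = D.mulVec (fun l => y (n, l)) := by
      intro n
      funext l
      rw [lt2_dn_eq, lt2_lift_mulVec]
    simp only [h1]
    calc ‖∑ n, ipr (fun l => x (n, l)) (D.mulVec fun l => y (n, l))‖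
        ≤ ∑ n, ‖ipr (fun l => x (n, l)) (D.mulVec fun l => y (n, l))‖ := norm_sum_le _ _
      _ ≤ ∑ n, ε * nm (fun l => x (n, l)) * nm (fun l => y (n, l)) :=
          sum_le_sum fun n _ => hD _ _
      _ = ε * ∑ n, nm (fun l => x (n, l)) * nm (fun l => y (n, l)) := by
          rw [mul_sum]
          exact sum_congr rfl fun n _ => by ring
      _ ≤ ε * (nm x * nm y) := by
          refine mul_le_mul_of_nonneg_left ?_ hε
          have h2 := sum_mul_sq_le_sq_mul_sq univ (fun n => nm (fun l => x (n, l)))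
            (fun n => nm (fun l => y (n, l)))
          simp only [lt2_nm_sq] at h2
          rw [← lt2_nsq_prod, ← lt2_nsq_prod, ← lt2_nm_sq, ← lt2_nm_sq, ← mul_pow] at h2
          exact (pow_le_pow_iff_left₀ (sum_nonneg fun n _ =>
            mul_nonneg (lt2_nm_nonneg _) (lt2_nm_nonneg _))
            (mul_nonneg (lt2_nm_nonneg _) (lt2_nm_nonneg _)) two_ne_zero).1 h2
      _ = ε * nm x * nm y := by ring
  -- (i) the reference system `f`
  have hf : ∀ O : Matrix (m × f) (m × f) ℂ, Contr O → ∀ x y : N × f → ℂ, InR G x → InR G y →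
      ‖ipr x ((up e O - dn N (ex v (up e O))).mulVec y)‖ ≤ 2 * ε * nm x * nm y := by
    intro O hO x y hx hy
    obtain ⟨O₁, hO₁⟩ := H O hO
    have h1 : ∀ ξ η : f → ℂ, ‖ipr ξ ((ex v (up e O) - O₁).mulVec η)‖ ≤ ε * nm ξ * nm η := by
      intro ξ η
      have h2 := hO₁ _ _ (hprod_R ξ) (hprod_R η)
      rw [hprod_nm, hprod_nm] at h2
      have h3 : ipr (fun p : N × f => v p.1 * ξ p.2)
          ((up e O - dn N O₁).mulVec fun p : N × f => v p.1 * η p.2) =
          ipr ξ ((ex v (up e O) - O₁).mulVec η) := by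
        rw [Matrix.sub_mulVec, Matrix.sub_mulVec]
        have h4 : ∀ {X : Type} [Fintype X] (a b c : X → ℂ), ipr a (b - c) = ipr a b - ipr a c := by
          intro X _ a b c
          simp only [ipr, Pi.sub_apply, mul_sub, sum_sub_distrib]
        rw [h4, h4, hprod_ipr, hprod_dn]
      rw [h3] at h2
      exact h2
    have h5 := hdn _ h1 x y
    have h6 := hO₁ x y hx hy
    have h7 : up e O - dn N (ex v (up e O)) =
        (up e O - dn N O₁) - dn N (ex v (up e O) - O₁) := by
      have h8 : dn N (ex v (up e O) - O₁) = dn N (ex v (up e O)) - dn N O₁ := by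
        ext p q
        simp only [dn, Matrix.sub_apply]
        split_ifs <;> simp
      rw [h8]
      abel
    have h9 : ipr x ((up e O - dn N (ex v (up e O))).mulVec y) =
        ipr x ((up e O - dn N O₁).mulVec y) -
          ipr x ((dn N (ex v (up e O) - O₁)).mulVec y) := by
      rw [h7, Matrix.sub_mulVec]
      simp only [ipr, Pi.sub_apply, mul_sub, sum_sub_distrib]
    rw [h9]
    calc ‖ipr x ((up e O - dn N O₁).mulVec y) -
          ipr x ((dn N (ex v (up e O) - O₁)).mulVec y)‖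
        ≤ ‖ipr x ((up e O - dn N O₁).mulVec y)‖ +
          ‖ipr x ((dn N (ex v (up e O) - O₁)).mulVec y)‖ := norm_sub_le _ _
      _ ≤ ε * nm x * nm y + ε * nm x * nm y := add_le_add h6 h5
      _ = 2 * ε * nm x * nm y := by ring
  -- (ii) the general case
  intro O hO x y hx hy
  obtain ⟨V, hV1, hV2, hV3⟩ := lt2_iso (f := f) (fun n l => x (n, l)) hcard
  obtain ⟨W, hW1, hW2, hW3⟩ := lt2_iso (f := f) (fun n l => y (n, l)) hcard
  have hback : ∀ (U : Matrix f ψ ℂ) (z : N × ψ → ℂ),
      (∀ n, U.conjTranspose.mulVec (U.mulVec fun l => z (n, l)) = fun l => z (n, l)) →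
      (lt2_lift N U).conjTranspose.mulVec ((lt2_lift N U).mulVec z) = z := by
    intro U z hU
    funext p
    obtain ⟨n, l⟩ := p
    rw [lt2_lift_conj, lt2_lift_mulVec]
    have h1 : (fun l => (lt2_lift N U).mulVec z (n, l)) = U.mulVec fun l => z (n, l) := by
      funext a
      rw [lt2_lift_mulVec]
    rw [h1, hU n]
  have hnm : ∀ (U : Matrix f ψ ℂ) (z : N × ψ → ℂ), Contr U →
      nm ((lt2_lift N U).mulVec z) ≤ nm z := fun U z hU =>
    Real.sqrt_le_sqrt (lt2_lift_contr hU z)
  have hRl : ∀ (U : Matrix f ψ ℂ) (z : N × ψ → ℂ), InR G z → InR G ((lt2_lift N U).mulVec z) := by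
    intro U z hz a
    have h1 : (fun n => (lt2_lift N U).mulVec z (n, a)) = ∑ l, U a l • fun n => z (n, l) := by
      funext n
      rw [lt2_lift_mulVec]
      simp [Matrix.mulVec, dotProduct]
    rw [h1, Matrix.mulVec_sum]
    refine sum_congr rfl fun l _ => ?_
    rw [Matrix.mulVec_smul, hz l]
  set x' := (lt2_lift N V).mulVec x with hx'
  set y' := (lt2_lift N W).mulVec y with hy'
  have hO' : Contr (lt2_lift m V * O * (lt2_lift m W).conjTranspose) := by
    refine lt2_contr_mul (lt2_contr_mul (lt2_lift_contr hV1) hO) ?_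
    rw [lt2_lift_conj]
    exact lt2_lift_contr hW2
  have h1 := hf _ hO' x' y' (hRl V x hx) (hRl W y hy)
  rw [lt2_up, lt2_ex, lt2_dn, ← Matrix.sub_mul, ← Matrix.mul_sub, ← Matrix.mulVec_mulVec,
    ← Matrix.mulVec_mulVec, ← lt2_ipr_adj, hx', hback V x hV3, hy', hback W y hW3] at h1
  calc ‖ipr x ((up e O - dn N (ex v (up e O))).mulVec y)‖
      ≤ 2 * ε * nm ((lt2_lift N V).mulVec x) * nm ((lt2_lift N W).mulVec y) := h1
    _ ≤ 2 * ε * nm x * nm y := by
        have h2 := hnm V x hV1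
        have h3 := hnm W y hW1
        have h4 := lt2_nm_nonneg ((lt2_lift N W).mulVec y)
        have h5 := lt2_nm_nonneg x
        gcongr

end Pool.Agent.FFG.LT
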