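import Pool.Agent.FFG.LT.Defs

/-!
# From the conclusion of LT3 to the torus (LT9)
-/

open Finset

set_option autoImplicit false
set_option linter.unusedSectionVars false
set_option linter.unusedVariables false

namespace Pool.Agent.FFG.LT

section Abstract

variable {X Y Z m c N ψ : Type} [Fintype X] [Fintype Y] [Fintype Z] [Fintype m] [Fintype c]
  [Fintype N] [Fintype ψ] [DecidableEq X] [DecidableEq Y] [DecidableEq Z] [DecidableEq m]
  [DecidableEq c] [DecidableEq N] [DecidableEq ψ]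

theorem lt9_nsq_comp (e : X ≃ Y) (y : Y → ℂ) : nsq (y ∘ e) = nsq y := by
  unfold nsq
  exact Equiv.sum_comp e (fun i => ‖y i‖ ^ 2)

theorem lt9_nm_comp (e : X ≃ Y) (y : Y → ℂ) : nm (y ∘ e) = nm y := by
  unfold nm
  rw [lt9_nsq_comp]

theorem lt9_ipr_comp (e : X ≃ Y) (x y : Y → ℂ) : ipr (x ∘ e) (y ∘ e) = ipr x y := by
  unfold ipr
  exact Equiv.sum_comp e (fun i => star (x i) * y i)

theorem lt9_mulVec_submatrix (e : X ≃ Y) (M : Matrix Y Y ℂ) (y : Y → ℂ) :
    (M.submatrix e e).mulVec (y ∘ e) = M.mulVec y ∘ e := by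
  funext i
  simp only [Matrix.mulVec, dotProduct, Matrix.submatrix_apply, Function.comp_apply]
  exact Equiv.sum_comp e (fun j => M (e i) j * y j)

theorem lt9_contr_submatrix (e : X ≃ Y) (M : Matrix Y Y ℂ) :
    Contr (M.submatrix e e) ↔ Contr M := by
  constructor
  · intro h y
    have := h (y ∘ e)
    rwa [lt9_mulVec_submatrix, lt9_nsq_comp, lt9_nsq_comp] at this
  · intro h y
    have h1 : y = (y ∘ e.symm) ∘ e := by
      funext i
      simp
    rw [h1, lt9_mulVec_submatrix, lt9_nsq_comp, lt9_nsq_comp]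
    exact h _

theorem lt9_ex_contr (v : N → ℂ) (hv : nsq v = 1) (T : Matrix (N × ψ) (N × ψ) ℂ)
    (hT : Contr T) : Contr (ex v T) := by
  intro ξ
  set y : N × ψ → ℂ := fun p => v p.1 * ξ p.2 with hy
  have h1 : nsq y = nsq ξ := by
    have h4 : nsq y = nsq v * nsq ξ := by
      unfold nsq
      rw [Fintype.sum_prod_type, Finset.sum_mul_sum]
      refine Finset.sum_congr rfl fun n _ => Finset.sum_congr rfl fun l _ => ?_
      rw [hy, norm_mul, mul_pow]
    rw [h4, hv, one_mul]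
  have h2 : ∀ l, (ex v T).mulVec ξ l = ∑ n, star (v n) * T.mulVec y (n, l) := by
    intro l
    simp only [Matrix.mulVec, dotProduct, ex, Fintype.sum_prod_type, hy]
    simp only [Finset.sum_mul, Finset.mul_sum]
    rw [Finset.sum_comm]
    refine Finset.sum_congr rfl fun n _ => ?_
    rw [Finset.sum_comm]
    refine Finset.sum_congr rfl fun n' _ => Finset.sum_congr rfl fun l' _ => ?_
    ring
  have h3 : ∀ l, ‖(ex v T).mulVec ξ l‖ ^ 2 ≤ ∑ n, ‖T.mulVec y (n, l)‖ ^ 2 := by
    intro l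
    rw [h2]
    calc ‖∑ n, star (v n) * T.mulVec y (n, l)‖ ^ 2
        ≤ (∑ n, ‖v n‖ * ‖T.mulVec y (n, l)‖) ^ 2 := by
          have h5 : ‖∑ n, star (v n) * T.mulVec y (n, l)‖ ≤ ∑ n, ‖v n‖ * ‖T.mulVec y (n, l)‖ := by
            refine (norm_sum_le _ _).trans (le_of_eq ?_)
            refine Finset.sum_congr rfl fun n _ => ?_
            rw [norm_mul, norm_star]
          exact pow_le_pow_left₀ (norm_nonneg _) h5 2
      _ ≤ (∑ n, ‖v n‖ ^ 2) * ∑ n, ‖T.mulVec y (n, l)‖ ^ 2 :=
          Finset.sum_mul_sq_le_sq_mul_sq _ _ _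
      _ = ∑ n, ‖T.mulVec y (n, l)‖ ^ 2 := by
          rw [show ∑ n, ‖v n‖ ^ 2 = 1 from hv, one_mul]
  calc nsq ((ex v T).mulVec ξ) = ∑ l, ‖(ex v T).mulVec ξ l‖ ^ 2 := rfl
    _ ≤ ∑ l, ∑ n, ‖T.mulVec y (n, l)‖ ^ 2 := Finset.sum_le_sum fun l _ => h3 l
    _ = nsq (T.mulVec y) := by
        unfold nsq
        rw [Fintype.sum_prod_type, Finset.sum_comm]
    _ ≤ nsq y := hT y
    _ = nsq ξ := h1

theorem lt9_dn_mulVec (E : Matrix ψ ψ ℂ) (y : N × ψ → ℂ) (n : N) (l : ψ) :
    (dn N E).mulVec y (n, l) = E.mulVec (fun l => y (n, l)) l := by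
  simp only [Matrix.mulVec, dotProduct, dn, Fintype.sum_prod_type]
  rw [Finset.sum_eq_single n]
  · simp
  · intro n' _ hn
    simp [Ne.symm hn]
  · simp

theorem lt9_dn_contr (E : Matrix ψ ψ ℂ) (hE : Contr E) : Contr (dn N E) := by
  intro y
  unfold nsq
  rw [Fintype.sum_prod_type, Fintype.sum_prod_type]
  apply Finset.sum_le_sum
  intro n _
  have := hE (fun l => y (n, l))
  simp only [lt9_dn_mulVec]
  exact this

theorem lt9_nsq_ext (e : N ≃ m × c) (c0 : c) (w : m × ψ → ℂ) :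
    nsq (fun p : N × ψ => if (e p.1).2 = c0 then w ((e p.1).1, p.2) else 0) = nsq w := by
  unfold nsq
  rw [Fintype.sum_prod_type, Fintype.sum_prod_type]
  have h1 : ∀ g : m × c → ℝ, ∑ n, g (e n) = ∑ i, g i := fun g => Equiv.sum_comp e g
  have h2 := h1 (fun ij => ∑ l, ‖(if ij.2 = c0 then w (ij.1, l) else 0 : ℂ)‖ ^ 2)
  rw [h2, Fintype.sum_prod_type]
  refine Finset.sum_congr rfl fun i _ => ?_
  rw [Finset.sum_eq_single c0]
  · simp
  · intro j _ hj
    simp [hj]
  · simp

theorem lt9_up_ext (e : N ≃ m × c) (c0 : c) (O : Matrix (m × ψ) (m × ψ) ℂ) (y : m × ψ → ℂ) :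
    (up e O).mulVec (fun p : N × ψ => if (e p.1).2 = c0 then y ((e p.1).1, p.2) else 0) =
      fun p : N × ψ => if (e p.1).2 = c0 then O.mulVec y ((e p.1).1, p.2) else 0 := by
  funext p
  simp only [Matrix.mulVec, dotProduct, up]
  rw [Fintype.sum_prod_type]
  have h2 := Equiv.sum_comp e (fun ij : m × c => ∑ l : ψ,
    (if (e p.1).2 = ij.2 then O ((e p.1).1, p.2) (ij.1, l) else 0) *
      (if ij.2 = c0 then y (ij.1, l) else 0))
  rw [h2, Fintype.sum_prod_type]
  by_cases hp : (e p.1).2 = c0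
  · rw [if_pos hp, Fintype.sum_prod_type]
    refine Finset.sum_congr rfl fun i _ => ?_
    rw [Finset.sum_eq_single c0]
    · simp [hp]
    · intro j _ hj
      simp [hj]
    · simp
  · rw [if_neg hp]
    refine Finset.sum_eq_zero fun i _ => Finset.sum_eq_zero fun j _ =>
      Finset.sum_eq_zero fun l _ => ?_
    by_cases hj : (e p.1).2 = j
    · have : j ≠ c0 := fun h => hp (hj.trans h)
      simp [this]
    · simp [hj]

theorem lt9_contr_of_up (e : N ≃ m × c) (c0 : c) (O : Matrix (m × ψ) (m × ψ) ℂ)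
    (h : Contr (up e O)) : Contr O := by
  intro y
  have h1 := h (fun p : N × ψ => if (e p.1).2 = c0 then y ((e p.1).1, p.2) else 0)
  rwa [lt9_up_ext, lt9_nsq_ext, lt9_nsq_ext] at h1

end Abstract

section Torus

open Pool.Agent.PEPS953

variable {d L r : ℕ} [NeZero L]

/-- Glueing of configurations on `M₀` and on the complement of `K`. -/
def lt9_glue {M₀ R K : Finset (Site L)} (hR : Disjoint R K) (i : CK d M₀) (f : CK d Kᶜ) :
    ((M₀ ∪ R : Finset (Site L)) → Fin d) := fun u =>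
  if hu : (u : Site L) ∈ M₀ then i ⟨u, hu⟩ else
    f ⟨u, mem_compl.mpr (Finset.disjoint_left.mp hR ((mem_union.mp u.2).resolve_left hu))⟩

theorem toa_of_ind (hd : 0 < d) {M₀ M K R : Finset (Site L)} (h0 : M₀ ⊆ M) (h1 : M ⊆ K)
    (hR : Disjoint R K) (G : Matrix (CK d K) (CK d K) ℂ) (v : CK d K → ℂ) (hv : nsq v = 1)
    {ε : ℝ} (κ : Type) [Fintype κ] [DecidableEq κ]
    (H : Ind (eN d h0 h1) G v (CK d Kᶜ × κ) ε)
    (O : Matrix (Conf d L × κ) (Conf d L × κ) ℂ) (hO : Contr O) (hact : ActsA (M₀ ∪ R) O) :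
    ∃ O₁ : Matrix (Conf d L × κ) (Conf d L × κ) ℂ, Contr O₁ ∧ ActsA R O₁ ∧
      ∀ φ χ : Conf d L × κ → ℂ, InR G (φ ∘ (eE d K κ).symm) → InR G (χ ∘ (eE d K κ).symm) →
        ‖ipr φ ((O - O₁).mulVec χ)‖ ≤ ε * nm φ * nm χ := by
  classical
  obtain ⟨mm, hmm⟩ := hact
  set O' : Matrix (CK d M₀ × (CK d Kᶜ × κ)) (CK d M₀ × (CK d Kᶜ × κ)) ℂ := fun p q =>
    if ∀ u : (Kᶜ : Finset (Site L)), (u : Site L) ∉ R → p.2.1 u = q.2.1 u then
      mm (lt9_glue hR p.1 p.2.1, p.2.2) (lt9_glue hR q.1 q.2.1, q.2.2) else 0 with hO'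
  have hkey : O = (up (eN d h0 h1) O').submatrix (eE d K κ) (eE d K κ) := by
    ext p q
    rw [hmm, Matrix.submatrix_apply]
    by_cases hc : ∀ u, u ∉ M₀ ∪ R → p.1 u = q.1 u
    · rw [if_pos hc]
      have hglue : ∀ p : Conf d L × κ, lt9_glue hR (eN d h0 h1 (eE d K κ p).1).1
          (eE d K κ p).2.1 = fun u : (M₀ ∪ R : Finset (Site L)) => p.1 u := by
        intro p
        funext u
        unfold lt9_glue
        split_ifs <;> rfl
      have h2 : (eN d h0 h1 (eE d K κ p).1).2 = (eN d h0 h1 (eE d K κ q).1).2 := by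
        refine Prod.ext ?_ ?_
        · funext u
          have hu := mem_sdiff.mp u.2
          refine hc u ?_
          rw [mem_union, not_or]
          exact ⟨hu.2, fun h => Finset.disjoint_left.mp hR h (h1 hu.1)⟩
        · funext u
          have hu := mem_sdiff.mp u.2
          refine hc u ?_
          rw [mem_union, not_or]
          exact ⟨fun h => hu.2 (h0 h), fun h => Finset.disjoint_left.mp hR h hu.1⟩
      have h3 : ∀ u : (Kᶜ : Finset (Site L)), (u : Site L) ∉ R →
          (eE d K κ p).2.1 u = (eE d K κ q).2.1 u := by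
        intro u hu
        refine hc u ?_
        rw [mem_union, not_or]
        exact ⟨fun h => (mem_compl.mp u.2) (h1 (h0 h)), hu⟩
      simp only [up, hO']
      rw [if_pos h2, if_pos h3, hglue, hglue]
      rfl
    · rw [if_neg hc]
      push Not at hc
      obtain ⟨u, hu, hne⟩ := hc
      rw [mem_union, not_or] at hu
      by_cases huK : u ∈ K
      · have h2 : ¬ (eN d h0 h1 (eE d K κ p).1).2 = (eN d h0 h1 (eE d K κ q).1).2 := by
          intro h
          by_cases huM : u ∈ M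
          · exact hne (congrFun (congrArg Prod.fst h) ⟨u, mem_sdiff.mpr ⟨huM, hu.1⟩⟩)
          · exact hne (congrFun (congrArg Prod.snd h) ⟨u, mem_sdiff.mpr ⟨huK, huM⟩⟩)
        simp only [up]
        rw [if_neg h2]
      · have h3 : ¬ ∀ u : (Kᶜ : Finset (Site L)), (u : Site L) ∉ R →
            (eE d K κ p).2.1 u = (eE d K κ q).2.1 u := by
          intro h
          exact hne (h ⟨u, mem_compl.mpr huK⟩ hu.2)
        simp only [up, hO']
        rw [if_neg h3, ite_self]
  have hup : Contr (up (eN d h0 h1) O') := by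
    rw [hkey, lt9_contr_submatrix] at hO
    exact hO
  have hO'c : Contr O' :=
    lt9_contr_of_up (eN d h0 h1) (fun _ => ⟨0, hd⟩, fun _ => ⟨0, hd⟩) O' hup
  set E : Matrix (CK d Kᶜ × κ) (CK d Kᶜ × κ) ℂ := ex v (up (eN d h0 h1) O') with hE
  have hEc : Contr E := lt9_ex_contr v hv _ hup
  refine ⟨(dn (CK d K) E).submatrix (eE d K κ) (eE d K κ), ?_, ?_, ?_⟩
  · rw [lt9_contr_submatrix]
    exact lt9_dn_contr E hEc
  · set xt : (R → Fin d) → CK d Kᶜ := fun ρ u =>
      if hu : (u : Site L) ∈ R then ρ ⟨u, hu⟩ else ⟨0, hd⟩ with hxt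
    have hE2 : ∀ (f f' : CK d Kᶜ) (g g' : CK d Kᶜ) (k k' : κ),
        (∀ u : (Kᶜ : Finset (Site L)), (u : Site L) ∉ R → f u = f' u) →
        (∀ u : (Kᶜ : Finset (Site L)), (u : Site L) ∉ R → g u = g' u) →
        (∀ u : (Kᶜ : Finset (Site L)), (u : Site L) ∈ R → f u = g u) →
        (∀ u : (Kᶜ : Finset (Site L)), (u : Site L) ∈ R → f' u = g' u) →
        E (f, k) (f', k') = E (g, k) (g', k') := by
      intro f f' g g' k k' hff hgg hfg hfg'
      have hgl : ∀ (i : CK d M₀) (f g : CK d Kᶜ),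
          (∀ u : (Kᶜ : Finset (Site L)), (u : Site L) ∈ R → f u = g u) →
          lt9_glue hR i f = lt9_glue hR i g := by
        intro i f g hfg
        funext u
        unfold lt9_glue
        by_cases hu : (u : Site L) ∈ M₀
        · rw [dif_pos hu, dif_pos hu]
        · rw [dif_neg hu, dif_neg hu]
          exact hfg _ ((mem_union.mp u.2).resolve_left hu)
      simp only [hE, ex, up, hO']
      refine Finset.sum_congr rfl fun n _ => Finset.sum_congr rfl fun n' _ => ?_
      rw [if_pos hff, if_pos hgg, hgl _ f g hfg, hgl _ f' g' hfg']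
    have hE3 : ∀ (f f' : CK d Kᶜ) (k k' : κ),
        (¬ ∀ u : (Kᶜ : Finset (Site L)), (u : Site L) ∉ R → f u = f' u) →
        E (f, k) (f', k') = 0 := by
      intro f f' k k' hff
      simp only [hE, ex, up, hO']
      refine Finset.sum_eq_zero fun n _ => Finset.sum_eq_zero fun n' _ => ?_
      rw [if_neg hff]
      simp
    refine ⟨fun a b => E (xt a.1, a.2) (xt b.1, b.2), fun p q => ?_⟩
    rw [Matrix.submatrix_apply]
    by_cases hc : ∀ u, u ∉ R → p.1 u = q.1 u
    · rw [if_pos hc]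
      have h2 : (eE d K κ p).1 = (eE d K κ q).1 := by
        funext u
        exact hc u (fun h => Finset.disjoint_left.mp hR h u.2)
      simp only [dn]
      rw [if_pos h2]
      refine hE2 _ _ _ _ _ _ ?_ ?_ ?_ ?_
      · intro u hu
        exact hc u hu
      · intro u hu
        simp only [hxt]
        rw [dif_neg hu, dif_neg hu]
      · intro u hu
        simp only [hxt]
        rw [dif_pos hu]
        rfl
      · intro u hu
        simp only [hxt]
        rw [dif_pos hu]
        rfl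
    · rw [if_neg hc]
      push Not at hc
      obtain ⟨u, hu, hne⟩ := hc
      simp only [dn]
      by_cases huK : u ∈ K
      · have h2 : ¬ (eE d K κ p).1 = (eE d K κ q).1 := by
          intro h
          exact hne (congrFun h ⟨u, huK⟩)
        rw [if_neg h2]
      · have h3 : ¬ ∀ u : (Kᶜ : Finset (Site L)), (u : Site L) ∉ R →
            (eE d K κ p).2.1 u = (eE d K κ q).2.1 u := by
          intro h
          exact hne (h ⟨u, mem_compl.mpr huK⟩ hu)
        split_ifs with h4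
        · exact hE3 _ _ _ _ h3
        · rfl
  · intro φ χ hφ hχ
    have h5 := H O' hO'c (φ ∘ (eE d K κ).symm) (χ ∘ (eE d K κ).symm) hφ hχ
    rw [lt9_nm_comp, lt9_nm_comp] at h5
    have h6 : ipr φ ((O - (dn (CK d K) E).submatrix (eE d K κ) (eE d K κ)).mulVec χ) =
        ipr (φ ∘ (eE d K κ).symm) ((up (eN d h0 h1) O' - dn (CK d K) E).mulVec
          (χ ∘ (eE d K κ).symm)) := by
      have h7 : O - (dn (CK d K) E).submatrix (eE d K κ) (eE d K κ) =
          (up (eN d h0 h1) O' - dn (CK d K) E).submatrix (eE d K κ) (eE d K κ) := by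
        rw [hkey]
        rfl
      have h8 : φ = (φ ∘ (eE d K κ).symm) ∘ (eE d K κ) := by
        funext i
        simp
      have h9 : χ = (χ ∘ (eE d K κ).symm) ∘ (eE d K κ) := by
        funext i
        simp
      conv_lhs => rw [h7, h8, h9, lt9_mulVec_submatrix, lt9_ipr_comp]
    rw [h6]
    exact h5

end Torus

end Pool.Agent.FFG.LT
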