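import Pool.Agent.FFG.LT.Bpt
import Pool.Agent.FFG.LT.Iterate
import Pool.Agent.FFG.LT.Smith
import Pool.Agent.FFG.LT.ToaInd

/-!
# The dimension of the space of the zero-energy states
-/

open Finset
open scoped ComplexOrder InnerProductSpace

set_option autoImplicit false
set_option linter.unusedSectionVars false
set_option linter.unusedVariables false

namespace Pool.Agent.FFG.LT

section Aux

variable {X m c N ψ : Type} [Fintype X] [Fintype m] [Fintype c] [Fintype N] [Fintype ψ]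
  [DecidableEq X] [DecidableEq m] [DecidableEq c] [DecidableEq N] [DecidableEq ψ]

theorem lt17_ipr_self (x : X → ℂ) : ipr x x = ((nsq x : ℝ) : ℂ) := by
  unfold ipr nsq
  rw [Complex.ofReal_sum]
  refine Finset.sum_congr rfl fun i _ => ?_
  have h := Complex.conj_mul' (x i)
  rw [Complex.ofReal_pow]
  exact h

theorem lt17_contr_pr {P : Matrix X X ℂ} (hP : IsPr P) : Contr P := by
  intro x
  have hadj : ∀ y z : X → ℂ, ipr (P.mulVec y) z = ipr y (P.mulVec z) := by
    intro y z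
    have := lt2_ipr_adj P y z
    rwa [hP.1.eq] at this
  have h1 : ipr (P.mulVec x) (P.mulVec x) = ipr x (P.mulVec x) := by
    rw [hadj, Matrix.mulVec_mulVec, hP.2]
  have h2 : ipr (x - P.mulVec x) (x - P.mulVec x) =
      ipr x x - ipr (P.mulVec x) (P.mulVec x) := by
    have h3 : ipr (x - P.mulVec x) (x - P.mulVec x) = ipr x x - ipr x (P.mulVec x) -
        (ipr (P.mulVec x) x - ipr (P.mulVec x) (P.mulVec x)) := by
      unfold ipr
      rw [← Finset.sum_sub_distrib, ← Finset.sum_sub_distrib, ← Finset.sum_sub_distrib]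
      refine Finset.sum_congr rfl fun i _ => ?_
      simp only [Pi.sub_apply, star_sub]
      ring
    rw [h3, hadj x x, h1]
    ring
  rw [lt17_ipr_self, lt17_ipr_self, lt17_ipr_self] at h2
  have h4 : nsq (x - P.mulVec x) = nsq x - nsq (P.mulVec x) := by exact_mod_cast h2
  have h5 := lt2_nsq_nonneg (x - P.mulVec x)
  linarith

theorem lt17_contr_up (e : N ≃ m × c) {O : Matrix (m × ψ) (m × ψ) ℂ} (hO : Contr O) :
    Contr (up e O) := by
  intro y
  have key : ∀ z : N × ψ → ℂ,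
      nsq z = ∑ k : c, nsq (fun p : m × ψ => z (e.symm (p.1, k), p.2)) := by
    intro z
    unfold nsq
    rw [Fintype.sum_prod_type, ← Equiv.sum_comp e.symm, Fintype.sum_prod_type, Finset.sum_comm]
    refine Finset.sum_congr rfl fun k _ => ?_
    rw [Fintype.sum_prod_type]
  rw [key, key y]
  refine Finset.sum_le_sum fun k _ => ?_
  have h1 : (fun p : m × ψ => (up e O).mulVec y (e.symm (p.1, k), p.2)) =
      O.mulVec (fun p => y (e.symm (p.1, k), p.2)) := by
    funext p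
    simp only [Matrix.mulVec, dotProduct, up]
    rw [Fintype.sum_prod_type, ← Equiv.sum_comp e.symm, Fintype.sum_prod_type,
      Fintype.sum_prod_type]
    refine Finset.sum_congr rfl fun i _ => ?_
    rw [Finset.sum_eq_single k]
    · simp
    · intro j _ hj
      simp [Ne.symm hj]
    · simp
  rw [h1]
  exact hO _

/-- The quadratic form of `1 ⊗ E`. -/
theorem lt17_dn_form (E : Matrix ψ ψ ℂ) (a : ψ → N → ℂ) :
    ipr (fun p : N × ψ => a p.2 p.1) ((dn N E).mulVec (fun p : N × ψ => a p.2 p.1)) =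
      ∑ l, ∑ l', E l l' * ipr (a l) (a l') := by
  unfold ipr
  rw [Fintype.sum_prod_type, Finset.sum_comm]
  refine Finset.sum_congr rfl fun l _ => ?_
  simp only [lt9_dn_mulVec]
  simp only [Matrix.mulVec, dotProduct]
  simp_rw [Finset.mul_sum]
  rw [Finset.sum_comm]
  refine Finset.sum_congr rfl fun l' _ => ?_
  refine Finset.sum_congr rfl fun n _ => ?_
  ring

/-- The averaged comparison. -/
theorem lt17_compare {Z ι : Type} [Fintype Z] [DecidableEq Z] [Fintype ι] [DecidableEq ι]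
    [Nonempty ι] (v : ι → Z → ℂ) (hv : ∀ i j, ipr (v i) (v j) = if i = j then 1 else 0)
    (Ψ : Z → ℂ) (hΨ : nsq Ψ = 1) (O : Matrix (Z × ι) (Z × ι) ℂ) (O₁ : Matrix ι ι ℂ) (η : ℝ)
    (Φ : Z × ι → ℂ) (hΦ : Φ = fun p => ((Real.sqrt (Fintype.card ι))⁻¹ : ℂ) * v p.2 p.1)
    (h1 : ‖ipr Φ ((O - dn Z O₁).mulVec Φ)‖ ≤ η * nm Φ * nm Φ)
    (h2 : ∀ i, ‖ipr (tens Ψ i) ((O - dn Z O₁).mulVec (tens Ψ i))‖ ≤
      η * nm (tens Ψ i) * nm (tens Ψ i)) :
    nsq Φ = 1 ∧ ‖ipr Φ (O.mulVec Φ) -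
      (∑ i, ipr (tens Ψ i) (O.mulVec (tens Ψ i))) / Fintype.card ι‖ ≤ 2 * η := by
  have hN : (0 : ℝ) < Fintype.card ι := by exact_mod_cast Fintype.card_pos
  set s : ℂ := ((Real.sqrt (Fintype.card ι))⁻¹ : ℂ) with hs
  have hss : star s * s = ((Fintype.card ι : ℂ))⁻¹ := by
    have h3 : s = (((Real.sqrt (Fintype.card ι))⁻¹ : ℝ) : ℂ) := by
      rw [hs, Complex.ofReal_inv]
    have h4 : star s = s := by
      rw [h3]
      exact Complex.conj_ofReal _
    rw [h4, h3, ← Complex.ofReal_mul, ← mul_inv, Real.mul_self_sqrt hN.le]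
    push_cast
    rfl
  have hform : ∀ i j : ι, ipr (fun z => s * v i z) (fun z => s * v j z) =
      (Fintype.card ι : ℂ)⁻¹ * (if i = j then 1 else 0) := by
    intro i j
    rw [← hv i j, ← hss]
    unfold ipr
    rw [Finset.mul_sum]
    refine Finset.sum_congr rfl fun z _ => ?_
    rw [star_mul']
    ring
  have hΦ1 : nsq Φ = 1 := by
    have h3 := lt17_ipr_self Φ
    have h4 : ipr Φ Φ = 1 := by
      have h5 : ipr Φ Φ = ∑ i : ι, ipr (fun z => s * v i z) (fun z => s * v i z) := by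
        unfold ipr
        rw [hΦ, Fintype.sum_prod_type, Finset.sum_comm]
      rw [h5]
      simp only [hform, if_true, mul_one, Finset.sum_const, Finset.card_univ, nsmul_eq_mul]
      rw [mul_inv_cancel₀]
      exact_mod_cast hN.ne'
    rw [h3] at h4
    exact_mod_cast h4
  have htf : ∀ i : ι, (tens Ψ i : Z × ι → ℂ) = fun p => (fun (l : ι) (z : Z) =>
      if l = i then Ψ z else 0) p.2 p.1 := fun i => rfl
  have hti : ∀ i l l' : ι, ipr (fun z => if l = i then Ψ z else 0)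
      (fun z => if l' = i then Ψ z else 0) = if l = i ∧ l' = i then 1 else 0 := by
    intro i l l'
    by_cases hl : l = i
    · by_cases hl' : l' = i
      · simp only [hl, hl', if_true, and_self]
        rw [lt17_ipr_self, hΨ]
        norm_num
      · simp [ipr, hl, hl']
    · simp [ipr, hl]
  have ht1 : ∀ i : ι, nsq (tens Ψ i : Z × ι → ℂ) = 1 := by
    intro i
    have h3 := lt17_ipr_self (tens Ψ i : Z × ι → ℂ)
    have h4 : ipr (tens Ψ i : Z × ι → ℂ) (tens Ψ i) = 1 := by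
      have h5 : ipr (tens Ψ i : Z × ι → ℂ) (tens Ψ i) =
          ∑ l : ι, ipr (fun z => if l = i then Ψ z else 0) (fun z => if l = i then Ψ z else 0) := by
        unfold ipr tens
        rw [Fintype.sum_prod_type, Finset.sum_comm]
      rw [h5]
      simp only [hti, and_self, Finset.sum_ite_eq', Finset.mem_univ, if_true]
    rw [h3] at h4
    exact_mod_cast h4
  have hsub : ∀ x : Z × ι → ℂ, ipr x (O.mulVec x) =
      ipr x ((O - dn Z O₁).mulVec x) + ipr x ((dn Z O₁).mulVec x) := by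
    intro x
    rw [← lt16_ipr_add, ← Matrix.add_mulVec, sub_add_cancel]
  have hdΦ : ipr Φ ((dn Z O₁).mulVec Φ) = (∑ i, O₁ i i) / Fintype.card ι := by
    have h3 := lt17_dn_form (N := Z) O₁ (fun i z => s * v i z)
    rw [hΦ, h3]
    simp only [hform]
    rw [Finset.sum_div]
    refine Finset.sum_congr rfl fun l _ => ?_
    rw [Finset.sum_eq_single l]
    · simp [div_eq_mul_inv]
    · intro l' _ hl'
      simp [Ne.symm hl']
    · simp
  have hdt : ∀ i : ι, ipr (tens Ψ i) ((dn Z O₁).mulVec (tens Ψ i)) = O₁ i i := by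
    intro i
    have h3 := lt17_dn_form (N := Z) O₁ (fun (l : ι) z => if l = i then Ψ z else 0)
    rw [htf, h3]
    simp only [hti]
    rw [Finset.sum_eq_single i, Finset.sum_eq_single i]
    · simp
    · intro l' _ hl'
      simp [hl']
    · simp
    · intro l _ hl
      simp [hl]
    · simp
  refine ⟨hΦ1, ?_⟩
  have hnΦ : nm Φ = 1 := by rw [nm, hΦ1, Real.sqrt_one]
  have hnt : ∀ i : ι, nm (tens Ψ i : Z × ι → ℂ) = 1 := by
    intro i
    rw [nm, ht1, Real.sqrt_one]
  rw [hnΦ, mul_one, mul_one] at h1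
  have h2' : ∀ i, ‖ipr (tens Ψ i) ((O - dn Z O₁).mulVec (tens Ψ i))‖ ≤ η := by
    intro i
    have := h2 i
    rwa [hnt, mul_one, mul_one] at this
  have hmain : ipr Φ (O.mulVec Φ) - (∑ i, ipr (tens Ψ i) (O.mulVec (tens Ψ i))) / Fintype.card ι =
      ipr Φ ((O - dn Z O₁).mulVec Φ) -
        (∑ i, ipr (tens Ψ i) ((O - dn Z O₁).mulVec (tens Ψ i))) / Fintype.card ι := by
    rw [hsub Φ, hdΦ]
    have h3 : ∑ i, ipr (tens Ψ i) (O.mulVec (tens Ψ i)) =
        ∑ i, ipr (tens Ψ i) ((O - dn Z O₁).mulVec (tens Ψ i)) + ∑ i, O₁ i i := by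
      rw [← Finset.sum_add_distrib]
      refine Finset.sum_congr rfl fun i _ => ?_
      rw [hsub, hdt]
    rw [h3]
    ring
  rw [hmain]
  have h4 : ‖(∑ i, ipr (tens Ψ i) ((O - dn Z O₁).mulVec (tens Ψ i))) / (Fintype.card ι : ℂ)‖ ≤
      η := by
    rw [norm_div, Complex.norm_natCast, div_le_iff₀ hN]
    calc _ ≤ ∑ i : ι, ‖ipr (tens Ψ i) ((O - dn Z O₁).mulVec (tens Ψ i))‖ := norm_sum_le _ _
      _ ≤ ∑ _i : ι, η := Finset.sum_le_sum fun i _ => h2' i
      _ = η * Fintype.card ι := by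
        rw [Finset.sum_const, Finset.card_univ, nsmul_eq_mul, mul_comm]
  calc _ ≤ ‖ipr Φ ((O - dn Z O₁).mulVec Φ)‖ +
        ‖(∑ i, ipr (tens Ψ i) ((O - dn Z O₁).mulVec (tens Ψ i))) / (Fintype.card ι : ℂ)‖ :=
        norm_sub_le _ _
    _ ≤ η + η := add_le_add h1 h4
    _ = 2 * η := by ring

end Aux

section Torus

open Pool.Agent.PEPS953

variable {d L r : ℕ} [NeZero L]

/-- The decomposition of the torus into `X`, `Y \ X` and the rest. -/
noncomputable def lt17_e (d : ℕ) (X Y : Finset (Site L)) :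
    Conf d L ≃ CK d X × CK d (Y \ X) × CK d (X ∪ Y)ᶜ where
  toFun s := (fun u => s u, fun u => s u, fun u => s u)
  invFun t u := if hx : u ∈ X then t.1 ⟨u, hx⟩ else
    if hy : u ∈ Y then t.2.1 ⟨u, mem_sdiff.mpr ⟨hy, hx⟩⟩ else
      t.2.2 ⟨u, by simp [hx, hy]⟩
  left_inv s := by
    funext u
    by_cases hx : u ∈ X
    · simp [hx]
    · by_cases hy : u ∈ Y <;> simp [hx, hy]
  right_inv t := by
    refine Prod.ext ?_ (Prod.ext ?_ ?_)
    · funext u
      simp
    · funext u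
      have hu := mem_sdiff.mp u.2
      simp [hu.1, hu.2]
    · funext u
      have hu : (u : Site L) ∉ X ∪ Y := mem_compl.mp u.2
      rw [mem_union, not_or] at hu
      simp [hu.1, hu.2]

theorem lt17_actsA {R : Finset (Site L)} {c κ : Type} [DecidableEq c] [Fintype κ]
    [DecidableEq κ] (e : Conf d L ≃ CK d R × c) (h1 : ∀ s, (e s).1 = fun u : R => s u)
    (h2 : ∀ s s', (e s).2 = (e s').2 ↔ ∀ u, u ∉ R → s u = s' u)
    (P : Matrix (CK d R × κ) (CK d R × κ) ℂ) : ActsA R (up e P) := by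
  classical
  refine ⟨fun p q => P p q, fun p q => ?_⟩
  unfold up
  by_cases h : (e p.1).2 = (e q.1).2
  · rw [if_pos h, if_pos ((h2 _ _).1 h), h1, h1]
  · rw [if_neg h, if_neg (fun h' => h ((h2 _ _).2 h'))]

theorem lt17_e_acts (X Y : Finset (Site L)) {κ : Type} [Fintype κ] [DecidableEq κ]
    (P : Matrix (CK d X × κ) (CK d X × κ) ℂ) : ActsA X (up (lt17_e d X Y) P) := by
  apply lt17_actsA
  · intro s
    rfl
  · intro s s'
    constructor
    · intro h u hu
      have h' := Prod.ext_iff.1 h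
      by_cases hy : u ∈ Y
      · exact congrFun h'.1 ⟨u, mem_sdiff.mpr ⟨hy, hu⟩⟩
      · exact congrFun h'.2 ⟨u, by simp [hu, hy]⟩
    · intro h
      refine Prod.ext ?_ ?_
      · funext u
        exact h u (mem_sdiff.mp u.2).2
      · funext u
        have hu : (u : Site L) ∉ X ∪ Y := mem_compl.mp u.2
        rw [mem_union, not_or] at hu
        exact h u hu.1

/-- The decomposition in the other order. -/
noncomputable def lt17_e' (d : ℕ) (X Y : Finset (Site L)) :
    Conf d L ≃ CK d (Y \ X) × CK d X × CK d (X ∪ Y)ᶜ :=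
  (lt17_e d X Y).trans
    { toFun := fun t => (t.2.1, t.1, t.2.2)
      invFun := fun t => (t.2.1, t.1, t.2.2)
      left_inv := fun _ => rfl
      right_inv := fun _ => rfl }

theorem lt17_e'_acts (X Y : Finset (Site L)) {κ : Type} [Fintype κ] [DecidableEq κ]
    (P : Matrix (CK d (Y \ X) × κ) (CK d (Y \ X) × κ) ℂ) :
    ActsA (Y \ X) (up (lt17_e' d X Y) P) := by
  apply lt17_actsA
  · intro s
    rfl
  · intro s s'
    constructor
    · intro h u hu
      have h' := Prod.ext_iff.1 h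
      by_cases hx : u ∈ X
      · exact congrFun h'.1 ⟨u, hx⟩
      · have hy : u ∉ Y := fun hy => hu (mem_sdiff.mpr ⟨hy, hx⟩)
        exact congrFun h'.2 ⟨u, by simp [hx, hy]⟩
    · intro h
      refine Prod.ext ?_ ?_
      · funext u
        exact h u fun hu => (mem_sdiff.mp hu).2 u.2
      · funext u
        have hu : (u : Site L) ∉ X ∪ Y := mem_compl.mp u.2
        rw [mem_union, not_or] at hu
        exact h u fun hu' => hu.2 (mem_sdiff.mp hu').1

theorem lt17_site_card : Fintype.card (Site L) = L ^ 2 := by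
  rw [Fintype.card_prod, ZMod.card, sq]

theorem lt17_card (X : Finset (Site L)) : Fintype.card (CK d X) = d ^ X.card := by
  rw [Fintype.card_fun, Fintype.card_fin, Fintype.card_coe]

theorem lt17_clog (hd : 2 ≤ d) (X Y : Finset (Site L)) :
    Nat.clog 2 (Fintype.card (CK d X) + Fintype.card (CK d (Y \ X))) ≤ L ^ 2 * d + 1 := by
  apply Nat.clog_le_of_le_pow
  rw [lt17_card, lt17_card]
  have h1 : ∀ Z : Finset (Site L), d ^ Z.card ≤ 2 ^ (L ^ 2 * d) := by
    intro Z
    have h2 : Z.card ≤ L ^ 2 := by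
      rw [← lt17_site_card (L := L)]
      exact card_le_univ Z
    calc d ^ Z.card ≤ d ^ (L ^ 2) := Nat.pow_le_pow_right (by omega) h2
      _ ≤ (2 ^ d) ^ (L ^ 2) := Nat.pow_le_pow_left (Nat.lt_two_pow_self).le _
      _ = 2 ^ (L ^ 2 * d) := by rw [← pow_mul, mul_comm]
  have h3 := h1 X
  have h4 := h1 (Y \ X)
  rw [pow_succ]
  omega

/-- LT17 (the dimension); uses LT5, LT16. -/
theorem dim_lt (hd : 2 ≤ d) (hrL : r ≤ L) {h : Matrix (LConf d r) (LConf d r) ℂ}
    (hh : h.PosSemidef) {ℓ w : ℕ} {ε : ℝ} (hε : 0 ≤ ε) (H : TOA L h ℓ w ε) (S : Finset (Site L))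
    {n n' : ℕ} (A : Fin n → Finset (Site L)) (B : Fin n' → Finset (Site L))
    (C : Finset (Site L)) (hA : Layer w ℓ S A) (hB : Layer w ℓ S B)
    (hC : ∀ u, (∃ j, u ∈ A j) ∨ (∃ j, u ∈ B j) ∨ u ∈ C) (hn : n ≤ L ^ 4) (hn' : n' ≤ L ^ 4)
    (hδ : 4 * (2 * (L : ℝ) ^ 4 * ε) * (L ^ 2 * d + 3) < 1) :
    Module.finrank ℂ (LinearMap.ker (hamOn h Sᶜ : Hil d L →ₗ[ℂ] Hil d L)) < 2 * d ^ C.card := by
  classical
  by_contra hcon
  push Not at hcon
  set V : Submodule ℂ (Hil d L) := LinearMap.ker (hamOn h Sᶜ : Hil d L →ₗ[ℂ] Hil d L) with hV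
  set M : ℕ := 2 * d ^ C.card with hM
  have hMpos : 0 < M := by
    have : 0 < d ^ C.card := Nat.pow_pos (by omega)
    omega
  have : Nonempty (Fin M) := ⟨⟨0, hMpos⟩⟩
  let b := stdOrthonormalBasis ℂ V
  let v : Fin M → Conf d L → ℂ := fun i => ((b (Fin.castLE hcon i) : V) : Hil d L).ofLp
  have hv : ∀ i j, ipr (v i) (v j) = if i = j then 1 else 0 := by
    intro i j
    have h1 := orthonormal_iff_ite.1 b.orthonormal (Fin.castLE hcon i) (Fin.castLE hcon j)
    have h2 : ipr (v i) (v j) = ⟪b (Fin.castLE hcon i), b (Fin.castLE hcon j)⟫_ℂ := by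
      rw [Submodule.coe_inner, EuclideanSpace.inner_eq_star_dotProduct]
      unfold ipr dotProduct
      refine Finset.sum_congr rfl fun s _ => ?_
      rw [mul_comm]
      rfl
    rw [h2, h1]
    simp [Fin.castLE_inj]
  have hv0 : ∀ i, Zero h Sᶜ (v i) := by
    intro i u hu
    have h1 : hamOn h Sᶜ ((b (Fin.castLE hcon i) : V) : Hil d L) = 0 :=
      LinearMap.mem_ker.1 (b (Fin.castLE hcon i)).2
    have h2 := (pj_mem_ker hrL hh Sᶜ _).1 h1 u hu
    have h3 : (translate L h u).mulVec (v i) =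
        (locOp L h u ((b (Fin.castLE hcon i) : V) : Hil d L)).ofLp := rfl
    rw [h3, h2]
    rfl
  set Ψ : Conf d L → ℂ := v ⟨0, hMpos⟩ with hΨdef
  have hΨ : nsq Ψ = 1 := by
    have h1 := hv ⟨0, hMpos⟩ ⟨0, hMpos⟩
    rw [if_pos rfl, lt17_ipr_self] at h1
    exact_mod_cast h1
  set Φ : Conf d L × Fin M → ℂ :=
    fun p => ((Real.sqrt (Fintype.card (Fin M)))⁻¹ : ℂ) * v p.2 p.1 with hΦ
  have hΦ0 : ZeroA h Sᶜ Φ := by
    intro k u hu
    have h1 : (fun s => Φ (s, k)) = ((Real.sqrt (Fintype.card (Fin M)))⁻¹ : ℂ) • v k := by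
      funext s
      simp [hΦ]
    rw [h1, Matrix.mulVec_smul, hv0 k u hu, smul_zero]
  have ht0 : ∀ i : Fin M, ZeroA h Sᶜ (tens Ψ i : Conf d L × Fin M → ℂ) := by
    intro i k u hu
    by_cases hk : k = i
    · have h1 : (fun s => (tens Ψ i : Conf d L × Fin M → ℂ) (s, k)) = Ψ := by
        funext s
        simp [tens, hk]
      rw [h1]
      exact hv0 _ u hu
    · have h1 : (fun s => (tens Ψ i : Conf d L × Fin M → ℂ) (s, k)) = 0 := by
        funext s
        simp [tens, hk]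
      rw [h1, Matrix.mulVec_zero]
  -- the comparison for operators which act on a layer
  have hcomp : ∀ {n : ℕ} (A : Fin n → Finset (Site L)), Layer w ℓ S A → n ≤ L ^ 4 →
      ∀ O : Matrix (Conf d L × Fin M) (Conf d L × Fin M) ℂ, Contr O →
        ActsA (univ.biUnion A) O → nsq Φ = 1 ∧ ‖ipr Φ (O.mulVec Φ) -
          (∑ i, ipr (tens Ψ i) (O.mulVec (tens Ψ i))) / Fintype.card (Fin M)‖ ≤
            2 * (L : ℝ) ^ 4 * ε := by
    intro n A hA hn O hO hact
    obtain ⟨O₁, hO₁⟩ := iterate hε H S A hA O hO hact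
    have h1 := lt17_compare v hv Ψ hΨ O O₁ (n * ε) Φ hΦ (hO₁ Φ Φ hΦ0 hΦ0)
      (fun i => hO₁ _ _ (ht0 i) (ht0 i))
    refine ⟨h1.1, h1.2.trans ?_⟩
    have h2 : (n : ℝ) ≤ (L : ℝ) ^ 4 := by exact_mod_cast hn
    have h3 := mul_le_mul_of_nonneg_right h2 hε
    linarith
  set X : Finset (Site L) := univ.biUnion A with hX
  set Y : Finset (Site L) := univ.biUnion B with hY
  have hΦ1 : nsq Φ = 1 := by
    refine (hcomp A hA hn 0 ?_ ?_).1
    · intro y
      rw [Matrix.zero_mulVec]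
      have : nsq (0 : Conf d L × Fin M → ℂ) = 0 := by simp [nsq]
      rw [this]
      exact lt2_nsq_nonneg y
    · refine ⟨fun _ _ => 0, fun p q => ?_⟩
      simp
  have hb := bpt (lt17_e d X Y) (lt17_e' d X Y) (fun _ => rfl) Ψ Φ hΨ hΦ1
    (2 * (L : ℝ) ^ 4 * ε)
    (fun P hP => (hcomp A hA hn _ (lt17_contr_up _ (lt17_contr_pr hP)) (lt17_e_acts X Y P)).2)
    (fun P hP => (hcomp B hB hn' _ (lt17_contr_up _ (lt17_contr_pr hP))
      (lt16_actsA_mono sdiff_subset (lt17_e'_acts X Y P))).2)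
    (by
      have h1 : ((Nat.clog 2 (Fintype.card (CK d X) + Fintype.card (CK d (Y \ X))) : ℕ) : ℝ) ≤
          (L : ℝ) ^ 2 * d + 1 := by
        exact_mod_cast lt17_clog hd X Y
      have h2 : 0 ≤ 4 * (2 * (L : ℝ) ^ 4 * ε) := by positivity
      refine lt_of_le_of_lt ?_ hδ
      apply mul_le_mul_of_nonneg_left _ h2
      linarith)
  rw [lt17_card, Fintype.card_fin] at hb
  have hsub : (X ∪ Y)ᶜ ⊆ C := by
    intro u hu
    rw [mem_compl, mem_union, not_or] at hu
    rcases hC u with ⟨j, hj⟩ | ⟨j, hj⟩ | hj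
    · exact absurd (mem_biUnion.mpr ⟨j, mem_univ _, hj⟩) hu.1
    · exact absurd (mem_biUnion.mpr ⟨j, mem_univ _, hj⟩) hu.2
    · exact hj
  have h1 : d ^ ((X ∪ Y)ᶜ).card ≤ d ^ C.card := Nat.pow_le_pow_right (by omega) (card_le_card hsub)
  omega

end Torus

end Pool.Agent.FFG.LT
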