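import Pool.Agent.FFG.LT.Defs

/-!
# Topological order in plain terms
-/

open Finset
open scoped InnerProductSpace ComplexOrder

set_option autoImplicit false
set_option linter.unusedSectionVars false

namespace Pool.Agent.FFG.Plain

open Pool.Agent.PEPS953.Plain

variable {d r : ℕ}

/-- The rectangle with corner `(x, y)` and sides `a` and `b`. -/
def rect {L : ℕ} [NeZero L] (x y : ZMod L) (a b : ℕ) : Finset (Site L) :=
  univ.filter fun u => (u.1 - x).val < a ∧ (u.2 - y).val < b

/-- The sites at distance at most `ρ` from `M`. -/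
def around {L : ℕ} [NeZero L] (ρ : ℕ) (M : Finset (Site L)) : Finset (Site L) :=
  univ.filter fun u => ∃ v ∈ M, (v.1 - u.1).valMinAbs.natAbs ≤ ρ ∧ (v.2 - u.2).valMinAbs.natAbs ≤ ρ

/-- The Hamiltonian of the region `K`: the sum of the terms whose boxes are contained in `K`. -/
noncomputable def hamIn (L : ℕ) [NeZero L] (h : Matrix (LConf d r) (LConf d r) ℂ)
    (K : Finset (Site L)) : Matrix (Conf d L) (Conf d L) ℂ :=
  ∑ v ∈ univ.filter (fun v : Site L => ∀ p, boxPos L r v p ∈ K), translate L h v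

/-- The nonzero eigenvalues of the Hamiltonians of the rectangles with sides at most `L / 2` are at
least `γ`. -/
def RectGap (L : ℕ) [NeZero L] (h : Matrix (LConf d r) (LConf d r) ℂ) (γ : ℝ) : Prop :=
  ∀ (x y : ZMod L) (a b : ℕ), 2 * a ≤ L → 2 * b ≤ L → ∀ (E : ℝ) (φ : Vec d L), φ ≠ 0 →
    (hamIn L h (rect x y a b)).mulVec φ = (E : ℂ) • φ → E = 0 ∨ γ ≤ E

/-- Topological order at distance `ρ`. Let `M` be a rectangle with sides at most `L / 4`, and let
`K` be its neighbourhood of radius `ρ`. Every operator `O` of norm at most `1` which acts on `M` and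
on the complement of `K` agrees, on the zero-energy vectors of the Hamiltonian of `K` and up to
`1 / 16`, with an operator `O₁` which acts on the complement of `K` only. -/
def TopOrd (L : ℕ) [NeZero L] (h : Matrix (LConf d r) (LConf d r) ℂ) (ρ : ℕ) : Prop :=
  ∀ (x y : ZMod L) (a b : ℕ), 4 * a ≤ L → 4 * b ≤ L → ∀ M K : Finset (Site L),
    M = rect x y a b → K = around ρ M → ∀ O : Matrix (Conf d L) (Conf d L) ℂ,
    (∀ ξ, nrm (O.mulVec ξ) ≤ nrm ξ) → ActsOn (M ∪ Kᶜ) O →
      ∃ O₁ : Matrix (Conf d L) (Conf d L) ℂ, ActsOn Kᶜ O₁ ∧ ∀ φ χ : Vec d L,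
        (hamIn L h K).mulVec φ = 0 → (hamIn L h K).mulVec χ = 0 →
          ‖ip φ ((O - O₁).mulVec χ)‖ ≤ 1 / 16 * nrm φ * nrm χ

/-! ### Transfer -/

variable {L : ℕ} [NeZero L]

lemma rect_eq (x y : ZMod L) (a b : ℕ) : rect x y a b = LT.bx x y a b := rfl

lemma around_eq (ρ : ℕ) (M : Finset (Site L)) : around ρ M = LT.ball ρ M := by
  unfold around LT.ball
  refine Finset.filter_congr fun u _ => exists_congr fun v => and_congr Iff.rfl ?_
  exact near_iff ρ v u

lemma hamIn_eq (h : Matrix (LConf d r) (LConf d r) ℂ) (K : Finset (Site L)) :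
    hamIn L h K = hamOn L h (LT.inn L r K) := rfl

lemma rectGap_iff (h : Matrix (LConf d r) (LConf d r) ℂ) (γ : ℝ) : RectGap L h γ ↔
    ∀ (x y : ZMod L) (a b : ℕ), 2 * a ≤ L → 2 * b ≤ L →
      FFG.GapAt h (LT.inn L r (LT.bx x y a b)) γ := by
  refine forall_congr' fun x => forall_congr' fun y => forall_congr' fun a => forall_congr' fun b =>
    forall_congr' fun _ => forall_congr' fun _ => ?_
  exact gapAt_iff h _ γ

lemma topOrd_iff {h : Matrix (LConf d r) (LConf d r) ℂ} {ρ : ℕ} (H : TopOrd L h ρ) :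
    LT.TopOrd L h ρ (1 / 16) := by
  intro x y a b ha hb O hO hact
  obtain ⟨O₁, h1, h2⟩ := H x y a b ha hb _ _ rfl rfl O (fun ξ => Real.sqrt_le_sqrt (hO ξ)) (by
    rw [around_eq]
    exact hact)
  rw [around_eq] at h1
  refine ⟨O₁, h1, fun φ χ hφ hχ => ?_⟩
  have key : ∀ ξ : Vec d L, LT.Zero h (LT.inn L r (LT.ball ρ (LT.bx x y a b))) ξ →
      (hamIn L h (around ρ (rect x y a b))).mulVec ξ = 0 := by
    intro ξ hξ
    rw [around_eq, hamIn_eq]
    unfold hamOn
    rw [Matrix.sum_mulVec]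
    exact Finset.sum_eq_zero hξ
  exact h2 φ χ (key φ hφ) (key χ hχ)

end Pool.Agent.FFG.Plain
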