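import Pool.Agent.FFG.LT.Exceptional

/-!
# LT15: the quadtree
-/

open Finset

set_option autoImplicit false
set_option linter.unusedSectionVars false
set_option linter.unusedVariables false

namespace Pool.Agent.FFG.LT

open Pool.Agent.PEPS953

variable {L : ℕ} [NeZero L]

private theorem lt15_lev (S : Finset (Site L)) (g : ℕ) {K : ℕ} (hK : 3 ≤ K) (u : Site L) :
    3 ≤ lev S g K u ∧ lev S g K u ≤ K := by
  classical
  unfold lev
  split_ifs with h
  · have := Nat.find_spec h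
    exact ⟨this.1, this.2.1⟩
  · exact ⟨hK, le_refl K⟩

private theorem lt15_mem_ball (w : ℕ) (u v : Site L) : v ∈ ball w {u} ↔ sdist u v ≤ w := by
  simp [ball]

private theorem lt15_mem_nbl (S : Finset (Site L)) (g K w : ℕ) (u : Site L) (Q : ℕ × ℕ × ℕ) :
    Q ∈ nbl S g K w u ↔ ∃ v, sdist u v ≤ w ∧ leaf S g K v = Q := by
  simp only [nbl, mem_image, lt15_mem_ball]

private theorem lt15_mem_bx (x y : ZMod L) (a b : ℕ) (u : Site L) :
    u ∈ bx x y a b ↔ (u.1 - x).val < a ∧ (u.2 - y).val < b := by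
  simp [bx]

/-- A dyadic square is a rectangle. -/
private theorem lt15_square {k : ℕ} (hk : 2 ^ k ≤ L) (u : Site L) :
    ∃ (x y : ZMod L) (a b : ℕ), a ≤ L / 2 ^ k + 1 ∧ b ≤ L / 2 ^ k + 1 ∧ L / 2 ^ k ≤ a ∧
      L / 2 ^ k ≤ b ∧ ∀ v : Site L, dsq k v = dsq k u ↔ (v.1 - x).val < a ∧ (v.2 - y).val < b := by
  obtain ⟨x, a, ha, ha', hx⟩ := dx_arc hk (dx L k u.1)
  obtain ⟨y, b, hb, hb', hy⟩ := dx_arc hk (dx L k u.2)
  refine ⟨x, y, a, b, ha, hb, ha' (dx_lt k _), hb' (dx_lt k _), fun v => ?_⟩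
  simp only [dsq, Prod.mk.injEq]
  rw [hx, hy]

/-- From boxes about the pieces to a layer. -/
private theorem lt15_layer (w ℓ : ℕ) (S : Finset (Site L)) (g K : ℕ) (E : Finset (Site L))
    (h : ∀ u ∈ E, ∃ (x y : ZMod L) (a b : ℕ), a ≤ ℓ ∧ b ≤ ℓ ∧
      (∀ u' ∈ E, nbl S g K w u' = nbl S g K w u → u' ∈ bx x y a b) ∧
      (∀ s ∈ S, ∀ v ∈ bx x y a b, w < sdist v s) ∧
      ∀ u' ∈ E, nbl S g K w u' ≠ nbl S g K w u → ∀ v ∈ bx x y a b, w < sdist v u') :
    ∃ (n : ℕ) (A : Fin n → Finset (Site L)), n ≤ L ^ 4 ∧ Layer w ℓ S A ∧ ∀ u ∈ E, ∃ j, u ∈ A j := by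
  classical
  set I := E.image (nbl S g K w) with hI
  refine ⟨I.card, fun j => E.filter fun u => nbl S g K w u = (I.equivFin.symm j).1, ?_, ?_, ?_⟩
  · have h1 : I.card ≤ E.card := card_image_le
    have h2 : E.card ≤ Fintype.card (Site L) := card_le_univ E
    have h3 : Fintype.card (Site L) = L * L := by
      rw [Fintype.card_prod, ZMod.card]
    have hL : 0 < L := Nat.pos_of_ne_zero (NeZero.ne L)
    have h4 : L * L ≤ L ^ 4 := by
      calc L * L = L ^ 2 := by ring
        _ ≤ L ^ 4 := Nat.pow_le_pow_right hL (by norm_num)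
    omega
  · intro j
    obtain ⟨u₀, hu₀, hT⟩ : ∃ u₀ ∈ E, nbl S g K w u₀ = (I.equivFin.symm j).1 :=
      mem_image.mp (I.equivFin.symm j).2
    obtain ⟨x, y, a, b, ha, hb, h1, h2, h3⟩ := h u₀ hu₀
    refine ⟨x, y, a, b, ha, hb, ?_, h2, ?_⟩
    · intro u hu
      rw [mem_filter] at hu
      exact h1 u hu.1 (hu.2.trans hT.symm)
    · intro i hij u hu v hv
      rw [mem_filter] at hu
      refine h3 u hu.1 ?_ v hv
      rw [hu.2, hT]
      intro h
      exact hij (I.equivFin.symm.injective (Subtype.ext h))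
  · intro u hu
    refine ⟨I.equivFin ⟨nbl S g K w u, mem_image_of_mem _ hu⟩, ?_⟩
    simp [hu]

/-- LT15 (the quadtree); uses LT11, LT12, LT14. -/
theorem quadtree (w : ℕ) (hw : 0 < w) (hL : 200 * w ≤ L) (S : Finset (Site L)) :
    ∃ (n n' : ℕ) (A : Fin n → Finset (Site L)) (B : Fin n' → Finset (Site L))
      (C : Finset (Site L)), n ≤ L ^ 4 ∧ n' ≤ L ^ 4 ∧ Layer w (L / 6) S A ∧ Layer w (L / 6) S B ∧
      (∀ u, (∃ j, u ∈ A j) ∨ (∃ j, u ∈ B j) ∨ u ∈ C) ∧
      C.card ≤ 10 ^ 6 * w ^ 2 * (Nat.log 2 L + 1) * (1 + S.card) := by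
  classical
  set K := Nat.log 2 (L / (16 * w)) with hKdef
  have h16 : 0 < 16 * w := by omega
  have hM : 12 ≤ L / (16 * w) := by
    rw [Nat.le_div_iff_mul_le h16]
    omega
  have hK : 3 ≤ K := by
    rw [hKdef]
    exact Nat.le_log_of_pow_le (by norm_num) (by omega)
  have hK2 : 2 ^ K ≤ L / (16 * w) := Nat.pow_log_le_self 2 (by omega)
  have hKL : 16 * w * 2 ^ K ≤ L := by
    rw [Nat.le_div_iff_mul_le h16] at hK2
    linarith [mul_comm (2 ^ K) (16 * w)]
  have hLK : L ≤ 32 * w * 2 ^ K := by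
    have h1 : L / (16 * w) < 2 ^ (K + 1) := Nat.lt_pow_succ_log_self (by norm_num) _
    rw [Nat.div_lt_iff_lt_mul h16] at h1
    have h2 : 2 ^ (K + 1) * (16 * w) = 32 * w * 2 ^ K := by ring
    omega
  have hpK : 0 < 2 ^ K := by positivity
  have hdiv : 16 * w ≤ L / 2 ^ K := by
    rw [Nat.le_div_iff_mul_le hpK]
    exact hKL
  have hKL' : 2 ^ K ≤ L := by
    calc 2 ^ K = 1 * 2 ^ K := by ring
      _ ≤ 16 * w * 2 ^ K := Nat.mul_le_mul_right _ (by omega)
      _ ≤ L := hKL
  set g := 2 * w with hg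
  have hg' : 2 * g + 1 ≤ L / 2 ^ K := by omega
  have hlogK : K ≤ Nat.log 2 L := Nat.log_mono_right (Nat.div_le_self _ _)
  obtain ⟨C, hC, hcard⟩ : ∃ C : Finset (Site L), (∀ u, u ∈ C ↔ (3 ≤ (nbl S g K (2 * w) u).card ∨
      ∃ v ∈ ball (2 * w) {u}, ¬ free S g (lev S g K v) v)) ∧
      C.card ≤ 10 ^ 6 * w ^ 2 * (K + 1) * (1 + S.card) :=
    ⟨_, fun u => by simp only [mem_filter, mem_univ, true_and],
      exceptional_card S hw hK hKL hLK hg'⟩
  have hCnot : ∀ u, u ∉ C → (nbl S g K (2 * w) u).card ≤ 2 ∧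
      ∀ v, sdist u v ≤ 2 * w → free S g (lev S g K v) v := by
    intro u hu
    rw [hC] at hu
    push Not at hu
    obtain ⟨h1, h2⟩ := hu
    exact ⟨by omega, fun v hv => h2 v ((lt15_mem_ball _ _ _).mpr hv)⟩
  -- the levels and the squares
  have hlev := fun u : Site L => lt15_lev S g hK u
  have hpow : ∀ u : Site L, 2 ^ lev S g K u ≤ L := fun u =>
    (Nat.pow_le_pow_right (by norm_num) (hlev u).2).trans hKL'
  have hsize : ∀ u : Site L, L / 2 ^ lev S g K u ≤ L / 8 ∧ 16 * w ≤ L / 2 ^ lev S g K u := by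
    intro u
    refine ⟨Nat.div_le_div_left ?_ (by norm_num), hdiv.trans (Nat.div_le_div_left ?_ (by positivity))⟩
    · calc 8 = 2 ^ 3 := by norm_num
        _ ≤ 2 ^ lev S g K u := Nat.pow_le_pow_right (by norm_num) (hlev u).1
    · exact Nat.pow_le_pow_right (by norm_num) (hlev u).2
  have hfree : ∀ u v v' s : Site L, u ∉ C → sdist u v ≤ 2 * w → leaf S g K v' = leaf S g K v →
      s ∈ S → g < sdist v' s := by
    intro u v v' s hu huv hvv hs
    have h1 := (hCnot u hu).2 v huv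
    exact h1 v' ((leaf_eq_iff S g K v v').mp hvv) s hs
  have hself : ∀ (ρ : ℕ) (u : Site L), leaf S g K u ∈ nbl S g K ρ u := fun ρ u =>
    (lt15_mem_nbl S g K ρ u _).mpr ⟨u, by rw [sdist_self']; omega, rfl⟩
  have hsub : ∀ u : Site L, nbl S g K w u ⊆ nbl S g K (2 * w) u := by
    intro u Q hQ
    rw [lt15_mem_nbl] at hQ ⊢
    obtain ⟨v, hv, hQ⟩ := hQ
    exact ⟨v, by omega, hQ⟩
  -- the first layer
  obtain ⟨n, A, hn, hA, hAE⟩ := lt15_layer w (L / 6) S g K
    (univ.filter fun u => u ∉ C ∧ (nbl S g K w u).card = 1) (by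
      intro u hu
      rw [mem_filter] at hu
      obtain ⟨-, hu, hu1⟩ := hu
      obtain ⟨x, y, a, b, ha, hb, ha', hb', hsq⟩ := lt15_square (hpow u) u
      have hs := hsize u
      have hbox : ∀ v, v ∈ bx x y a b ↔ leaf S g K v = leaf S g K u := by
        intro v
        rw [lt15_mem_bx, ← hsq, leaf_eq_iff]
      have hT : ∀ u' : Site L, (nbl S g K w u').card = 1 → nbl S g K w u' = {leaf S g K u'} := by
        intro u' h1
        rw [card_eq_one] at h1
        obtain ⟨Q, hQ⟩ := h1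
        have := hself w u'
        rw [hQ, mem_singleton] at this
        rw [hQ, this]
      refine ⟨x, y, a, b, by omega, by omega, ?_, ?_, ?_⟩
      · intro u' hu' hn
        rw [mem_filter] at hu'
        rw [hbox]
        rw [hT u hu1, hT u' hu'.2.2] at hn
        exact singleton_injective hn
      · intro s hs v hv
        rw [hbox] at hv
        have := hfree u u v s hu (by rw [sdist_self']; omega) hv hs
        omega
      · intro u' hu' hn v hv
        rw [mem_filter] at hu'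
        rw [hbox] at hv
        by_contra hlt
        push Not at hlt
        apply hn
        have h1 : leaf S g K v ∈ nbl S g K w u' :=
          (lt15_mem_nbl _ _ _ _ _ _).mpr ⟨v, by rw [sdist_comm]; exact hlt, rfl⟩
        rw [hT u' hu'.2.2, mem_singleton] at h1
        rw [hT u hu1, hT u' hu'.2.2, ← h1, hv])
  -- the second layer
  obtain ⟨n', B, hn', hB, hBE⟩ := lt15_layer w (L / 6) S g K
    (univ.filter fun u => u ∉ C ∧ (nbl S g K w u).card = 2) (by
      intro u hu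
      rw [mem_filter] at hu
      obtain ⟨-, hu, hu1⟩ := hu
      have hu2 := hu1
      rw [card_eq_two] at hu2
      obtain ⟨Q, Q', hQQ, hT⟩ := hu2
      have hQ : Q ∈ nbl S g K w u := by rw [hT]; simp
      have hQ' : Q' ∈ nbl S g K w u := by rw [hT]; simp
      rw [lt15_mem_nbl] at hQ hQ'
      obtain ⟨q, hq, hqQ⟩ := hQ
      obtain ⟨q', hq', hqQ'⟩ := hQ'
      obtain ⟨x, y, a, b, ha, hb, ha', hb', hsq⟩ := lt15_square (hpow q) q
      obtain ⟨x', y', a', b', ha₂, hb₂, ha₂', hb₂', hsq'⟩ := lt15_square (hpow q') q'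
      have hs := hsize q
      have hs' := hsize q'
      have hnb : ∀ v : Site L, ((v.1 - (x - (w : ZMod L))).val < a + 2 * w ∧
          (v.2 - (y - (w : ZMod L))).val < b + 2 * w) ↔
          ∃ z, sdist z v ≤ w ∧ leaf S g K z = Q := by
        intro v
        rw [← arc_nbhd x (by omega) (by omega) v.1, ← arc_nbhd y (by omega) (by omega) v.2]
        constructor
        · rintro ⟨⟨z₁, h1, h2⟩, ⟨z₂, h3, h4⟩⟩
          refine ⟨(z₁, z₂), by simp only [sdist]; omega, ?_⟩
          rw [← hqQ, leaf_eq_iff, hsq]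
          exact ⟨h1, h3⟩
        · rintro ⟨z, h1, h2⟩
          rw [← hqQ, leaf_eq_iff, hsq] at h2
          simp only [sdist] at h1
          exact ⟨⟨z.1, h2.1, by omega⟩, ⟨z.2, h2.2, by omega⟩⟩
      have hnb' : ∀ v : Site L, ((v.1 - (x' - (w : ZMod L))).val < a' + 2 * w ∧
          (v.2 - (y' - (w : ZMod L))).val < b' + 2 * w) ↔
          ∃ z, sdist z v ≤ w ∧ leaf S g K z = Q' := by
        intro v
        rw [← arc_nbhd x' (by omega) (by omega) v.1, ← arc_nbhd y' (by omega) (by omega) v.2]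
        constructor
        · rintro ⟨⟨z₁, h1, h2⟩, ⟨z₂, h3, h4⟩⟩
          refine ⟨(z₁, z₂), by simp only [sdist]; omega, ?_⟩
          rw [← hqQ', leaf_eq_iff, hsq']
          exact ⟨h1, h3⟩
        · rintro ⟨z, h1, h2⟩
          rw [← hqQ', leaf_eq_iff, hsq'] at h2
          simp only [sdist] at h1
          exact ⟨⟨z.1, h2.1, by omega⟩, ⟨z.2, h2.2, by omega⟩⟩
      obtain ⟨X, α, hα, hX⟩ := arc_inter (x - (w : ZMod L)) (x' - (w : ZMod L)) (a + 2 * w)
        (a' + 2 * w) (by omega)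
      obtain ⟨Y, β, hβ, hY⟩ := arc_inter (y - (w : ZMod L)) (y' - (w : ZMod L)) (b + 2 * w)
        (b' + 2 * w) (by omega)
      have hbox : ∀ v, v ∈ bx X Y α β ↔ (∃ z, sdist z v ≤ w ∧ leaf S g K z = Q) ∧
          ∃ z, sdist z v ≤ w ∧ leaf S g K z = Q' := by
        intro v
        rw [lt15_mem_bx, ← hX, ← hY, ← hnb, ← hnb']
        tauto
      refine ⟨X, Y, α, β, by omega, by omega, ?_, ?_, ?_⟩
      · intro u' hu' hn
        rw [hbox]
        have h1 : Q ∈ nbl S g K w u' := by rw [hn, hT]; simp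
        have h2 : Q' ∈ nbl S g K w u' := by rw [hn, hT]; simp
        rw [lt15_mem_nbl] at h1 h2
        obtain ⟨z, h1, h3⟩ := h1
        obtain ⟨z', h2, h4⟩ := h2
        exact ⟨⟨z, by rw [sdist_comm]; exact h1, h3⟩, ⟨z', by rw [sdist_comm]; exact h2, h4⟩⟩
      · intro s hs v hv
        rw [hbox] at hv
        obtain ⟨⟨z, h1, h2⟩, -⟩ := hv
        have h3 := hfree u q z s hu (by omega) (h2.trans hqQ.symm) hs
        have h4 := sdist_triangle z v s
        omega
      · intro u' hu' hn v hv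
        rw [mem_filter] at hu'
        rw [hbox] at hv
        by_contra hlt
        push Not at hlt
        apply hn
        obtain ⟨⟨z, h1, h2⟩, ⟨z', h3, h4⟩⟩ := hv
        have h5 := sdist_triangle z v u'
        have h6 := sdist_triangle z' v u'
        have h7 : ({Q, Q'} : Finset (ℕ × ℕ × ℕ)) ⊆ nbl S g K (2 * w) u' := by
          intro R hR
          rw [mem_insert, mem_singleton] at hR
          rw [lt15_mem_nbl]
          rcases hR with rfl | rfl
          · exact ⟨z, by rw [sdist_comm]; omega, h2⟩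
          · exact ⟨z', by rw [sdist_comm]; omega, h4⟩
        have h8 := (hCnot u' hu'.2.1).1
        have h9 : ({Q, Q'} : Finset (ℕ × ℕ × ℕ)) = nbl S g K (2 * w) u' := by
          apply eq_of_subset_of_card_le h7
          rw [card_pair hQQ]
          exact h8
        rw [hT, h9]
        apply eq_of_subset_of_card_le (hsub u')
        rw [← h9, card_pair hQQ, hu'.2.2])
  refine ⟨n, n', A, B, C, hn, hn', hA, hB, ?_, ?_⟩
  · intro u
    by_cases huC : u ∈ C
    · exact Or.inr (Or.inr huC)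
    · have h1 : (nbl S g K w u).card ≤ 2 := (card_le_card (hsub u)).trans (hCnot u huC).1
      have h2 : 0 < (nbl S g K w u).card := card_pos.mpr ⟨_, hself w u⟩
      rcases (by omega : (nbl S g K w u).card = 1 ∨ (nbl S g K w u).card = 2) with h3 | h3
      · exact Or.inl (hAE u (mem_filter.mpr ⟨mem_univ u, huC, h3⟩))
      · exact Or.inr (Or.inl (hBE u (mem_filter.mpr ⟨mem_univ u, huC, h3⟩)))
  · refine hcard.trans ?_
    exact Nat.mul_le_mul_right _ (Nat.mul_le_mul_left _ (by omega))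

end Pool.Agent.FFG.LT
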