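import Pool.Agent.FFG.LT.Defs
import Pool.Agent.FFG.Glue
import Pool.Agent.FFG.Pos
import Pool.Agent.FFG.Proj

/-!
# Gluing of the ground state projections near a rectangle
-/

set_option autoImplicit false
set_option linter.unusedSectionVars false
set_option linter.unusedVariables false

open Finset
open scoped InnerProductSpace ComplexOrder

namespace Pool.Agent.FFG.LT

open Pool.Agent.PEPS953 Pool.Agent.PepsX Pool.Agent.FFG

section Abstract

variable {E : Type} [NormedAddCommGroup E] [InnerProductSpace ℂ E] [CompleteSpace E]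

/-- Gluing of ground state projections, one-sided form. -/
theorem lt6_glue {ι : Type} [Fintype ι] [DecidableEq ι] {Q : ι → E →L[ℂ] E} {nc : ι → ι → Prop}
    {g : ℕ} (hg : 0 < g) (hS : Sys Q nc g) {G : Finset ι → E →L[ℂ] E}
    (hG : ∀ A, IsKer Q A (G A)) {γ : ℝ} (hγ : 0 ≤ γ)
    {K : ℕ} (col : ι → Fin K) (hcol : ∀ v w, col v = col w → v ≠ w → ¬ nc v w)
    (A B : Finset ι) (hgap : ∀ x, γ * ‖x - G (A ∪ B) x‖ ^ 2 ≤ ∑ v ∈ A ∪ B, ‖Q v x‖ ^ 2)
    (q : ℕ) (f : ι → ℕ) (hf : ∀ v w, nc v w → f w ≤ f v + 1)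
    (hfA : ∀ v ∈ A \ B, f v = 0) (hfB : ∀ v ∈ B \ A, q * K < f v) :
    ‖G A * G B - G (A ∪ B)‖ ^ 2 ≤ ((1 + γ / (g : ℝ) ^ 2)⁻¹) ^ q := by
  classical
  set c : ι → ℕ := fun v => (col v : ℕ) with hc
  set l := allL (A ∪ B) c K K with hl
  have hlA : ∀ v, v ∈ l ↔ v ∈ A ∪ B := by
    intro v
    rw [hl, mem_allL le_rfl]
    exact ⟨fun h => h.1, fun h => ⟨h, (col v).2⟩⟩
  have hpow := detect hg hS (hG (A ∪ B)) hγ hgap l (nodup_allL le_rfl) hlA q
  change ‖prodL Q l ^ q - G (A ∪ B)‖ ^ 2 ≤ _ at hpow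
  rw [hl, prodL_allL, ← wall_pow] at hpow
  have hcol' : ∀ v ∈ A ∪ B, ∀ w ∈ A ∪ B, v ≠ w → c v = c w → ¬ nc v w := fun v _ w _ hvw h =>
    hcol v w (Fin.ext h) hvw
  have hf' : ∀ v ∈ A ∪ B, ∀ w ∈ A ∪ B, nc v w → f v ≤ f w + 1 := fun v _ w _ h =>
    hf w v (hS.symm v w h)
  have h1 : G A * wall Q (A ∪ B) c K (q * K) * G B = G A * G B := by
    rw [mul_assoc, wall_eq_cone hS.proj nc hS.comm hcol' hf' hfA (hG B), ← mul_assoc,
      isKer_cone hS.proj (fun v hv => (hfB v hv).le) (hG A) _ le_rfl]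
  have h2 : G A * G B - G (A ∪ B) =
      G A * (wall Q (A ∪ B) c K (q * K) - G (A ∪ B)) * G B := by
    rw [mul_sub, sub_mul, h1, (hG A).mul_of_subset (hG (A ∪ B)) subset_union_left,
      (hG B).mul_of_subset' (hG (A ∪ B)) subset_union_right]
  have hA1 := Pool.Agent.FFG.IsStarProjection.opNorm_le_one (hG A).proj
  have hB1 := Pool.Agent.FFG.IsStarProjection.opNorm_le_one (hG B).proj
  set W := wall Q (A ∪ B) c K (q * K) - G (A ∪ B) with hW
  have h3 : ‖G A * G B - G (A ∪ B)‖ ≤ ‖W‖ := by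
    rw [h2]
    calc ‖G A * W * G B‖ ≤ ‖G A * W‖ * ‖G B‖ := norm_mul_le _ _
      _ ≤ (‖G A‖ * ‖W‖) * ‖G B‖ := mul_le_mul_of_nonneg_right (norm_mul_le _ _) (norm_nonneg _)
      _ ≤ (1 * ‖W‖) * 1 := by
          refine mul_le_mul (mul_le_mul_of_nonneg_right hA1 (norm_nonneg _)) hB1 (norm_nonneg _) ?_
          positivity
      _ = ‖W‖ := by ring
  exact (pow_le_pow_left₀ (norm_nonneg _) h3 2).trans hpow

end Abstract

section Torus

variable {d L r : ℕ} [NeZero L]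

lemma lt6_cdist_add (x : ZMod L) (p : Fin r) : cdist x (x + ((p : ℕ) : ZMod L)) < r := by
  have h1 : x - (x + ((p : ℕ) : ZMod L)) = ((-((p : ℕ) : ℤ) : ℤ) : ZMod L) := by
    push_cast
    ring
  have h2 := cdist_le_int _ _ _ h1
  have hp := p.2
  omega

lemma lt6_sdist_box (u : Site L) (p : Box r) : sdist u (boxPos L r u p) < r := by
  unfold sdist boxPos
  exact max_lt (lt6_cdist_add _ _) (lt6_cdist_add _ _)

lemma lt6_sdist_box2 (u : Site L) (p q : Box r) :
    sdist (boxPos L r u p) (boxPos L r u q) < r := by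
  have h : ∀ (x : ZMod L) (a b : Fin r),
      cdist (x + ((a : ℕ) : ZMod L)) (x + ((b : ℕ) : ZMod L)) < r := by
    intro x a b
    have h1 : x + ((a : ℕ) : ZMod L) - (x + ((b : ℕ) : ZMod L)) =
        ((((a : ℕ) : ℤ) - ((b : ℕ) : ℤ) : ℤ) : ZMod L) := by
      push_cast
      ring
    have h2 := cdist_le_int _ _ _ h1
    have ha := a.2
    have hb := b.2
    omega
  unfold sdist boxPos
  exact max_lt (h _ _ _) (h _ _ _)

/-- LT6 (gluing of the ground state projections near a rectangle). -/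
theorem glue_near (hr : 0 < r) (hrL : r ≤ L) {h : Matrix (LConf d r) (LConf d r) ℂ}
    (hh : h.PosSemidef) {γ : ℝ} (hγ : 0 < γ) (q ρ₁ : ℕ)
    (hρ : (q * (4 * r ^ 2) + 4) * r ≤ ρ₁) (M₀ M : Finset (Site L)) (hM : ball ρ₁ M₀ ⊆ M)
    (T : Finset (Site L)) (HT : GapAt h T γ) :
    (T.filter fun v => ∀ p, boxPos L r v p ∉ M₀) ∪ T.filter (fun v => ∀ p, boxPos L r v p ∈ M) = T ∧
    ‖GA (L := L) h (T.filter fun v => ∀ p, boxPos L r v p ∉ M₀) *
        GA h (T.filter fun v => ∀ p, boxPos L r v p ∈ M) - GA h T‖ ^ 2 ≤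
      ((1 + γ / (entNorm h + 1) / ((4 * r ^ 2 : ℕ) : ℝ) ^ 2)⁻¹) ^ q := by
  classical
  set A := T.filter fun v => ∀ p, boxPos L r v p ∉ M₀ with hA
  set B := T.filter fun v => ∀ p, boxPos L r v p ∈ M with hB
  have hexp : (q * (4 * r ^ 2) + 4) * r = (q * (4 * r ^ 2) + 1) * r + 3 * r := by ring
  have hU : A ∪ B = T := by
    ext v
    rw [mem_union, hA, hB, mem_filter, mem_filter]
    constructor
    · rintro (h1 | h1)
      · exact h1.1
      · exact h1.1
    · intro hv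
      by_cases h1 : ∀ p, boxPos L r v p ∉ M₀
      · exact Or.inl ⟨hv, h1⟩
      · push Not at h1
        obtain ⟨p, hp⟩ := h1
        refine Or.inr ⟨hv, fun p' => hM ?_⟩
        unfold ball
        rw [mem_filter]
        refine ⟨mem_univ _, boxPos L r v p, hp, ?_⟩
        have := lt6_sdist_box2 v p p'
        have h3 : 0 ≤ (q * (4 * r ^ 2) + 1) * r := Nat.zero_le _
        omega
  refine ⟨hU, ?_⟩
  have hfar : ∀ u ∈ A \ B, ∀ v ∈ B \ A, (q * (4 * r ^ 2) + 1) * r < sdist u v := by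
    intro u hu v hv
    rw [mem_sdiff, hA, hB, mem_filter, mem_filter] at hu hv
    have h1 : ∃ p, boxPos L r u p ∉ M := by
      by_contra hcon
      push Not at hcon
      exact hu.2 ⟨hu.1.1, hcon⟩
    have h2 : ∃ p, boxPos L r v p ∈ M₀ := by
      by_contra hcon
      push Not at hcon
      exact hv.2 ⟨hv.1.1, hcon⟩
    obtain ⟨p, hp⟩ := h1
    obtain ⟨p', hp'⟩ := h2
    have h3 : ρ₁ < sdist (boxPos L r v p') (boxPos L r u p) := by
      by_contra hcon
      push Not at hcon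
      refine hp (hM ?_)
      unfold ball
      rw [mem_filter]
      exact ⟨mem_univ _, _, hp', hcon⟩
    have h4 := lt6_sdist_box u p
    have h5 := lt6_sdist_box v p'
    have h6 := sdist_triangle (boxPos L r v p') v (boxPos L r u p)
    have h7 := sdist_triangle v u (boxPos L r u p)
    have h8 := sdist_comm v u
    have h9 := sdist_comm v (boxPos L r v p')
    omega
  obtain ⟨col, hcol⟩ := ov_col (L := L) hr hrL
  obtain ⟨f, hf1, hf2, hf3⟩ := ov_pot (L := L) hr (q * (4 * r ^ 2)) (A \ B) (B \ A) hfar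
  have hent : 0 < entNorm h + 1 := by have := entNorm_nonneg h; linarith
  have key := lt6_glue (by positivity : 0 < 4 * r ^ 2) (sys_Qv hrL hh) (isKer_GA hrL hh)
    (by positivity : (0 : ℝ) ≤ γ / (entNorm h + 1)) col hcol
    A B (lgap_of_gapAt hrL hh (by rw [hU]; exact HT)) q f hf1 hf2 hf3
  rw [hU] at key
  exact key

end Torus

end Pool.Agent.FFG.LT
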