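import Pool.Agent.FFG.LT.Defs

/-!
# Uhlmann's theorem with an error, by the polar decomposition and the inequality of Powers and
Størmer
-/

open Finset Matrix
open scoped ComplexOrder

set_option autoImplicit false
set_option linter.unusedSectionVars false
set_option linter.unusedVariables false

namespace Pool.Agent.FFG.LT

section Uhl

variable {X Y Y' : Type} [Fintype X] [Fintype Y] [Fintype Y'] [DecidableEq X]
  [DecidableEq Y] [DecidableEq Y']

theorem lt1_nsq (x : X → ℂ) : (nsq x : ℂ) = star x ⬝ᵥ x := by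
  unfold nsq dotProduct
  push_cast
  refine Finset.sum_congr rfl fun i _ => ?_
  rw [Pi.star_apply, ← Complex.conj_mul']
  rfl

theorem lt1_nsq_nonneg (x : X → ℂ) : 0 ≤ nsq x :=
  Finset.sum_nonneg fun i _ => by positivity

theorem lt1_nsq_mulVec (M : Matrix X Y ℂ) (y : Y → ℂ) :
    (nsq (M.mulVec y) : ℂ) = star y ⬝ᵥ (M.conjTranspose * M).mulVec y := by
  rw [lt1_nsq, star_mulVec, ← dotProduct_mulVec, mulVec_mulVec]

theorem lt1_contr_of (M : Matrix X Y ℂ)
    (h : (M.conjTranspose * M) * (M.conjTranspose * M) = M.conjTranspose * M) : Contr M := by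
  intro y
  have h1 : (nsq (M.mulVec y) : ℂ) + nsq ((1 - M.conjTranspose * M).mulVec y) = nsq y := by
    rw [lt1_nsq_mulVec, lt1_nsq_mulVec, lt1_nsq, ← dotProduct_add, ← add_mulVec]
    have h2 : M.conjTranspose * M + (1 - M.conjTranspose * M).conjTranspose *
        (1 - M.conjTranspose * M) = 1 := by
      rw [conjTranspose_sub, conjTranspose_mul, conjTranspose_conjTranspose, conjTranspose_one,
        sub_mul, mul_sub, mul_sub, one_mul, mul_one, h]
      simp
    rw [h2, one_mulVec]
  have h3 : nsq (M.mulVec y) + nsq ((1 - M.conjTranspose * M).mulVec y) = nsq y := by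
    exact_mod_cast h1
  have h4 := lt1_nsq_nonneg ((1 - M.conjTranspose * M).mulVec y)
  linarith

theorem lt1_contr_mul (M : Matrix X Y ℂ) (N : Matrix Y Y' ℂ) (hM : Contr M) (hN : Contr N) :
    Contr (M * N) := by
  intro y
  rw [← mulVec_mulVec]
  exact (hM _).trans (hN _)

theorem lt1_spec (H : Matrix X X ℂ) (hH : H.IsHermitian) :
    ∃ (U : Matrix X X ℂ) (l : X → ℝ), U.conjTranspose * U = 1 ∧ U * U.conjTranspose = 1 ∧
      H = U * diagonal (fun i => (l i : ℂ)) * U.conjTranspose ∧ (H.PosSemidef → ∀ i, 0 ≤ l i) := by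
  refine ⟨hH.eigenvectorUnitary, hH.eigenvalues, ?_, ?_, ?_, ?_⟩
  · exact Unitary.coe_star_mul_self hH.eigenvectorUnitary
  · exact Unitary.coe_mul_star_self hH.eigenvectorUnitary
  · conv_lhs => rw [hH.spectral_theorem]
    rw [Unitary.conjStarAlgAut_apply]
    rfl
  · intro hP i
    exact hP.eigenvalues_nonneg i

theorem lt1_diag_mul (U : Matrix X X ℂ) (hU : U.conjTranspose * U = 1) (a b : X → ℂ) :
    (U * diagonal a * U.conjTranspose) * (U * diagonal b * U.conjTranspose) =
      U * diagonal (fun i => a i * b i) * U.conjTranspose := by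
  calc (U * diagonal a * U.conjTranspose) * (U * diagonal b * U.conjTranspose) =
      U * diagonal a * (U.conjTranspose * U) * diagonal b * U.conjTranspose := by
        simp only [Matrix.mul_assoc]
    _ = _ := by
        rw [hU, Matrix.mul_one, Matrix.mul_assoc U, diagonal_mul_diagonal]

theorem lt1_diag_star (U : Matrix X X ℂ) (a : X → ℝ) :
    (U * diagonal (fun i => (a i : ℂ)) * U.conjTranspose).conjTranspose =
      U * diagonal (fun i => (a i : ℂ)) * U.conjTranspose := by
  rw [conjTranspose_mul, conjTranspose_mul, conjTranspose_conjTranspose, diagonal_conjTranspose,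
    Matrix.mul_assoc]
  congr 3
  funext i
  simp

/-- Polar decomposition. -/
theorem lt1_polar (A : Matrix X Y ℂ) :
    ∃ (R : Matrix X X ℂ) (V : Matrix X Y ℂ), R.PosSemidef ∧ R * R = A * A.conjTranspose ∧
      A = R * V ∧ R * (V * V.conjTranspose) = R ∧ Contr V ∧ Contr V.conjTranspose := by
  have hP : (A * A.conjTranspose).PosSemidef := posSemidef_self_mul_conjTranspose A
  obtain ⟨U, l, hU, hU', hd, hl⟩ := lt1_spec _ hP.1
  have hl := hl hP
  set R : Matrix X X ℂ := U * diagonal (fun i => ((Real.sqrt (l i) : ℝ) : ℂ)) * U.conjTranspose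
    with hR
  set I : Matrix X X ℂ := U * diagonal (fun i => (((Real.sqrt (l i))⁻¹ : ℝ) : ℂ)) *
    U.conjTranspose with hI
  set P : Matrix X X ℂ := U * diagonal (fun i => (((if l i = 0 then 0 else 1 : ℝ)) : ℂ)) *
    U.conjTranspose with hPdef
  have hRR : R * R = A * A.conjTranspose := by
    rw [hd, hR, lt1_diag_mul U hU]
    congr 3
    funext i
    rw [← Complex.ofReal_mul, Real.mul_self_sqrt (hl i)]
  have hsq : ∀ i, l i ≠ 0 → Real.sqrt (l i) ≠ 0 := fun i hi => by
    rw [Real.sqrt_ne_zero (hl i)]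
    exact hi
  have hRI : R * I = P := by
    rw [hR, hI, hPdef, lt1_diag_mul U hU]
    congr 3
    funext i
    rw [← Complex.ofReal_mul]
    by_cases hi : l i = 0
    · simp [hi]
    · rw [if_neg hi, mul_inv_cancel₀ (hsq i hi)]
  have hPR : R * P = R := by
    rw [hR, hPdef, lt1_diag_mul U hU]
    congr 3
    funext i
    rw [← Complex.ofReal_mul]
    by_cases hi : l i = 0 <;> simp [hi]
  have hPI : P * I = I := by
    rw [hI, hPdef, lt1_diag_mul U hU]
    congr 3
    funext i
    rw [← Complex.ofReal_mul]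
    by_cases hi : l i = 0 <;> simp [hi]
  have hIdI : I * (A * A.conjTranspose) * I = P := by
    rw [hd, hI, hPdef, lt1_diag_mul U hU, lt1_diag_mul U hU]
    congr 3
    funext i
    rw [← Complex.ofReal_mul, ← Complex.ofReal_mul]
    by_cases hi : l i = 0
    · simp [hi]
    · rw [if_neg hi]
      have h1 := hsq i hi
      have h2 : l i = Real.sqrt (l i) * Real.sqrt (l i) := (Real.mul_self_sqrt (hl i)).symm
      congr 1
      nth_rw 2 [h2]
      field_simp
  have hPA0 : (1 - P) * (A * A.conjTranspose) = 0 := by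
    rw [← hRR, Matrix.sub_mul, Matrix.one_mul]
    have h1 : P * R = R := by
      rw [hR, hPdef, lt1_diag_mul U hU]
      congr 3
      funext i
      rw [← Complex.ofReal_mul]
      by_cases hi : l i = 0 <;> simp [hi]
    rw [← Matrix.mul_assoc P R R, h1, sub_self]
  have hPA : P * A = A := by
    have h1 : (1 - P) * A = 0 := by
      rw [← mul_self_mul_conjTranspose_eq_zero]
      exact hPA0
    rw [Matrix.sub_mul, Matrix.one_mul, sub_eq_zero] at h1
    exact h1.symm
  have hIs : I.conjTranspose = I := lt1_diag_star U _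
  have hVV : (I * A) * (I * A).conjTranspose = P := by
    rw [conjTranspose_mul, hIs, ← hIdI]
    simp only [Matrix.mul_assoc]
  refine ⟨R, I * A, ?_, hRR, ?_, ?_, ?_, ?_⟩
  · have h1 : (diagonal (fun i => ((Real.sqrt (l i) : ℝ) : ℂ))).PosSemidef := by
      rw [posSemidef_diagonal_iff]
      intro i
      exact_mod_cast Real.sqrt_nonneg _
    exact h1.mul_mul_conjTranspose_same U
  · rw [← Matrix.mul_assoc, hRI, hPA]
  · rw [hVV, hPR]
  · apply lt1_contr_of
    have h1 : (I * A).conjTranspose * (I * A) * ((I * A).conjTranspose * (I * A)) =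
        (I * A).conjTranspose * (((I * A) * (I * A).conjTranspose) * (I * A)) := by
      simp only [Matrix.mul_assoc]
    rw [h1, hVV, ← Matrix.mul_assoc P, hPI]
  · apply lt1_contr_of
    rw [conjTranspose_conjTranspose, hVV, hPdef, lt1_diag_mul U hU]
    congr 3
    funext i
    rw [← Complex.ofReal_mul]
    by_cases hi : l i = 0 <;> simp [hi]

/-- The inequality of Powers and Størmer. -/
theorem lt1_powers (R Q : Matrix X X ℂ) (hR : R.PosSemidef) (hQ : Q.PosSemidef) :
    ∃ O : Matrix X X ℂ, Contr O ∧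
      (((R - Q) * (R - Q)).trace).re ≤ ((O * (R * R - Q * Q)).trace).re := by
  obtain ⟨U, s, hU, hU', hd, -⟩ := lt1_spec (R - Q) (hR.1.sub hQ.1)
  set D : Matrix X X ℂ := diagonal (fun i => ((s i : ℝ) : ℂ)) with hD
  set O : Matrix X X ℂ := U * diagonal (fun i => (((if 0 ≤ s i then 1 else -1 : ℝ)) : ℂ)) *
    U.conjTranspose with hO
  set B : Matrix X X ℂ := U * diagonal (fun i => ((|s i| : ℝ) : ℂ)) * U.conjTranspose with hB
  have hOS : O * (R - Q) = B := by
    rw [hd, hO, hD, hB, lt1_diag_mul U hU]
    congr 3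
    funext i
    rw [← Complex.ofReal_mul]
    by_cases hi : 0 ≤ s i
    · rw [if_pos hi, abs_of_nonneg hi, one_mul]
    · rw [if_neg hi, abs_of_neg (not_le.1 hi)]
      simp
  have hSO : (R - Q) * O = B := by
    rw [hd, hO, hD, hB, lt1_diag_mul U hU]
    congr 3
    funext i
    rw [← Complex.ofReal_mul]
    by_cases hi : 0 ≤ s i
    · rw [if_pos hi, abs_of_nonneg hi, mul_one]
    · rw [if_neg hi, abs_of_neg (not_le.1 hi)]
      simp
  refine ⟨O, ?_, ?_⟩
  · apply lt1_contr_of
    have h1 : O.conjTranspose * O = 1 := by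
      rw [hO, lt1_diag_star, lt1_diag_mul U hU]
      have h2 : (fun i => (((if 0 ≤ s i then 1 else -1 : ℝ)) : ℂ) *
          (((if 0 ≤ s i then 1 else -1 : ℝ)) : ℂ)) = fun _ => 1 := by
        funext i
        by_cases hi : 0 ≤ s i <;> simp [hi]
      rw [h2, diagonal_one, Matrix.mul_one, hU']
    rw [h1, Matrix.one_mul]
  · have h1 : 2 * (O * (R * R - Q * Q)).trace = 2 * (B * (R + Q)).trace := by
      have h2 : (2 : ℂ) • (R * R - Q * Q) = (R - Q) * (R + Q) + (R + Q) * (R - Q) := by
        rw [two_smul]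
        noncomm_ring
      have h3 : 2 * (O * (R * R - Q * Q)).trace = (O * ((2 : ℂ) • (R * R - Q * Q))).trace := by
        rw [Matrix.mul_smul, trace_smul, smul_eq_mul]
      rw [h3, h2, Matrix.mul_add, trace_add, ← Matrix.mul_assoc, hOS, ← Matrix.mul_assoc,
        trace_mul_comm (O * (R + Q)), ← Matrix.mul_assoc, hSO, two_mul]
    have h4 : (O * (R * R - Q * Q)).trace = (B * (R + Q)).trace :=
      mul_left_cancel₀ two_ne_zero h1
    have h5 : (B * (R + Q)).trace =
        ∑ i, ((|s i| : ℝ) : ℂ) * (U.conjTranspose * (R + Q) * U) i i := by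
      rw [hB, Matrix.mul_assoc, Matrix.mul_assoc, trace_mul_comm, Matrix.mul_assoc,
        Matrix.mul_assoc, trace, ← Matrix.mul_assoc U.conjTranspose]
      refine Finset.sum_congr rfl fun i _ => ?_
      rw [diag_apply, diagonal_mul]
    have h6 : ((R - Q) * (R - Q)).trace = ∑ i, ((s i * s i : ℝ) : ℂ) := by
      rw [hd, hD, lt1_diag_mul U hU, trace_mul_comm, ← Matrix.mul_assoc, hU, Matrix.one_mul,
        trace_diagonal]
      exact Finset.sum_congr rfl fun i _ => by push_cast; rfl
    have h7 : U.conjTranspose * (R - Q) * U = D := by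
      rw [hd]
      calc U.conjTranspose * (U * D * U.conjTranspose) * U =
          (U.conjTranspose * U) * D * (U.conjTranspose * U) := by
            simp only [Matrix.mul_assoc]
        _ = D := by rw [hU, Matrix.one_mul, Matrix.mul_one]
    have h8 : ∀ i, |s i| ≤ ((U.conjTranspose * (R + Q) * U) i i).re := by
      intro i
      have h9 : ((U.conjTranspose * (R - Q) * U) i i).re = s i := by
        rw [h7, hD, diagonal_apply_eq]
        simp
      have h10 : 0 ≤ ((U.conjTranspose * R * U) i i).re := by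
        have := (hR.conjTranspose_mul_mul_same U).diag_nonneg (i := i)
        exact (Complex.le_def.1 this).1
      have h11 : 0 ≤ ((U.conjTranspose * Q * U) i i).re := by
        have := (hQ.conjTranspose_mul_mul_same U).diag_nonneg (i := i)
        exact (Complex.le_def.1 this).1
      rw [Matrix.mul_sub, Matrix.sub_mul, Matrix.sub_apply, Complex.sub_re] at h9
      rw [Matrix.mul_add, Matrix.add_mul, Matrix.add_apply, Complex.add_re, abs_le]
      constructor <;> linarith
    rw [h4, h5, h6, Complex.re_sum, Complex.re_sum]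
    refine Finset.sum_le_sum fun i _ => ?_
    rw [Complex.ofReal_re, Complex.re_ofReal_mul, ← abs_mul_abs_self]
    exact mul_le_mul_of_nonneg_left (h8 i) (abs_nonneg _)

/-- LT1 (Uhlmann). -/
theorem uhlmann {X Y Y' : Type} [Fintype X] [Fintype Y] [Fintype Y'] [DecidableEq X]
    [DecidableEq Y] [DecidableEq Y'] (A : Matrix X Y ℂ) (B : Matrix X Y' ℂ) (ε : ℝ)
    (hA : (A.conjTranspose * A).trace = 1) (hB : (B.conjTranspose * B).trace = 1)
    (H : ∀ O : Matrix X X ℂ, Contr O →
      ‖(A.conjTranspose * O * A).trace - (B.conjTranspose * O * B).trace‖ ≤ ε) :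
    ∃ W : Matrix Y Y' ℂ, Contr W ∧ Contr W.conjTranspose ∧
      1 - ε / 2 ≤ ((B.conjTranspose * A * W).trace).re := by
  obtain ⟨R, V, hR, hRR, hAV, hRV, hV1, hV2⟩ := lt1_polar A
  obtain ⟨Q, V', hQ, hQQ, hBV, hQV, hV1', hV2'⟩ := lt1_polar B
  obtain ⟨O, hO, hineq⟩ := lt1_powers R Q hR hQ
  refine ⟨V.conjTranspose * V', lt1_contr_mul _ _ hV2 hV1', ?_, ?_⟩
  · rw [conjTranspose_mul, conjTranspose_conjTranspose]
    exact lt1_contr_mul _ _ hV2' hV1
  · have h1 : (B.conjTranspose * A * (V.conjTranspose * V')).trace = (Q * R).trace := by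
      have h2 : B.conjTranspose = V'.conjTranspose * Q := by
        rw [hBV, conjTranspose_mul, hQ.1]
      have h3 : (V' * V'.conjTranspose) * Q = Q := by
        have := congrArg conjTranspose hQV
        rwa [conjTranspose_mul, conjTranspose_mul, conjTranspose_conjTranspose, hQ.1] at this
      calc (B.conjTranspose * A * (V.conjTranspose * V')).trace =
          (V'.conjTranspose * (Q * (R * (V * V.conjTranspose)) * V')).trace := by
            rw [h2]
            nth_rw 1 [hAV]
            simp only [Matrix.mul_assoc]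
        _ = (Q * R).trace := by
            rw [hRV, trace_mul_comm, Matrix.mul_assoc, trace_mul_comm (Q * R), ← Matrix.mul_assoc, h3]
    have h4 : ∀ O : Matrix X X ℂ, (A.conjTranspose * O * A).trace -
        (B.conjTranspose * O * B).trace = (O * (R * R - Q * Q)).trace := by
      intro O
      rw [Matrix.mul_assoc, trace_mul_comm, Matrix.mul_assoc, ← hRR, Matrix.mul_assoc,
        trace_mul_comm B.conjTranspose, Matrix.mul_assoc O B, ← hQQ, Matrix.mul_sub, trace_sub]
    have h5 : ((O * (R * R - Q * Q)).trace).re ≤ ε := by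
      rw [← h4]
      exact (Complex.re_le_norm _).trans (H O hO)
    have h6 : ((R * R).trace).re = 1 := by
      rw [hRR, trace_mul_comm, hA]
      rfl
    have h7 : ((Q * Q).trace).re = 1 := by
      rw [hQQ, trace_mul_comm, hB]
      rfl
    have h8 : ((R - Q) * (R - Q)).trace = (R * R).trace + (Q * Q).trace - 2 * (Q * R).trace := by
      have h9 : (R * Q).trace = (Q * R).trace := trace_mul_comm _ _
      rw [Matrix.sub_mul, Matrix.mul_sub, Matrix.mul_sub, trace_sub, trace_sub, trace_sub, h9]
      ring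
    rw [h1]
    rw [h8] at hineq
    have h10 : ((R * R).trace + (Q * Q).trace - 2 * (Q * R).trace).re =
        2 - 2 * ((Q * R).trace).re := by
      rw [Complex.sub_re, Complex.add_re, h6, h7, Complex.mul_re]
      norm_num
    rw [h10] at hineq
    linarith

end Uhl

end Pool.Agent.FFG.LT
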