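import Pool.Agent.FFG.LT.Defs
import Pool.Agent.FFG.LT.Uhlmann

open Finset
open scoped ComplexOrder Kronecker

set_option autoImplicit false
set_option linter.unusedSectionVars false
set_option linter.unusedVariables false

/-!
# LT3: the error of the local indistinguishability can be improved (constant to `8 δ`)
-/

namespace Pool.Agent.FFG.LT

section Basic

variable {X Y Z : Type} [Fintype X] [Fintype Y] [Fintype Z] [DecidableEq X] [DecidableEq Y]
  [DecidableEq Z]

private theorem lt3_ipr_dot (x y : X → ℂ) : ipr x y = star x ⬝ᵥ y := rfl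

private theorem lt3_ipr_inner (x y : X → ℂ) :
    ipr x y = inner ℂ (WithLp.toLp 2 x : EuclideanSpace ℂ X) (WithLp.toLp 2 y) := by
  rw [EuclideanSpace.inner_toLp_toLp, lt3_ipr_dot, dotProduct_comm]

private theorem lt3_nm_norm (x : X → ℂ) : nm x = ‖(WithLp.toLp 2 x : EuclideanSpace ℂ X)‖ := by
  rw [EuclideanSpace.norm_eq]; rfl

private theorem lt3_cs (x y : X → ℂ) : ‖ipr x y‖ ≤ nm x * nm y := by
  rw [lt3_ipr_inner, lt3_nm_norm, lt3_nm_norm]; exact norm_inner_le_norm _ _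

private theorem lt3_nsq_nonneg (x : X → ℂ) : 0 ≤ nsq x :=
  Finset.sum_nonneg fun i _ => by positivity

private theorem lt3_nm_nonneg (x : X → ℂ) : 0 ≤ nm x := Real.sqrt_nonneg _

private theorem lt3_nm_sq (x : X → ℂ) : nm x ^ 2 = nsq x := Real.sq_sqrt (lt3_nsq_nonneg x)

private theorem lt3_nm_le {x : X → ℂ} {y : Y → ℂ} {C : ℝ} (hC : 0 ≤ C)
    (h : nsq x ≤ C ^ 2 * nsq y) : nm x ≤ C * nm y := by
  have h1 : nm x ^ 2 ≤ (C * nm y) ^ 2 := by rw [mul_pow, lt3_nm_sq, lt3_nm_sq]; exact h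
  exact (sq_le_sq₀ (lt3_nm_nonneg x) (mul_nonneg hC (lt3_nm_nonneg y))).mp h1

private theorem lt3_nsq_le {x : X → ℂ} {y : Y → ℂ} {C : ℝ}
    (h : nm x ≤ C * nm y) : nsq x ≤ C ^ 2 * nsq y := by
  rw [← lt3_nm_sq, ← lt3_nm_sq, ← mul_pow]
  exact pow_le_pow_left₀ (lt3_nm_nonneg x) h 2

private theorem lt3_ipr_self (x : X → ℂ) : ipr x x = (nsq x : ℂ) := by
  unfold ipr nsq
  rw [Complex.ofReal_sum]
  refine Finset.sum_congr rfl fun i _ => ?_
  have := Complex.conj_mul' (x i)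
  rw [Complex.ofReal_pow]
  exact this

private theorem lt3_ipr_star (x y : X → ℂ) : star (ipr x y) = ipr y x := by
  unfold ipr
  rw [star_sum]
  refine Finset.sum_congr rfl fun i _ => ?_
  rw [star_mul', star_star, mul_comm]

private theorem lt3_ipr_add (x y z : X → ℂ) : ipr x (y + z) = ipr x y + ipr x z := by
  rw [lt3_ipr_dot, dotProduct_add]; rfl

private theorem lt3_ipr_sub (x y z : X → ℂ) : ipr x (y - z) = ipr x y - ipr x z := by
  rw [lt3_ipr_dot, dotProduct_sub]; rfl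

private theorem lt3_ipr_smul (x y : X → ℂ) (c : ℂ) : ipr x (c • y) = c * ipr x y := by
  rw [lt3_ipr_dot, dotProduct_smul]; rfl

private theorem lt3_adj (A : Matrix X Y ℂ) (x : Y → ℂ) (y : X → ℂ) :
    ipr (A.mulVec x) y = ipr x (A.conjTranspose.mulVec y) := by
  rw [lt3_ipr_dot, lt3_ipr_dot, Matrix.star_mulVec, Matrix.dotProduct_mulVec]

/-- The adjoint has the same bound. -/
private theorem lt3_adj_bound {A : Matrix X Y ℂ} {C : ℝ} (hC : 0 ≤ C)
    (h : ∀ y, nm (A.mulVec y) ≤ C * nm y) (x : X → ℂ) :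
    nm (A.conjTranspose.mulVec x) ≤ C * nm x := by
  set z := A.conjTranspose.mulVec x with hz
  have h1 : ((nsq z : ℝ) : ℂ) = ipr (A.mulVec z) x := by
    rw [lt3_adj, ← lt3_ipr_self]
  have h2 : nsq z ≤ C * nm z * nm x := by
    have h3 : ‖((nsq z : ℝ) : ℂ)‖ ≤ nm (A.mulVec z) * nm x := by rw [h1]; exact lt3_cs _ _
    rw [Complex.norm_real, Real.norm_of_nonneg (lt3_nsq_nonneg z)] at h3
    exact h3.trans (mul_le_mul_of_nonneg_right (h z) (lt3_nm_nonneg x))
  rw [← lt3_nm_sq] at h2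
  rcases (lt3_nm_nonneg z).lt_or_eq with hpos | h0
  · nlinarith
  · rw [← h0]; exact mul_nonneg hC (lt3_nm_nonneg x)

private theorem lt3_pr_bound {P : Matrix X X ℂ} (hP : IsPr P) (x : X → ℂ) :
    nm (P.mulVec x) ≤ 1 * nm x := by
  set z := P.mulVec x with hz
  have h1 : ((nsq z : ℝ) : ℂ) = ipr x z := by
    rw [← lt3_ipr_self, hz, lt3_adj, hP.1.eq, Matrix.mulVec_mulVec, hP.2]
  have h2 : nsq z ≤ nm x * nm z := by
    have h3 : ‖((nsq z : ℝ) : ℂ)‖ ≤ nm x * nm z := by rw [h1]; exact lt3_cs _ _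
    rwa [Complex.norm_real, Real.norm_of_nonneg (lt3_nsq_nonneg z)] at h3
  rw [← lt3_nm_sq] at h2
  rcases (lt3_nm_nonneg z).lt_or_eq with hpos | h0
  · nlinarith
  · rw [← h0]; exact mul_nonneg zero_le_one (lt3_nm_nonneg x)

private theorem lt3_contr_iff {T : Matrix X Y ℂ} : Contr T ↔ ∀ y, nm (T.mulVec y) ≤ 1 * nm y := by
  constructor
  · intro h y
    exact lt3_nm_le zero_le_one (by simpa using h y)
  · intro h y
    simpa using lt3_nsq_le (h y)

private theorem lt3_nm_add (x y : X → ℂ) : nm (x + y) ≤ nm x + nm y := by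
  rw [lt3_nm_norm, lt3_nm_norm, lt3_nm_norm, WithLp.toLp_add]; exact norm_add_le _ _

private theorem lt3_nm_sub (x y : X → ℂ) : nm (x - y) ≤ nm x + nm y := by
  rw [lt3_nm_norm, lt3_nm_norm, lt3_nm_norm, WithLp.toLp_sub]; exact norm_sub_le _ _

private theorem lt3_nm_smul (c : ℂ) (x : X → ℂ) : nm (c • x) = ‖c‖ * nm x := by
  rw [lt3_nm_norm, lt3_nm_norm, WithLp.toLp_smul]; exact norm_smul _ _

/-- Tensoring with the identity preserves the bound. -/
private theorem lt3_kr_bound {T : Matrix X X ℂ} {C : ℝ} (hC : 0 ≤ C)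
    (h : ∀ y, nm (T.mulVec y) ≤ C * nm y) (x : X × Y → ℂ) :
    nm ((T ⊗ₖ (1 : Matrix Y Y ℂ)).mulVec x) ≤ C * nm x := by
  refine lt3_nm_le hC ?_
  have h1 : ∀ z : X × Y → ℂ, nsq z = ∑ t, nsq (fun n => z (n, t)) := by
    intro z
    unfold nsq
    rw [Fintype.sum_prod_type, Finset.sum_comm]
  rw [h1, h1 x, Finset.mul_sum]
  refine Finset.sum_le_sum fun t _ => ?_
  have h2 : (fun n => ((T ⊗ₖ (1 : Matrix Y Y ℂ)).mulVec x) (n, t)) =
      T.mulVec (fun n => x (n, t)) := by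
    funext n
    simp only [Matrix.mulVec, dotProduct, Matrix.kroneckerMap_apply, Fintype.sum_prod_type]
    refine Finset.sum_congr rfl fun n' _ => ?_
    rw [Finset.sum_eq_single t]
    · simp
    · intro t' _ ht'
      rw [Matrix.one_apply_ne ht'.symm]; simp
    · simp
  rw [h2]
  exact lt3_nsq_le (h _)

end Basic


section Slices

variable {N m c ψ τ : Type} [Fintype N] [Fintype m] [Fintype c] [Fintype ψ] [Fintype τ]
  [DecidableEq N] [DecidableEq m] [DecidableEq c] [DecidableEq ψ] [DecidableEq τ]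

/-- The matrix of slices of a vector. -/
private noncomputable def lt3_sl (e : N ≃ m × c) (x : N × ψ → ℂ) : Matrix (m × ψ) c ℂ :=
  fun p k => x (e.symm (p.1, k), p.2)

/-- The same in the presence of a further system. -/
private noncomputable def lt3_sl' (e : N ≃ m × c) (x : (N × ψ) × τ → ℂ) :
    Matrix (m × ψ) (c × τ) ℂ :=
  fun p k => x ((e.symm (p.1, k.1), p.2), k.2)

/-- The operator given by `W`. -/
private noncomputable def lt3_w (e : N ≃ m × c) (W : Matrix c (c × τ) ℂ) (x : N × ψ → ℂ) :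
    (N × ψ) × τ → ℂ :=
  fun p => (lt3_sl e x * W) ((e p.1.1).1, p.1.2) ((e p.1.1).2, p.2)

private theorem lt3_sl'_w (e : N ≃ m × c) (W : Matrix c (c × τ) ℂ) (x : N × ψ → ℂ) :
    lt3_sl' e (lt3_w e W x) = lt3_sl e x * W := by
  ext p k
  simp [lt3_sl', lt3_w]

private theorem lt3_sl'_inj (e : N ≃ m × c) {x y : (N × ψ) × τ → ℂ}
    (h : lt3_sl' e x = lt3_sl' e y) : x = y := by
  funext p
  have := congrFun (congrFun h ((e p.1.1).1, p.1.2)) ((e p.1.1).2, p.2)
  simpa [lt3_sl'] using this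

private theorem lt3_ipr_sl (e : N ≃ m × c) (x y : N × ψ → ℂ) :
    ipr x y = ((lt3_sl e x).conjTranspose * lt3_sl e y).trace := by
  unfold ipr Matrix.trace
  simp only [Matrix.diag_apply, Matrix.mul_apply, Matrix.conjTranspose_apply,
    Fintype.sum_prod_type, lt3_sl]
  rw [← e.symm.sum_comp (fun n => ∑ l, star (x (n, l)) * y (n, l)), Fintype.sum_prod_type,
    Finset.sum_comm]

private theorem lt3_ipr_sl' (e : N ≃ m × c) (x y : (N × ψ) × τ → ℂ) :
    ipr x y = ((lt3_sl' e x).conjTranspose * lt3_sl' e y).trace := by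
  unfold ipr Matrix.trace
  simp only [Matrix.diag_apply, Matrix.mul_apply, Matrix.conjTranspose_apply,
    Fintype.sum_prod_type, lt3_sl']
  rw [← e.symm.sum_comp (fun n => ∑ l, ∑ t, star (x ((n, l), t)) * y ((n, l), t)),
    Fintype.sum_prod_type]
  rw [Finset.sum_comm]
  refine Finset.sum_congr rfl fun k _ => ?_
  simp_rw [Finset.sum_comm (s := (univ : Finset ψ)) (t := (univ : Finset τ))]
  rw [Finset.sum_comm]

private theorem lt3_sl_up (e : N ≃ m × c) (O : Matrix (m × ψ) (m × ψ) ℂ) (x : N × ψ → ℂ) :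
    lt3_sl e ((up e O).mulVec x) = O * lt3_sl e x := by
  ext p k
  simp only [lt3_sl, Matrix.mulVec, dotProduct, up, Fintype.sum_prod_type, Matrix.mul_apply]
  rw [← e.symm.sum_comp, Fintype.sum_prod_type]
  simp only [Equiv.apply_symm_apply]
  refine Finset.sum_congr rfl fun i _ => ?_
  rw [Finset.sum_eq_single k]
  · simp
  · intro k' _ hk'
    simp [hk'.symm]
  · simp

private theorem lt3_sl'_up (e : N ≃ m × c) (O : Matrix (m × ψ) (m × ψ) ℂ)
    (x : (N × ψ) × τ → ℂ) :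
    lt3_sl' e ((up e O ⊗ₖ (1 : Matrix τ τ ℂ)).mulVec x) = O * lt3_sl' e x := by
  ext p k
  simp only [lt3_sl', Matrix.mulVec, dotProduct, up, Fintype.sum_prod_type, Matrix.mul_apply,
    Matrix.kroneckerMap_apply]
  rw [← e.symm.sum_comp, Fintype.sum_prod_type]
  simp only [Equiv.apply_symm_apply]
  refine Finset.sum_congr rfl fun i _ => ?_
  rw [Finset.sum_eq_single k.1]
  · refine Finset.sum_congr rfl fun l _ => ?_
    rw [Finset.sum_eq_single k.2]
    · simp
    · intro t _ ht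
      rw [Matrix.one_apply_ne ht.symm]; simp
    · simp
  · intro k' _ hk'
    simp [hk'.symm]
  · simp

private theorem lt3_comm (e : N ≃ m × c) (W : Matrix c (c × τ) ℂ)
    (O : Matrix (m × ψ) (m × ψ) ℂ) (x : N × ψ → ℂ) :
    lt3_w e W ((up e O).mulVec x) = (up e O ⊗ₖ (1 : Matrix τ τ ℂ)).mulVec (lt3_w e W x) := by
  apply lt3_sl'_inj e
  rw [lt3_sl'_w, lt3_sl_up, lt3_sl'_up, lt3_sl'_w, Matrix.mul_assoc]

private theorem lt3_w_sub (e : N ≃ m × c) (W : Matrix c (c × τ) ℂ) (x y : N × ψ → ℂ) :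
    lt3_w e W (x - y) = lt3_w e W x - lt3_w e W y := by
  apply lt3_sl'_inj e
  have h1 : lt3_sl e (x - y) = lt3_sl e x - lt3_sl e y := rfl
  have h2 : lt3_sl' e (lt3_w e W x - lt3_w e W y) =
    lt3_sl' e (lt3_w e W x) - lt3_sl' e (lt3_w e W y) := rfl
  rw [lt3_sl'_w, h2, h1, Matrix.sub_mul, lt3_sl'_w, lt3_sl'_w]

private theorem lt3_w_smul (e : N ≃ m × c) (W : Matrix c (c × τ) ℂ) (a : ℂ) (x : N × ψ → ℂ) :
    lt3_w e W (a • x) = a • lt3_w e W x := by
  apply lt3_sl'_inj e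
  have h1 : lt3_sl e (a • x) = a • lt3_sl e x := rfl
  have h2 : lt3_sl' e (a • lt3_w e W x) = a • lt3_sl' e (lt3_w e W x) := rfl
  rw [lt3_sl'_w, h2, h1, Matrix.smul_mul, lt3_sl'_w]

private theorem lt3_w_bound (e : N ≃ m × c) {W : Matrix c (c × τ) ℂ}
    (hW : Contr W.conjTranspose) (x : N × ψ → ℂ) : nm (lt3_w e W x) ≤ 1 * nm x := by
  refine lt3_nm_le zero_le_one ?_
  rw [one_pow, one_mul]
  have h1 : ∀ z : N × ψ → ℂ, nsq z = ∑ p : m × ψ, nsq (fun k => lt3_sl e z p k) := by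
    intro z
    unfold nsq lt3_sl
    rw [Fintype.sum_prod_type, Fintype.sum_prod_type, ← e.symm.sum_comp, Fintype.sum_prod_type]
    refine Finset.sum_congr rfl fun i _ => ?_
    rw [Finset.sum_comm]
  have h2 : ∀ z : (N × ψ) × τ → ℂ, nsq z = ∑ p : m × ψ, nsq (fun k => lt3_sl' e z p k) := by
    intro z
    unfold nsq lt3_sl'
    simp only [Fintype.sum_prod_type]
    rw [← e.symm.sum_comp, Fintype.sum_prod_type]
    refine Finset.sum_congr rfl fun i _ => ?_
    rw [Finset.sum_comm]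
  rw [h1 x, h2]
  refine Finset.sum_le_sum fun p _ => ?_
  rw [lt3_sl'_w]
  have h3 := hW (fun k => star (lt3_sl e x p k))
  have h4 : nsq (fun k => star (lt3_sl e x p k)) = nsq (fun k => lt3_sl e x p k) := by
    unfold nsq; simp
  have h5 : nsq (W.conjTranspose.mulVec fun k => star (lt3_sl e x p k)) =
      nsq (fun k => (lt3_sl e x * W) p k) := by
    unfold nsq
    refine Finset.sum_congr rfl fun k _ => ?_
    congr 1
    rw [← norm_star]
    congr 1
    simp only [Matrix.mulVec, dotProduct, Matrix.mul_apply, Matrix.conjTranspose_apply, star_sum,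
      star_mul', star_star]
    exact Finset.sum_congr rfl fun _ _ => mul_comm _ _
  rw [h4, h5] at h3
  exact h3

end Slices


section More

variable {N m c ψ τ : Type} [Fintype N] [Fintype m] [Fintype c] [Fintype ψ] [Fintype τ]
  [DecidableEq N] [DecidableEq m] [DecidableEq c] [DecidableEq ψ] [DecidableEq τ]

private theorem lt3_up_bound (e : N ≃ m × c) {O : Matrix (m × ψ) (m × ψ) ℂ} (hO : Contr O)
    (x : N × ψ → ℂ) : nm ((up e O).mulVec x) ≤ 1 * nm x := by
  refine lt3_nm_le zero_le_one ?_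
  rw [one_pow, one_mul]
  have h1 : ∀ z : N × ψ → ℂ, nsq z = ∑ k : c, nsq (fun p => lt3_sl e z p k) := by
    intro z
    unfold nsq lt3_sl
    simp only [Fintype.sum_prod_type]
    rw [← e.symm.sum_comp, Fintype.sum_prod_type, Finset.sum_comm]
  rw [h1 x, h1]
  refine Finset.sum_le_sum fun k _ => ?_
  rw [lt3_sl_up]
  exact hO fun p => lt3_sl e x p k

private theorem lt3_up_sub (e : N ≃ m × c) (O O' : Matrix (m × ψ) (m × ψ) ℂ) :
    up e (O - O') = up e O - up e O' := by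
  ext p q
  simp only [Matrix.sub_apply, up]
  split_ifs <;> simp

private theorem lt3_up_add (e : N ≃ m × c) (O O' : Matrix (m × ψ) (m × ψ) ℂ) :
    up e (O + O') = up e O + up e O' := by
  ext p q
  simp only [Matrix.add_apply, up]
  split_ifs <;> simp

private theorem lt3_up_smul (e : N ≃ m × c) (a : ℂ) (O : Matrix (m × ψ) (m × ψ) ℂ) :
    up e (a • O) = a • up e O := by
  ext p q
  simp only [Matrix.smul_apply, up]
  split_ifs <;> simp

private theorem lt3_up_star (e : N ≃ m × c) (O : Matrix (m × ψ) (m × ψ) ℂ) :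
    (up e O).conjTranspose = up e O.conjTranspose := by
  ext p q
  simp only [up, Matrix.conjTranspose_apply]
  by_cases h : (e p.1).2 = (e q.1).2
  · rw [if_pos h, if_pos h.symm]
  · rw [if_neg h, if_neg (fun h' => h h'.symm), star_zero]

private theorem lt3_ex_add (v : N → ℂ) (T T' : Matrix (N × ψ) (N × ψ) ℂ) :
    ex v (T + T') = ex v T + ex v T' := by
  ext l l'
  simp [ex, Matrix.add_apply, mul_add, add_mul, Finset.sum_add_distrib]

private theorem lt3_ex_smul (v : N → ℂ) (a : ℂ) (T : Matrix (N × ψ) (N × ψ) ℂ) :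
    ex v (a • T) = a • ex v T := by
  ext l l'
  simp only [ex, Matrix.smul_apply, smul_eq_mul, Finset.mul_sum]
  refine Finset.sum_congr rfl fun n _ => Finset.sum_congr rfl fun n' _ => ?_
  ring

private theorem lt3_ex_star (v : N → ℂ) (T : Matrix (N × ψ) (N × ψ) ℂ) :
    (ex v T).conjTranspose = ex v T.conjTranspose := by
  ext l l'
  simp only [ex, Matrix.conjTranspose_apply, star_sum, star_mul', star_star]
  rw [Finset.sum_comm]
  refine Finset.sum_congr rfl fun n _ => Finset.sum_congr rfl fun n' _ => ?_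
  ring

private theorem lt3_dn_kr (O : Matrix ψ ψ ℂ) : dn N O = (1 : Matrix N N ℂ) ⊗ₖ O := by
  ext p q
  simp only [dn, Matrix.kroneckerMap_apply, Matrix.one_apply]
  split_ifs <;> simp

private theorem lt3_InR (G : Matrix N N ℂ) (x : N × ψ → ℂ) :
    InR G x ↔ (G ⊗ₖ (1 : Matrix ψ ψ ℂ)).mulVec x = x := by
  have h2 : ∀ n l, ((G ⊗ₖ (1 : Matrix ψ ψ ℂ)).mulVec x) (n, l) =
      G.mulVec (fun n => x (n, l)) n := by
    intro n l
    simp only [Matrix.mulVec, dotProduct, Matrix.kroneckerMap_apply, Fintype.sum_prod_type]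
    refine Finset.sum_congr rfl fun n' _ => ?_
    rw [Finset.sum_eq_single l]
    · simp
    · intro t' _ ht'
      rw [Matrix.one_apply_ne ht'.symm]; simp
    · simp
  constructor
  · intro h
    funext ⟨n, l⟩
    rw [h2, h l]
  · intro h l
    funext n
    rw [← h2, h]

/-- `⟨Φ', (T ⊗ 1) Φ'⟩ = ⟨Φ, (1 ⊗ ex v T) Φ⟩`. -/
private theorem lt3_exp (v : N → ℂ) (T : Matrix (N × ψ) (N × ψ) ℂ) (Φ : N × ψ → ℂ) :
    ipr (fun p : (N × ψ) × N => v p.1.1 * Φ (p.2, p.1.2))
        ((T ⊗ₖ (1 : Matrix N N ℂ)).mulVec fun p => v p.1.1 * Φ (p.2, p.1.2)) =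
      ipr Φ ((dn N (ex v T)).mulVec Φ) := by
  have h1 : ∀ (n : N) (l : ψ) (t : N), ((T ⊗ₖ (1 : Matrix N N ℂ)).mulVec
      (fun p => v p.1.1 * Φ (p.2, p.1.2)) : (N × ψ) × N → ℂ) ((n, l), t) =
      ∑ n' : N, ∑ l' : ψ, T (n, l) (n', l') * (v n' * Φ (t, l')) := by
    intro n l t
    simp only [Matrix.mulVec, dotProduct, Matrix.kroneckerMap_apply, Fintype.sum_prod_type]
    refine Finset.sum_congr rfl fun n' _ => Finset.sum_congr rfl fun l' _ => ?_
    rw [Finset.sum_eq_single t]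
    · simp
    · intro t' _ ht'
      rw [Matrix.one_apply_ne ht'.symm]; simp
    · simp
  have h2 : ∀ (t : N) (l : ψ), ((dn N (ex v T)).mulVec Φ) (t, l) =
      ∑ l' : ψ, (∑ n, ∑ n', star (v n) * T (n, l) (n', l') * v n') * Φ (t, l') := by
    intro t l
    simp only [Matrix.mulVec, dotProduct, dn, Fintype.sum_prod_type, ex]
    rw [Finset.sum_eq_single t]
    · simp
    · intro t' _ ht'
      simp [ht'.symm]
    · simp
  unfold ipr
  simp only [Fintype.sum_prod_type, h1, h2]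
  simp only [Finset.mul_sum, Finset.sum_mul]
  -- left: n, l, t, n', l'; right: t, l, l', n, n'
  have h3 : ∀ f : N → ψ → N → N → ψ → ℂ,
      ∑ n, ∑ l, ∑ t, ∑ n', ∑ l', f n l t n' l' = ∑ t, ∑ l, ∑ l', ∑ n, ∑ n', f n l t n' l' := by
    intro f
    calc ∑ n, ∑ l, ∑ t, ∑ n', ∑ l', f n l t n' l'
        = ∑ n, ∑ t, ∑ l, ∑ n', ∑ l', f n l t n' l' := by
          refine Finset.sum_congr rfl fun n _ => Finset.sum_comm
      _ = ∑ t, ∑ n, ∑ l, ∑ n', ∑ l', f n l t n' l' := Finset.sum_comm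
      _ = ∑ t, ∑ l, ∑ n, ∑ n', ∑ l', f n l t n' l' := by
          refine Finset.sum_congr rfl fun t _ => Finset.sum_comm
      _ = ∑ t, ∑ l, ∑ n, ∑ l', ∑ n', f n l t n' l' := by
          refine Finset.sum_congr rfl fun t _ => Finset.sum_congr rfl fun l _ =>
            Finset.sum_congr rfl fun n _ => Finset.sum_comm
      _ = ∑ t, ∑ l, ∑ l', ∑ n, ∑ n', f n l t n' l' := by
          refine Finset.sum_congr rfl fun t _ => Finset.sum_congr rfl fun l _ => Finset.sum_comm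
  rw [h3]
  refine Finset.sum_congr rfl fun t _ => Finset.sum_congr rfl fun l _ =>
    Finset.sum_congr rfl fun l' _ => Finset.sum_congr rfl fun n _ =>
    Finset.sum_congr rfl fun n' _ => ?_
  rw [star_mul']
  ring

/-- A hermitian matrix has an eigenvector with the largest absolute value of the eigenvalue. -/
private theorem lt3_eig [Nonempty N] {F : Matrix N N ℂ} (hF : F.IsHermitian) :
    ∃ (μ : ℝ) (lam : ℝ) (Φ : N → ℂ), 0 ≤ μ ∧ |lam| = μ ∧ nsq Φ = 1 ∧
      F.mulVec Φ = (lam : ℂ) • Φ ∧ ∀ y, nm (F.mulVec y) ≤ μ * nm y := by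
  obtain ⟨i, -, hi⟩ := Finset.exists_max_image (univ : Finset N) (fun i => |hF.eigenvalues i|)
    Finset.univ_nonempty
  refine ⟨|hF.eigenvalues i|, hF.eigenvalues i, ⇑(hF.eigenvectorBasis i), abs_nonneg _, rfl,
    ?_, ?_, ?_⟩
  · have h1 := hF.eigenvectorBasis.orthonormal.1 i
    have h2 : nm (⇑(hF.eigenvectorBasis i)) = 1 := by
      rw [lt3_nm_norm]; exact h1
    rw [← lt3_nm_sq, h2, one_pow]
  · have := hF.mulVec_eigenvectorBasis i
    rw [this]
    funext j
    simp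
  · intro y
    refine lt3_nm_le (abs_nonneg _) ?_
    have h1 : ∀ z : N → ℂ, nsq z = ∑ j, ‖ipr (⇑(hF.eigenvectorBasis j)) z‖ ^ 2 := by
      intro z
      rw [← lt3_nm_sq, lt3_nm_norm]
      rw [← hF.eigenvectorBasis.sum_sq_norm_inner_right]
      refine Finset.sum_congr rfl fun j _ => ?_
      rw [lt3_ipr_inner]
    rw [h1, h1 y, Finset.mul_sum]
    refine Finset.sum_le_sum fun j _ => ?_
    have h2 : ipr (⇑(hF.eigenvectorBasis j)) (F.mulVec y) =
        (hF.eigenvalues j : ℂ) * ipr (⇑(hF.eigenvectorBasis j)) y := by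
      have h3 := lt3_adj F (⇑(hF.eigenvectorBasis j)) y
      rw [hF.eq] at h3
      rw [← h3, hF.mulVec_eigenvectorBasis j]
      unfold ipr
      rw [Finset.mul_sum]
      refine Finset.sum_congr rfl fun k _ => ?_
      simp
      ring
    rw [h2, norm_mul, mul_pow, Complex.norm_real, Real.norm_eq_abs]
    refine mul_le_mul_of_nonneg_right ?_ (by positivity)
    exact pow_le_pow_left₀ (abs_nonneg _) (hi j (Finset.mem_univ _)) 2

end More


section Main

variable {a b c N ψ τ : Type} [Fintype a] [Fintype b] [Fintype c] [Fintype N] [Fintype ψ]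
  [Fintype τ] [DecidableEq a] [DecidableEq b] [DecidableEq c] [DecidableEq N] [DecidableEq ψ]
  [DecidableEq τ]

/-- Operators on complementary parts commute. -/
private theorem lt3_GA_comm (e : N ≃ a × b) {T : Matrix N N ℂ}
    (hT : Act (fun n => (e n).2) (fun n => (e n).1) T) (O : Matrix (a × ψ) (a × ψ) ℂ) :
    (T ⊗ₖ (1 : Matrix ψ ψ ℂ)) * up e O = up e O * (T ⊗ₖ (1 : Matrix ψ ψ ℂ)) := by
  obtain ⟨g, hg⟩ := hT
  ext ⟨n, l⟩ ⟨n', l'⟩
  simp only [Matrix.mul_apply, Matrix.kroneckerMap_apply, Fintype.sum_prod_type, up, hg]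
  have h1 : ∑ x : N, ∑ y : ψ, (if (e n).1 = (e x).1 then g (e n).2 (e x).2 else 0) *
      (1 : Matrix ψ ψ ℂ) l y * (if (e x).2 = (e n').2 then O ((e x).1, y) ((e n').1, l') else 0) =
      g (e n).2 (e n').2 * O ((e n).1, l) ((e n').1, l') := by
    rw [Finset.sum_eq_single (e.symm ((e n).1, (e n').2))]
    · rw [Finset.sum_eq_single l]
      · simp
      · intro y _ hy
        rw [Matrix.one_apply_ne hy.symm]; simp
      · simp
    · intro x _ hx
      refine Finset.sum_eq_zero fun y _ => ?_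
      by_cases h1 : (e n).1 = (e x).1
      · by_cases h2 : (e x).2 = (e n').2
        · exfalso
          apply hx
          rw [Equiv.eq_symm_apply]
          exact Prod.ext h1.symm h2
        · simp [h2]
      · simp [h1]
    · simp
  have h2 : ∑ x : N, ∑ y : ψ, (if (e n).2 = (e x).2 then O ((e n).1, l) ((e x).1, y) else 0) *
      ((if (e x).1 = (e n').1 then g (e x).2 (e n').2 else 0) * (1 : Matrix ψ ψ ℂ) y l') =
      g (e n).2 (e n').2 * O ((e n).1, l) ((e n').1, l') := by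
    rw [Finset.sum_eq_single (e.symm ((e n').1, (e n).2))]
    · rw [Finset.sum_eq_single l']
      · simp [mul_comm]
      · intro y _ hy
        rw [Matrix.one_apply_ne hy]; simp
      · simp
    · intro x _ hx
      refine Finset.sum_eq_zero fun y _ => ?_
      by_cases h1 : (e x).1 = (e n').1
      · by_cases h2 : (e n).2 = (e x).2
        · exfalso
          apply hx
          rw [Equiv.eq_symm_apply]
          exact Prod.ext h1 h2.symm
        · simp [h2]
      · simp [h1]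
    · simp
  rw [h1, h2]

private theorem lt3_GB_up (e : N ≃ a × b × c) {T : Matrix N N ℂ}
    (hT : Act (fun n => ((e n).1, (e n).2.1)) (fun n => (e n).2.2) T) :
    ∃ Y : Matrix ((a × b) × ψ) ((a × b) × ψ) ℂ,
      T ⊗ₖ (1 : Matrix ψ ψ ℂ) = up (e.trans (Equiv.prodAssoc a b c).symm) Y := by
  obtain ⟨g, hg⟩ := hT
  refine ⟨fun p q => if p.2 = q.2 then g p.1 q.1 else 0, ?_⟩
  ext ⟨n, l⟩ ⟨n', l'⟩
  simp only [Matrix.kroneckerMap_apply, up, hg, Equiv.trans_apply, Equiv.prodAssoc_symm_apply,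
    Matrix.one_apply]
  split_ifs <;> simp

private theorem lt3_dn_up (e : N ≃ a × b × c) (O : Matrix ψ ψ ℂ) :
    ∃ Y : Matrix ((a × b) × ψ) ((a × b) × ψ) ℂ,
      dn N O = up (e.trans (Equiv.prodAssoc a b c).symm) Y := by
  refine ⟨dn (a × b) O, ?_⟩
  ext ⟨n, l⟩ ⟨n', l'⟩
  simp only [up, dn, Equiv.trans_apply, Equiv.prodAssoc_symm_apply]
  by_cases h : n = n'
  · subst h; simp
  · rw [if_neg h]
    by_cases h1 : (e n).2.2 = (e n').2.2
    · rw [if_pos h1, if_neg]
      intro h2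
      apply h
      apply e.injective
      rw [Prod.mk.injEq] at h2
      exact Prod.ext h2.1 (Prod.ext h2.2 h1)
    · rw [if_neg h1]

private theorem lt3_up_up (e : N ≃ a × b × c) (O : Matrix (a × ψ) (a × ψ) ℂ) :
    ∃ Y : Matrix ((a × b) × ψ) ((a × b) × ψ) ℂ,
      up e O = up (e.trans (Equiv.prodAssoc a b c).symm) Y := by
  refine ⟨fun p q => if p.1.2 = q.1.2 then O (p.1.1, p.2) (q.1.1, q.2) else 0, ?_⟩
  ext ⟨n, l⟩ ⟨n', l'⟩
  simp only [up, Equiv.trans_apply, Equiv.prodAssoc_symm_apply]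
  by_cases h1 : (e n).2.2 = (e n').2.2
  · by_cases h2 : (e n).2.1 = (e n').2.1
    · rw [if_pos (Prod.ext h2 h1), if_pos h1, if_pos h2]
    · rw [if_neg (fun h => h2 (congrArg Prod.fst h)), if_pos h1, if_neg h2]
  · rw [if_neg (fun h => h1 (congrArg Prod.snd h)), if_neg h1]

private theorem lt3_ex_dn (v : N → ℂ) (hv : nsq v = 1) (O : Matrix ψ ψ ℂ) :
    ex v (dn N O) = O := by
  ext l l'
  have h1 : ∑ n, star (v n) * v n = 1 := by
    have := lt3_ipr_self v
    rw [hv] at this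
    simpa [ipr] using this
  simp only [ex, dn]
  calc ∑ n, ∑ n', star (v n) * (if n = n' then O l l' else 0) * v n'
      = ∑ n, star (v n) * v n * O l l' := by
        refine Finset.sum_congr rfl fun n _ => ?_
        rw [Finset.sum_eq_single n]
        · simp; ring
        · intro n' _ hn'
          simp [hn'.symm]
        · simp
    _ = O l l' := by rw [← Finset.sum_mul, h1, one_mul]

private theorem lt3_ex_sub (v : N → ℂ) (T T' : Matrix (N × ψ) (N × ψ) ℂ) :
    ex v (T - T') = ex v T - ex v T' := by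
  ext l l'
  simp [ex, Matrix.sub_apply, mul_sub, sub_mul, Finset.sum_sub_distrib]

/-- The eigenvalue bound in the case of a hermitian operator. -/
private theorem lt3_herm (e : N ≃ a × b × c) (G GA GB : Matrix N N ℂ)
    (hG : IsPr G) (hGA : IsPr GA) (hGB : IsPr GB) (v : N → ℂ) (hv : nsq v = 1)
    (hGv : G.mulVec v = v) (hA : Act (fun n => (e n).2) (fun n => (e n).1) GA)
    (hB : Act (fun n => ((e n).1, (e n).2.1)) (fun n => (e n).2.2) GB) (h1 : G * GA = G)
    (h2 : GB * G = G) {δ : ℝ} (hδ : 0 ≤ δ)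
    (h3 : ∀ x, nsq ((GA * GB - G).mulVec x) ≤ δ ^ 2 * nsq x)
    (H : Ind (e.trans (Equiv.prodAssoc a b c).symm) G v ψ (1 / 8))
    (O : Matrix (a × ψ) (a × ψ) ℂ) (hO : Contr O) (hOh : O.IsHermitian)
    (x y : N × ψ → ℂ) (hx : InR G x) (hy : InR G y) :
    ‖ipr x ((up e O - dn N (ex v (up e O))).mulVec y)‖ ≤ 4 * δ * nm x * nm y := by
  rcases isEmpty_or_nonempty (N × ψ) with hem | hne
  · have : ipr x ((up e O - dn N (ex v (up e O))).mulVec y) = 0 := by
      unfold ipr; exact Finset.sum_of_isEmpty _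
    rw [this, norm_zero]
    have := lt3_nm_nonneg x
    have := lt3_nm_nonneg y
    positivity
  set G1 : Matrix (N × ψ) (N × ψ) ℂ := G ⊗ₖ (1 : Matrix ψ ψ ℂ) with hG1
  set A1 : Matrix (N × ψ) (N × ψ) ℂ := GA ⊗ₖ (1 : Matrix ψ ψ ℂ) with hA1
  set B1 : Matrix (N × ψ) (N × ψ) ℂ := GB ⊗ₖ (1 : Matrix ψ ψ ℂ) with hB1
  set U : Matrix (N × ψ) (N × ψ) ℂ := up e O with hU
  set O1 : Matrix ψ ψ ℂ := ex v U with hO1
  set T0 : Matrix (N × ψ) (N × ψ) ℂ := U - dn N O1 with hT0
  have hAG : GA * G = G := by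
    have := congrArg Matrix.conjTranspose h1
    rwa [Matrix.conjTranspose_mul, hGA.1.eq, hG.1.eq] at this
  have hGBr : G * GB = G := by
    have := congrArg Matrix.conjTranspose h2
    rwa [Matrix.conjTranspose_mul, hGB.1.eq, hG.1.eq] at this
  have hG1h : G1.conjTranspose = G1 := by
    rw [hG1, Matrix.conjTranspose_kronecker, hG.1.eq, Matrix.conjTranspose_one]
  have hA1h : A1.conjTranspose = A1 := by
    rw [hA1, Matrix.conjTranspose_kronecker, hGA.1.eq, Matrix.conjTranspose_one]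
  have hB1h : B1.conjTranspose = B1 := by
    rw [hB1, Matrix.conjTranspose_kronecker, hGB.1.eq, Matrix.conjTranspose_one]
  have hG1G1 : G1 * G1 = G1 := by
    rw [hG1, ← Matrix.mul_kronecker_mul, hG.2, Matrix.one_mul]
  have hA1G1 : A1 * G1 = G1 := by
    rw [hG1, hA1, ← Matrix.mul_kronecker_mul, hAG, Matrix.one_mul]
  have hB1G1 : B1 * G1 = G1 := by
    rw [hG1, hB1, ← Matrix.mul_kronecker_mul, h2, Matrix.one_mul]
  have hUh : U.conjTranspose = U := by rw [hU, lt3_up_star, hOh.eq]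
  have hO1h : O1.conjTranspose = O1 := by rw [hO1, lt3_ex_star, hUh]
  have hDh : (dn N O1).conjTranspose = dn N O1 := by
    rw [lt3_dn_kr, Matrix.conjTranspose_kronecker, hO1h, Matrix.conjTranspose_one]
  have hDG : dn N O1 * G1 = G1 * dn N O1 := by
    rw [lt3_dn_kr, hG1, ← Matrix.mul_kronecker_mul, ← Matrix.mul_kronecker_mul, Matrix.one_mul,
      Matrix.mul_one, Matrix.one_mul, Matrix.mul_one]
  have hUA : A1 * U = U * A1 := lt3_GA_comm e hA O
  set F : Matrix (N × ψ) (N × ψ) ℂ := G1 * T0 * G1 with hF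
  have hFh : F.IsHermitian := by
    have : F.conjTranspose = F := by
      rw [hF, Matrix.conjTranspose_mul, Matrix.conjTranspose_mul, hG1h, hT0,
        Matrix.conjTranspose_sub, hUh, hDh, Matrix.mul_assoc]
    exact this
  obtain ⟨μ, lam, Φ, hμ0, hlam, hΦ, hFΦ, hbd⟩ := lt3_eig hFh
  have hmain : μ ≤ 4 * δ := by
    rcases hμ0.eq_or_lt with h0 | hμ
    · rw [← h0]; positivity
    have hlam0 : (lam : ℂ) ≠ 0 := by
      intro h
      have h' : lam = 0 := by exact_mod_cast h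
      rw [h', abs_zero] at hlam
      exact hμ.ne hlam
    have hG1Φ : G1.mulVec Φ = Φ := by
      have h4 : G1.mulVec ((lam : ℂ) • Φ) = (lam : ℂ) • Φ := by
        rw [← hFΦ, Matrix.mulVec_mulVec, hF, ← Matrix.mul_assoc, ← Matrix.mul_assoc, hG1G1]
      rw [Matrix.mulVec_smul] at h4
      exact smul_right_injective _ hlam0 h4
    have hInΦ : InR G Φ := (lt3_InR G Φ).mpr hG1Φ
    have hnΦ : nm Φ = 1 := by unfold nm; rw [hΦ, Real.sqrt_one]
    -- the second vector
    set Φ' : (N × ψ) × N → ℂ := fun p => v p.1.1 * Φ (p.2, p.1.2) with hΦ'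
    have hsqΦ' : nsq Φ' = 1 := by
      have h4 : nsq Φ' = nsq v * nsq Φ := by
        unfold nsq
        simp only [Fintype.sum_prod_type, hΦ', norm_mul, mul_pow]
        rw [Finset.sum_mul]
        refine Finset.sum_congr rfl fun n _ => ?_
        simp_rw [← Finset.mul_sum]
        congr 1
        rw [Finset.sum_comm]
      rw [h4, hv, hΦ, one_mul]
    have hnΦ' : nm Φ' = 1 := by unfold nm; rw [hsqΦ', Real.sqrt_one]
    have hact : ∀ M : Matrix N N ℂ, M.mulVec v = v →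
        ((M ⊗ₖ (1 : Matrix ψ ψ ℂ)) ⊗ₖ (1 : Matrix N N ℂ)).mulVec Φ' = Φ' := by
      intro M hM
      funext ⟨⟨n, l⟩, t⟩
      simp only [Matrix.mulVec, dotProduct, Matrix.kroneckerMap_apply, Fintype.sum_prod_type, hΦ']
      have h4 : ∀ n' : N, ∑ l' : ψ, ∑ t' : N, M n n' * (1 : Matrix ψ ψ ℂ) l l' *
          (1 : Matrix N N ℂ) t t' * (v n' * Φ (t', l')) = M n n' * v n' * Φ (t, l) := by
        intro n'
        rw [Finset.sum_eq_single l]
        · rw [Finset.sum_eq_single t]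
          · simp; ring
          · intro t' _ ht'
            rw [Matrix.one_apply_ne ht'.symm]; simp
          · simp
        · intro l' _ hl'
          rw [Matrix.one_apply_ne hl'.symm]; simp
        · simp
      simp_rw [h4]
      rw [← Finset.sum_mul]
      congr 1
      exact congrFun hM n
    set G2 := G1 ⊗ₖ (1 : Matrix N N ℂ) with hG2
    set A2 := A1 ⊗ₖ (1 : Matrix N N ℂ) with hA2
    set B2 := B1 ⊗ₖ (1 : Matrix N N ℂ) with hB2
    set U2 := U ⊗ₖ (1 : Matrix N N ℂ) with hU2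
    set D2 := dn N O1 ⊗ₖ (1 : Matrix N N ℂ) with hD2
    set T2 := T0 ⊗ₖ (1 : Matrix N N ℂ) with hT2
    set F2 := F ⊗ₖ (1 : Matrix N N ℂ) with hF2
    have hG2Φ' : G2.mulVec Φ' = Φ' := hact G hGv
    have hA2Φ' : A2.mulVec Φ' = Φ' := hact GA (by rw [← hGv, Matrix.mulVec_mulVec, hAG])
    have hB2Φ' : B2.mulVec Φ' = Φ' := hact GB (by rw [← hGv, Matrix.mulVec_mulVec, h2])
    have hG2h : G2.conjTranspose = G2 := by
      rw [hG2, Matrix.conjTranspose_kronecker, hG1h, Matrix.conjTranspose_one]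
    have hA2h : A2.conjTranspose = A2 := by
      rw [hA2, Matrix.conjTranspose_kronecker, hA1h, Matrix.conjTranspose_one]
    have hB2h : B2.conjTranspose = B2 := by
      rw [hB2, Matrix.conjTranspose_kronecker, hB1h, Matrix.conjTranspose_one]
    have hFT : F2 = G2 * T2 * G2 := by
      rw [hF2, hG2, hT2, ← Matrix.mul_kronecker_mul, ← Matrix.mul_kronecker_mul, Matrix.one_mul,
        Matrix.one_mul]
    have hTUD : T2 = U2 - D2 := by
      rw [hT2, hU2, hD2, hT0]
      ext p q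
      simp [sub_mul]
    have hD2G2 : D2 * G2 = G2 * D2 := by
      rw [hD2, hG2, ← Matrix.mul_kronecker_mul, ← Matrix.mul_kronecker_mul, hDG]
    have hU2A2 : A2 * U2 = U2 * A2 := by
      rw [hA2, hU2, ← Matrix.mul_kronecker_mul, ← Matrix.mul_kronecker_mul, hUA]
    -- Uhlmann
    set e' := e.trans (Equiv.prodAssoc a b c).symm with he'
    obtain ⟨W, hW1, hW2, hW3⟩ := uhlmann (lt3_sl e' Φ) (lt3_sl' e' Φ') (1 / 8)
      (by rw [← lt3_ipr_sl, lt3_ipr_self, hΦ, Complex.ofReal_one])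
      (by rw [← lt3_ipr_sl', lt3_ipr_self, hsqΦ', Complex.ofReal_one])
      (by
        intro O' hO'
        rw [Matrix.mul_assoc, Matrix.mul_assoc, ← lt3_sl_up, ← lt3_sl'_up, ← lt3_ipr_sl,
          ← lt3_ipr_sl', lt3_exp, ← lt3_ipr_sub, ← Matrix.sub_mulVec]
        have := H O' hO' Φ Φ hInΦ hInΦ
        rwa [hnΦ, mul_one, mul_one] at this)
    rw [Matrix.mul_assoc, ← lt3_sl'_w, ← lt3_ipr_sl'] at hW3
    set ω := lt3_w e' W Φ with hω
    have hnω : nm ω ≤ 1 := by
      have := lt3_w_bound e' hW2 Φ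
      rwa [hnΦ, one_mul] at this
    have hcomT : ∀ z, lt3_w e' W (T0.mulVec z) = T2.mulVec (lt3_w e' W z) := by
      intro z
      obtain ⟨Y1, hY1⟩ := lt3_up_up (ψ := ψ) e O
      obtain ⟨Y2, hY2⟩ := lt3_dn_up e O1
      have h4 : T0 = up e' (Y1 - Y2) := by rw [hT0, hU, hY1, hY2, lt3_up_sub]
      rw [hT2, h4, lt3_comm]
    have hcomB : ∀ z, lt3_w e' W (B1.mulVec z) = B2.mulVec (lt3_w e' W z) := by
      intro z
      obtain ⟨Y1, hY1⟩ := lt3_GB_up (ψ := ψ) e hB
      rw [hB2, hB1, hY1, lt3_comm]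
    -- the distance of the two vectors
    have hdist : nm (ω - Φ') ^ 2 ≤ 1 / 8 := by
      have h4 : nm (ω - Φ') ^ 2 = nm ω ^ 2 + nm Φ' ^ 2 - 2 * (ipr Φ' ω).re := by
        rw [lt3_nm_norm, lt3_nm_norm, lt3_nm_norm, WithLp.toLp_sub, lt3_ipr_inner,
          @norm_sub_sq ℂ _ _ _ _ (WithLp.toLp 2 ω : EuclideanSpace ℂ ((N × ψ) × N))
            (WithLp.toLp 2 Φ')]
        have h5 : RCLike.re (inner ℂ (WithLp.toLp 2 ω : EuclideanSpace ℂ ((N × ψ) × N))
            (WithLp.toLp 2 Φ')) = (inner ℂ (WithLp.toLp 2 Φ' : EuclideanSpace ℂ ((N × ψ) × N))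
            (WithLp.toLp 2 ω)).re := inner_re_symm _ _
        rw [h5]
        ring
      rw [h4, hnΦ']
      have h5 : nm ω ^ 2 ≤ 1 := by
        have := lt3_nm_nonneg ω
        nlinarith
      linarith
    have hdist' : nm (ω - Φ') ≤ 3 / 8 := by
      have := lt3_nm_nonneg (ω - Φ')
      nlinarith
    have hadj : ∀ {M : Matrix ((N × ψ) × N) ((N × ψ) × N) ℂ}, M.conjTranspose = M →
        M.mulVec Φ' = Φ' → ∀ z, ipr Φ' (M.mulVec z) = ipr Φ' z := by
      intro M hM hMΦ z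
      have := lt3_adj M Φ' z
      rw [hM, hMΦ] at this
      exact this.symm
    -- first term
    set p := U.mulVec Φ with hp
    have hnp : nm p ≤ 1 := by
      have := lt3_up_bound e hO Φ
      rwa [hnΦ, one_mul] at this
    have hA1Φ : A1.mulVec Φ = Φ := by
      rw [← hG1Φ, Matrix.mulVec_mulVec, hA1G1]
    have hA1p : A1.mulVec p = p := by
      rw [hp, Matrix.mulVec_mulVec, hUA, ← Matrix.mulVec_mulVec, hA1Φ]
    have hDΦ : G1.mulVec ((dn N O1).mulVec Φ) = (dn N O1).mulVec Φ := by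
      rw [Matrix.mulVec_mulVec, ← hDG, ← Matrix.mulVec_mulVec, hG1Φ]
    have hu : T0.mulVec Φ - G1.mulVec (T0.mulVec Φ) = p - G1.mulVec p := by
      rw [hT0, Matrix.sub_mulVec, Matrix.mulVec_sub, hDΦ]
      abel
    have hAdjBound : ∀ z, nm ((GB * GA - G).mulVec z) ≤ δ * nm z := by
      have h4 : (GA * GB - G).conjTranspose = GB * GA - G := by
        rw [Matrix.conjTranspose_sub, Matrix.conjTranspose_mul, hGA.1.eq, hGB.1.eq, hG.1.eq]
      rw [← h4]
      exact lt3_adj_bound hδ fun z => lt3_nm_le hδ (h3 z)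
    have hE1 : ‖ipr Φ' (lt3_w e' W (p - G1.mulVec p))‖ ≤ δ := by
      have h4 : ipr Φ' (lt3_w e' W (p - G1.mulVec p)) =
          ipr Φ' (lt3_w e' W (((GB * GA - G) ⊗ₖ (1 : Matrix ψ ψ ℂ)).mulVec p)) := by
        rw [← hadj hB2h hB2Φ', ← hcomB]
        congr 2
        have h5 : (GB * GA - G) ⊗ₖ (1 : Matrix ψ ψ ℂ) = B1 * A1 - B1 * G1 * A1 := by
          rw [hA1, hB1, hG1, ← Matrix.mul_kronecker_mul, ← Matrix.mul_kronecker_mul,
            ← Matrix.mul_kronecker_mul, Matrix.one_mul, Matrix.one_mul, Matrix.mul_assoc GB G GA,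
            h1, h2]
          ext p q
          simp [sub_mul]
        rw [h5, Matrix.sub_mulVec, Matrix.mulVec_sub, ← Matrix.mulVec_mulVec, hA1p,
          ← Matrix.mulVec_mulVec, hA1p, ← Matrix.mulVec_mulVec]
      rw [h4]
      refine (lt3_cs _ _).trans ?_
      rw [hnΦ', one_mul]
      refine (lt3_w_bound e' hW2 _).trans ?_
      rw [one_mul]
      refine (lt3_kr_bound hδ hAdjBound p).trans ?_
      nlinarith
    -- second term
    have hB1Φ : B1.mulVec Φ = Φ := by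
      rw [← hG1Φ, Matrix.mulVec_mulVec, hB1G1]
    have hB2ω : B2.mulVec ω = ω := by
      rw [hω, ← hcomB, hB1Φ]
    have hE2 : ‖ipr Φ' (T2.mulVec (ω - G2.mulVec ω))‖ ≤ δ := by
      have h4 : ipr Φ' (D2.mulVec (ω - G2.mulVec ω)) = 0 := by
        rw [Matrix.mulVec_sub, lt3_ipr_sub, Matrix.mulVec_mulVec, hD2G2, ← Matrix.mulVec_mulVec,
          hadj hG2h hG2Φ', sub_self]
      have h5 : ipr Φ' (T2.mulVec (ω - G2.mulVec ω)) = ipr Φ' (U2.mulVec
          ((((GA * GB - G) ⊗ₖ (1 : Matrix ψ ψ ℂ)) ⊗ₖ (1 : Matrix N N ℂ)).mulVec ω)) := by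
        rw [hTUD, Matrix.sub_mulVec, lt3_ipr_sub, h4, sub_zero, ← hadj hA2h hA2Φ',
          Matrix.mulVec_mulVec, hU2A2, ← Matrix.mulVec_mulVec]
        congr 2
        have h6 : (((GA * GB - G) ⊗ₖ (1 : Matrix ψ ψ ℂ)) ⊗ₖ (1 : Matrix N N ℂ)) =
            A2 * B2 - A2 * G2 * B2 := by
          rw [hA2, hB2, hG2, ← Matrix.mul_kronecker_mul, ← Matrix.mul_kronecker_mul,
            ← Matrix.mul_kronecker_mul, hA1, hB1, hG1, ← Matrix.mul_kronecker_mul,
            ← Matrix.mul_kronecker_mul, ← Matrix.mul_kronecker_mul]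
          simp only [Matrix.one_mul]
          rw [hAG, hGBr]
          ext p q
          simp [sub_mul]
        rw [h6, Matrix.sub_mulVec, Matrix.mulVec_sub, ← Matrix.mulVec_mulVec, hB2ω,
          ← Matrix.mulVec_mulVec, hB2ω, ← Matrix.mulVec_mulVec]
      rw [h5]
      refine (lt3_cs _ _).trans ?_
      rw [hnΦ', one_mul]
      have h7 : nm (U2.mulVec ((((GA * GB - G) ⊗ₖ (1 : Matrix ψ ψ ℂ)) ⊗ₖ
          (1 : Matrix N N ℂ)).mulVec ω)) ≤ 1 * nm ((((GA * GB - G) ⊗ₖ (1 : Matrix ψ ψ ℂ)) ⊗ₖ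
          (1 : Matrix N N ℂ)).mulVec ω) :=
        lt3_kr_bound zero_le_one (fun z => lt3_up_bound e hO z) _
      refine h7.trans ?_
      rw [one_mul]
      have h8 := lt3_kr_bound (Y := N) hδ
        (fun z => lt3_kr_bound (Y := ψ) hδ (fun z => lt3_nm_le hδ (h3 z)) z) ω
      refine h8.trans ?_
      nlinarith
    -- third term
    have hE3 : ‖ipr Φ' (F2.mulVec (ω - Φ'))‖ ≤ μ * (3 / 8) := by
      refine (lt3_cs _ _).trans ?_
      rw [hnΦ', one_mul]
      refine (lt3_kr_bound hμ0 hbd (ω - Φ')).trans ?_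
      exact mul_le_mul_of_nonneg_left hdist' hμ0
    have hF2Φ' : ipr Φ' (F2.mulVec Φ') = 0 := by
      rw [hFT, Matrix.mul_assoc, ← Matrix.mulVec_mulVec, hadj hG2h hG2Φ', ← Matrix.mulVec_mulVec,
        hG2Φ', hT2, lt3_exp, hT0, lt3_ex_sub, lt3_ex_dn v hv, ← hO1, sub_self]
      have : dn N (0 : Matrix ψ ψ ℂ) = 0 := by
        ext p q; simp [dn]
      rw [this, Matrix.zero_mulVec]
      simp [ipr]
    have hT2G2 : ipr Φ' (T2.mulVec (G2.mulVec ω)) = ipr Φ' (F2.mulVec (ω - Φ')) := by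
      rw [Matrix.mulVec_sub, lt3_ipr_sub, hF2Φ', sub_zero, hFT, Matrix.mul_assoc,
        ← Matrix.mulVec_mulVec, hadj hG2h hG2Φ', ← Matrix.mulVec_mulVec]
    have hkey : (lam : ℂ) * ipr Φ' ω = ipr Φ' (F2.mulVec (ω - Φ')) +
        ipr Φ' (T2.mulVec (ω - G2.mulVec ω)) - ipr Φ' (lt3_w e' W (p - G1.mulVec p)) := by
      have h4 : (lam : ℂ) * ipr Φ' ω = ipr Φ' (lt3_w e' W (G1.mulVec (T0.mulVec Φ))) := by
        rw [hω, ← lt3_ipr_smul, ← lt3_w_smul, ← hFΦ, hF, ← Matrix.mulVec_mulVec,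
          ← Matrix.mulVec_mulVec, hG1Φ]
      have h5 : G1.mulVec (T0.mulVec Φ) = T0.mulVec Φ - (p - G1.mulVec p) := by
        rw [← hu]; abel
      have h6 : ipr Φ' (T2.mulVec (ω - G2.mulVec ω)) =
          ipr Φ' (T2.mulVec ω) - ipr Φ' (T2.mulVec (G2.mulVec ω)) := by
        rw [Matrix.mulVec_sub, lt3_ipr_sub]
      rw [h4, h5, lt3_w_sub, lt3_ipr_sub, hcomT, ← hω, ← hT2G2, h6]
      ring
    have hfin : ‖(lam : ℂ) * ipr Φ' ω‖ ≤ μ * (3 / 8) + δ + δ := by
      rw [hkey]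
      refine (norm_sub_le _ _).trans ?_
      refine add_le_add ((norm_add_le _ _).trans (add_le_add hE3 hE2)) hE1
    rw [norm_mul, Complex.norm_real, Real.norm_eq_abs, hlam] at hfin
    have hre : (15 : ℝ) / 16 ≤ ‖ipr Φ' ω‖ := by
      have := Complex.re_le_norm (ipr Φ' ω)
      linarith
    nlinarith
  -- conclusion
  have hx' := (lt3_InR G x).mp hx
  have hy' := (lt3_InR G y).mp hy
  have h4 : ipr x (T0.mulVec y) = ipr x (F.mulVec y) := by
    have h5 : ipr x (F.mulVec y) = ipr (G1.mulVec x) (T0.mulVec (G1.mulVec y)) := by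
      rw [lt3_adj, hG1h, Matrix.mulVec_mulVec, Matrix.mulVec_mulVec, hF]
    rw [h5, hx', hy']
  rw [h4]
  refine (lt3_cs _ _).trans ?_
  have h5 := hbd y
  have h6 := lt3_nm_nonneg x
  have h7 := lt3_nm_nonneg y
  calc nm x * nm (F.mulVec y) ≤ nm x * (μ * nm y) := mul_le_mul_of_nonneg_left h5 h6
    _ ≤ nm x * (4 * δ * nm y) :=
        mul_le_mul_of_nonneg_left (mul_le_mul_of_nonneg_right hmain h7) h6
    _ = 4 * δ * nm x * nm y := by ring

end Main

/-- LT3 (improvement of the error); uses LT1. -/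
theorem improve {a b c N : Type} [Fintype a] [Fintype b] [Fintype c] [Fintype N] [DecidableEq a]
    [DecidableEq b] [DecidableEq c] [DecidableEq N] (e : N ≃ a × b × c) (G GA GB : Matrix N N ℂ)
    (hG : IsPr G) (hGA : IsPr GA) (hGB : IsPr GB) (v : N → ℂ) (hv : nsq v = 1)
    (hGv : G.mulVec v = v) (hA : Act (fun n => (e n).2) (fun n => (e n).1) GA)
    (hB : Act (fun n => ((e n).1, (e n).2.1)) (fun n => (e n).2.2) GB) (h1 : G * GA = G)
    (h2 : GB * G = G) {δ : ℝ} (hδ : 0 ≤ δ)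
    (h3 : ∀ x, nsq ((GA * GB - G).mulVec x) ≤ δ ^ 2 * nsq x)
    (H : ∀ (ψ : Type) [Fintype ψ] [DecidableEq ψ],
      Ind (e.trans (Equiv.prodAssoc a b c).symm) G v ψ (1 / 8))
    (ψ : Type) [Fintype ψ] [DecidableEq ψ] : Ind e G v ψ (8 * δ) := by
  intro O hO x y hx hy
  -- the hermitian parts
  set Hp : Matrix (a × ψ) (a × ψ) ℂ := (1 / 2 : ℂ) • (O + O.conjTranspose) with hHp
  set Kp : Matrix (a × ψ) (a × ψ) ℂ := (-Complex.I / 2 : ℂ) • (O - O.conjTranspose) with hKp
  have hOs : ∀ z, nm (O.conjTranspose.mulVec z) ≤ 1 * nm z :=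
    lt3_adj_bound zero_le_one (lt3_contr_iff.mp hO)
  have hHc : Contr Hp := by
    rw [lt3_contr_iff]
    intro z
    rw [hHp, Matrix.smul_mulVec, lt3_nm_smul, Matrix.add_mulVec]
    have h4 := lt3_nm_add (O.mulVec z) (O.conjTranspose.mulVec z)
    have h5 := (lt3_contr_iff.mp hO) z
    have h6 := hOs z
    have h7 : ‖(1 / 2 : ℂ)‖ = 1 / 2 := by norm_num
    rw [h7]
    linarith
  have hKc : Contr Kp := by
    rw [lt3_contr_iff]
    intro z
    rw [hKp, Matrix.smul_mulVec, lt3_nm_smul, Matrix.sub_mulVec]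
    have h4 := lt3_nm_sub (O.mulVec z) (O.conjTranspose.mulVec z)
    have h5 := (lt3_contr_iff.mp hO) z
    have h6 := hOs z
    have h7 : ‖(-Complex.I / 2 : ℂ)‖ = 1 / 2 := by
      rw [norm_div, norm_neg, Complex.norm_I]; norm_num
    rw [h7]
    linarith
  have hHh : Hp.IsHermitian := by
    have : Hp.conjTranspose = Hp := by
      rw [hHp, Matrix.conjTranspose_smul, Matrix.conjTranspose_add,
        Matrix.conjTranspose_conjTranspose, add_comm]
      congr 1
      simp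
    exact this
  have hKh : Kp.IsHermitian := by
    have : Kp.conjTranspose = Kp := by
      rw [hKp, Matrix.conjTranspose_smul, Matrix.conjTranspose_sub,
        Matrix.conjTranspose_conjTranspose]
      have h4 : star (-Complex.I / 2 : ℂ) = -(-Complex.I / 2) := by
        simp
        ring
      rw [h4, neg_smul, ← smul_neg, neg_sub]
    exact this
  have hO' : O = Hp + Complex.I • Kp := by
    rw [hHp, hKp, smul_smul]
    have h4 : Complex.I * (-Complex.I / 2) = (1 / 2 : ℂ) := by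
      have := Complex.I_mul_I
      linear_combination (-1 / 2 : ℂ) * this
    rw [h4, ← smul_add]
    ext p q
    simp
    ring
  have hup : up e O = up e Hp + Complex.I • up e Kp := by
    conv_lhs => rw [hO']
    rw [lt3_up_add, ← lt3_up_smul e Complex.I Kp]
  have hex : dn N (ex v (up e O)) = dn N (ex v (up e Hp)) + Complex.I • dn N (ex v (up e Kp)) := by
    rw [hup, lt3_ex_add, lt3_ex_smul]
    ext p q
    simp only [dn, Matrix.add_apply, Matrix.smul_apply]
    split_ifs <;> simp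
  have hdec : (up e O - dn N (ex v (up e O))).mulVec y =
      (up e Hp - dn N (ex v (up e Hp))).mulVec y +
        Complex.I • (up e Kp - dn N (ex v (up e Kp))).mulVec y := by
    rw [hex, hup, ← Matrix.smul_mulVec, ← Matrix.add_mulVec]
    congr 1
    rw [smul_sub]
    abel
  rw [hdec, lt3_ipr_add, lt3_ipr_smul]
  refine (norm_add_le _ _).trans ?_
  rw [norm_mul, Complex.norm_I, one_mul]
  have h4 := lt3_herm e G GA GB hG hGA hGB v hv hGv hA hB h1 h2 hδ h3 (H ψ) Hp hHc hHh x y hx hy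
  have h5 := lt3_herm e G GA GB hG hGA hGB v hv hGv hA hB h1 h2 hδ h3 (H ψ) Kp hKc hKh x y hx hy
  linarith

end Pool.Agent.FFG.LT
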