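import Pool.Agent.FFG.LT.Defs

/-!
# From topological order to the hypothesis of the factorization lemma
-/

open Finset
open scoped ComplexOrder

set_option autoImplicit false
set_option linter.unusedSectionVars false
set_option linter.unusedVariables false

namespace Pool.Agent.FFG.LT

section Abstract

variable {X Y Z m c N ψ : Type} [Fintype X] [Fintype Y] [Fintype Z] [Fintype m] [Fintype c]
  [Fintype N] [Fintype ψ] [DecidableEq X] [DecidableEq Y] [DecidableEq Z] [DecidableEq m]
  [DecidableEq c] [DecidableEq N] [DecidableEq ψ]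

theorem lt8_nsq_equiv (e : X ≃ Y) (x : Y → ℂ) : nsq (x ∘ e) = nsq x := by
  unfold nsq
  exact Equiv.sum_comp e (fun i => ‖x i‖ ^ 2)

theorem lt8_nm_equiv (e : X ≃ Y) (x : Y → ℂ) : nm (x ∘ e) = nm x := by
  unfold nm
  rw [lt8_nsq_equiv]

theorem lt8_ipr_equiv (e : X ≃ Y) (x y : Y → ℂ) : ipr (x ∘ e) (y ∘ e) = ipr x y := by
  unfold ipr
  exact Equiv.sum_comp e (fun i => star (x i) * y i)

theorem lt8_mulVec_equiv (e : X ≃ Y) (T : Matrix Y Y ℂ) (y : Y → ℂ) :
    (Matrix.mulVec (T.submatrix e e) (y ∘ e)) = (T.mulVec y) ∘ e := by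
  funext i
  simp only [Matrix.mulVec, dotProduct, Matrix.submatrix_apply, Function.comp]
  exact Equiv.sum_comp e (fun j => T (e i) j * y j)

/-- `up` preserves contractions. -/
theorem lt8_contr_up (e : N ≃ m × c) (O : Matrix (m × ψ) (m × ψ) ℂ) (hO : Contr O) :
    Contr (up e O) := by
  intro y
  -- slices
  have key : ∀ (w : N × ψ → ℂ), nsq w = ∑ k : c, nsq (fun p : m × ψ => w (e.symm (p.1, k), p.2)) := by
    intro w
    unfold nsq
    rw [Fintype.sum_prod_type]
    rw [← Equiv.sum_comp e.symm]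
    rw [Fintype.sum_prod_type]
    rw [Finset.sum_comm]
    refine Finset.sum_congr rfl fun k _ => ?_
    rw [Fintype.sum_prod_type]
  rw [key, key y]
  refine Finset.sum_le_sum fun k _ => ?_
  have h1 : (fun p : m × ψ => (up e O).mulVec y (e.symm (p.1, k), p.2)) =
      O.mulVec (fun p : m × ψ => y (e.symm (p.1, k), p.2)) := by
    funext p
    simp only [Matrix.mulVec, dotProduct, up]
    rw [Fintype.sum_prod_type, ← Equiv.sum_comp e.symm, Fintype.sum_prod_type,
      Fintype.sum_prod_type]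
    refine Finset.sum_congr rfl fun a _ => ?_
    simp only [Equiv.apply_symm_apply, ite_mul, zero_mul]
    rw [Finset.sum_comm]
    refine Finset.sum_congr rfl fun l _ => ?_
    rw [Finset.sum_ite_eq]
    simp
  rw [h1]
  exact hO _

end Abstract

section Torus

open Pool.Agent.PEPS953

variable {d L r : ℕ} [NeZero L]

/-- LT8 (from topological order to the hypothesis `H` of LT2, with `e` as in LT3). -/
theorem topOrd_abs {h : Matrix (LConf d r) (LConf d r) ℂ} {ρ : ℕ} {ε : ℝ}
    (TO : TopOrd L h ρ ε) (x₀ y₀ : ZMod L) (a b : ℕ) (ha : 4 * a ≤ L) (hb : 4 * b ≤ L)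
    {M₀ M K : Finset (Site L)} (hM : M = bx x₀ y₀ a b) (hK : K = ball ρ M) (h0 : M₀ ⊆ M)
    (h1 : M ⊆ K) (G : Matrix (CK d K) (CK d K) ℂ)
    (hG : ∀ x : CK d K × CK d Kᶜ → ℂ, InR G x ↔ Zero h (inn L r K) (x ∘ eF d K))
    (O : Matrix ((CK d M₀ × CK d (M \ M₀)) × CK d Kᶜ) ((CK d M₀ × CK d (M \ M₀)) × CK d Kᶜ) ℂ)
    (hO : Contr O) :
    ∃ O₁ : Matrix (CK d Kᶜ) (CK d Kᶜ) ℂ, ∀ x y : CK d K × CK d Kᶜ → ℂ, InR G x → InR G y →
      ‖ipr x ((up ((eN d h0 h1).trans (Equiv.prodAssoc _ _ _).symm) O -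
        dn (CK d K) O₁).mulVec y)‖ ≤ ε * nm x * nm y := by
  classical
  set E : CK d K ≃ (CK d M₀ × CK d (M \ M₀)) × CK d (K \ M) :=
    (eN d h0 h1).trans (Equiv.prodAssoc _ _ _).symm with hE
  set Os : Matrix (Conf d L) (Conf d L) ℂ := (up E O).submatrix (eF d K) (eF d K) with hOs
  have hc : Contr Os := by
    intro y
    have h2 : Os.mulVec y = ((up E O).mulVec (y ∘ (eF d K).symm)) ∘ eF d K := by
      rw [← lt8_mulVec_equiv]
      congr 1
      funext s
      simp
    rw [h2, lt8_nsq_equiv]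
    refine (lt8_contr_up E O hO _).trans ?_
    rw [lt8_nsq_equiv (eF d K).symm y]
  -- the restriction maps
  have hact : Acts (M ∪ Kᶜ) Os := by
    -- `R = M ∪ Kᶜ`
    refine ⟨fun t t' => O ((fun u => t ⟨u, mem_union_left _ (h0 u.2)⟩,
        fun u => t ⟨u, mem_union_left _ (mem_sdiff.mp u.2).1⟩),
        fun u => t ⟨u, mem_union_right _ u.2⟩)
      ((fun u => t' ⟨u, mem_union_left _ (h0 u.2)⟩,
        fun u => t' ⟨u, mem_union_left _ (mem_sdiff.mp u.2).1⟩),
        fun u => t' ⟨u, mem_union_right _ u.2⟩), ?_⟩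
    intro s s'
    have h3 : Os s s' = if (fun u : (K \ M : Finset (Site L)) => s u) =
        (fun u : (K \ M : Finset (Site L)) => s' u) then
        O ((fun u => s u, fun u => s u), fun u => s u)
          ((fun u => s' u, fun u => s' u), fun u => s' u) else 0 := rfl
    rw [h3]
    have h4 : ((fun u : (K \ M : Finset (Site L)) => s u) =
        (fun u : (K \ M : Finset (Site L)) => s' u)) ↔
        ∀ u, u ∉ M ∪ Kᶜ → s u = s' u := by
      constructor
      · intro h u hu
        have hu' : u ∈ K \ M := by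
          rw [mem_union, mem_compl, not_or, not_not] at hu
          exact mem_sdiff.mpr ⟨hu.2, hu.1⟩
        exact congrFun h ⟨u, hu'⟩
      · intro h
        funext u
        refine h u ?_
        have hu := mem_sdiff.mp u.2
        rw [mem_union, mem_compl, not_or, not_not]
        exact ⟨hu.2, hu.1⟩
    by_cases h5 : ∀ u, u ∉ M ∪ Kᶜ → s u = s' u
    · rw [if_pos (h4.mpr h5), if_pos h5]
    · rw [if_neg (fun h => h5 (h4.mp h)), if_neg h5]
  subst hM
  obtain ⟨O1s, ⟨m, hm⟩, hO1⟩ := TO x₀ y₀ a b ha hb Os hc (by rw [← hK]; exact hact)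
  subst hK
  refine ⟨fun t t' => m t t', fun x y hx hy => ?_⟩
  have h6 := hO1 (x ∘ eF d _) (y ∘ eF d _) ((hG x).mp hx) ((hG y).mp hy)
  rw [lt8_nm_equiv, lt8_nm_equiv] at h6
  refine le_trans (le_of_eq ?_) h6
  congr 1
  have h7 : Os - O1s = (up E O - dn (CK d (ball ρ (bx x₀ y₀ a b))) (fun t t' => m t t')).submatrix
      (eF d _) (eF d _) := by
    ext s s'
    have h8 : O1s s s' = (dn (CK d (ball ρ (bx x₀ y₀ a b))) (fun t t' => m t t'))
        (eF d _ s) (eF d _ s') := by
      rw [hm s s']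
      have h9 : dn (CK d (ball ρ (bx x₀ y₀ a b))) (fun t t' => m t t') (eF d _ s) (eF d _ s') =
          if (fun u : (ball ρ (bx x₀ y₀ a b)) => s u) =
            (fun u : (ball ρ (bx x₀ y₀ a b)) => s' u) then
            m (fun u => s u) (fun u => s' u) else 0 := rfl
      rw [h9]
      have h10 : ((fun u : (ball ρ (bx x₀ y₀ a b)) => s u) =
          (fun u : (ball ρ (bx x₀ y₀ a b)) => s' u)) ↔
          ∀ u, u ∉ (ball ρ (bx x₀ y₀ a b))ᶜ → s u = s' u := by
        constructor
        · intro h u hu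
          rw [mem_compl, not_not] at hu
          exact congrFun h ⟨u, hu⟩
        · intro h
          funext u
          refine h u ?_
          rw [mem_compl, not_not]
          exact u.2
      by_cases h11 : ∀ u, u ∉ (ball ρ (bx x₀ y₀ a b))ᶜ → s u = s' u
      · rw [if_pos (h10.mpr h11), if_pos h11]
      · rw [if_neg (fun h => h11 (h10.mp h)), if_neg h11]
    rw [Matrix.sub_apply, h8]
    rfl
  rw [h7, lt8_mulVec_equiv, lt8_ipr_equiv]

end Torus

end Pool.Agent.FFG.LT
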