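import Pool.Agent.FFG.LT.Arcs
import Pool.Agent.FFG.LT.Smith
import Pool.Agent.FFG.LT.Improve
import Pool.Agent.FFG.LT.GlueNear
import Pool.Agent.FFG.LT.AbsOps
import Pool.Agent.FFG.LT.TopAbs
import Pool.Agent.FFG.LT.ToaInd

/-!
# From topological order to topological order with a reference system
-/

open Finset
open scoped ComplexOrder

set_option autoImplicit false
set_option linter.unusedSectionVars false
set_option linter.unusedVariables false

namespace Pool.Agent.FFG.LT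

open Pool.Agent.PEPS953

section Torus

variable {d L r : ℕ} [NeZero L]

theorem lt10_mem_ball {ρ : ℕ} {M : Finset (Site L)} {u : Site L} :
    u ∈ ball ρ M ↔ ∃ v ∈ M, sdist v u ≤ ρ := by
  simp [ball]

theorem lt10_mem_bx {x y : ZMod L} {a b : ℕ} {u : Site L} :
    u ∈ bx x y a b ↔ (u.1 - x).val < a ∧ (u.2 - y).val < b := by
  simp [bx]

theorem lt10_sdist_le {u v : Site L} {w : ℕ} :
    sdist u v ≤ w ↔ cdist u.1 v.1 ≤ w ∧ cdist u.2 v.2 ≤ w := by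
  unfold sdist
  exact max_le_iff

/-- The neighbourhood of a rectangle is a rectangle. -/
theorem lt10_ball_bx (x y : ZMod L) {a b w : ℕ} (ha : 0 < a) (hb : 0 < b) (ha2 : a + 2 * w ≤ L)
    (hb2 : b + 2 * w ≤ L) :
    ball w (bx x y a b) = bx (x - (w : ZMod L)) (y - (w : ZMod L)) (a + 2 * w) (b + 2 * w) := by
  ext u
  rw [lt10_mem_ball, lt10_mem_bx, ← arc_nbhd x ha ha2, ← arc_nbhd y hb hb2]
  constructor
  · rintro ⟨v, hv, hvu⟩
    rw [lt10_mem_bx] at hv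
    rw [lt10_sdist_le] at hvu
    exact ⟨⟨v.1, hv.1, hvu.1⟩, ⟨v.2, hv.2, hvu.2⟩⟩
  · rintro ⟨⟨s, hs, hs2⟩, ⟨t, ht, ht2⟩⟩
    refine ⟨(s, t), ?_, ?_⟩
    · rw [lt10_mem_bx]
      exact ⟨hs, ht⟩
    · rw [lt10_sdist_le]
      exact ⟨hs2, ht2⟩

theorem lt10_ball_ball (ρ₀ ρ₁ : ℕ) (M : Finset (Site L)) :
    ball ρ₀ (ball ρ₁ M) ⊆ ball (ρ₀ + ρ₁) M := by
  intro u hu
  rw [lt10_mem_ball] at hu ⊢
  obtain ⟨v, hv, hvu⟩ := hu
  rw [lt10_mem_ball] at hv
  obtain ⟨v', hv', hvv⟩ := hv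
  refine ⟨v', hv', (sdist_triangle v' v u).trans ?_⟩
  omega

theorem lt10_sub_ball (ρ : ℕ) (M : Finset (Site L)) : M ⊆ ball ρ M := by
  intro u hu
  rw [lt10_mem_ball]
  exact ⟨u, hu, by rw [sdist_self']; exact Nat.zero_le _⟩

theorem lt10_card_arc (x : ZMod L) (a : ℕ) :
    (univ.filter fun u : ZMod L => (u - x).val < a).card ≤ a := by
  have h1 : (univ.filter fun u : ZMod L => (u - x).val < a).card ≤ (range a).card := by
    refine card_le_card_of_injOn (fun u => (u - x).val) ?_ ?_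
    · intro u hu
      simp only [coe_filter, mem_univ, true_and, Set.mem_ofPred_eq] at hu
      simpa using hu
    · intro u hu v hv huv
      have := ZMod.val_injective L huv
      exact sub_left_injective this
  rwa [card_range] at h1

theorem lt10_card_bx (x y : ZMod L) (a b : ℕ) : (bx x y a b).card ≤ a * b := by
  have h1 : bx x y a b = (univ.filter fun u : ZMod L => (u - x).val < a) ×ˢ
      (univ.filter fun u : ZMod L => (u - y).val < b) := by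
    ext u
    rw [lt10_mem_bx, mem_product]
    simp
  rw [h1, card_product]
  exact Nat.mul_le_mul (lt10_card_arc x a) (lt10_card_arc y b)

theorem lt10_ball_mono {ρ : ℕ} {M M' : Finset (Site L)} (h : M ⊆ M') : ball ρ M ⊆ ball ρ M' := by
  intro u hu
  rw [lt10_mem_ball] at hu ⊢
  obtain ⟨v, hv, hvu⟩ := hu
  exact ⟨v, h hv, hvu⟩

theorem lt10_boxPos_zero (hr : 0 < r) (v : Site L) :
    boxPos L r v (⟨0, hr⟩, ⟨0, hr⟩) = v := by
  unfold boxPos
  refine Prod.ext ?_ ?_ <;> simp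

theorem toa_of_topOrd (hd : 2 ≤ d) (hr : 0 < r) (hrL : r ≤ L)
    {h : Matrix (LConf d r) (LConf d r) ℂ} (hh : h.PosSemidef) {γ : ℝ} (hγ : 0 < γ)
    (UG : ∀ (x y : ZMod L) (a b : ℕ), 2 * a ≤ L → 2 * b ≤ L → GapAt h (inn L r (bx x y a b)) γ)
    {q ρ₀ ρ₁ : ℕ}
    (hρ : (q * (4 * r ^ 2) + 4) * r ≤ ρ₁) (hL : 24 * (ρ₀ + ρ₁ + 1) ≤ L)
    (TO : TopOrd L h ρ₀ (1 / 16)) {Ψ : Hil d L} (hΨ : Ψ ≠ 0) (hΨ0 : hamOn h univ Ψ = 0) {δ : ℝ}
    (hδ : 0 ≤ δ) (hδ2 : ((1 + γ / (entNorm h + 1) / ((4 * r ^ 2 : ℕ) : ℝ) ^ 2)⁻¹) ^ q ≤ δ ^ 2) :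
    TOA L h (L / 6) (ρ₀ + ρ₁) (8 * δ) := by
  intro x y a b ha hb R hR κ _ _ O hO hact
  by_cases hne : 0 < a ∧ 0 < b
  · obtain ⟨ha0, hb0⟩ := hne
    obtain ⟨M₀, hM₀⟩ : ∃ M₀, M₀ = bx x y a b := ⟨_, rfl⟩
    obtain ⟨M, hM⟩ : ∃ M, M = bx (x - (ρ₁ : ZMod L)) (y - (ρ₁ : ZMod L)) (a + 2 * ρ₁)
      (b + 2 * ρ₁) := ⟨_, rfl⟩
    obtain ⟨K, hK⟩ : ∃ K, K = ball ρ₀ M := ⟨_, rfl⟩
    have hMb : ball ρ₁ M₀ = M := by
      rw [hM₀, hM]
      exact lt10_ball_bx x y ha0 hb0 (by omega) (by omega)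
    have h0 : M₀ ⊆ M := hMb ▸ lt10_sub_ball ρ₁ M₀
    have h1 : M ⊆ K := hK ▸ lt10_sub_ball ρ₀ M
    have hKb : K ⊆ ball (ρ₀ + ρ₁) M₀ := by
      rw [hK, ← hMb]
      exact lt10_ball_ball ρ₀ ρ₁ M₀
    have hRK : Disjoint R K := by
      rw [Finset.disjoint_left]
      intro u hu hu2
      have h2 := hKb hu2
      rw [lt10_mem_ball] at h2
      obtain ⟨v, hv, hvu⟩ := h2
      have h3 := hR u hu v (hM₀ ▸ hv)
      omega
    have e1 : K = bx (x - (ρ₁ : ZMod L) - (ρ₀ : ZMod L)) (y - (ρ₁ : ZMod L) - (ρ₀ : ZMod L))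
        (a + 2 * ρ₁ + 2 * ρ₀) (b + 2 * ρ₁ + 2 * ρ₀) := by
      rw [hK, hM]
      exact lt10_ball_bx _ _ (by omega) (by omega) (by omega) (by omega)
    have hgap : GapAt h (inn L r K) γ := by
      rw [e1]
      exact UG _ _ _ _ (by omega) (by omega)
    -- the number of sites of `K`
    have hKc : K.card ≤ Kᶜ.card := by
      have h2 : K.card ≤ (a + 2 * ρ₁ + 2 * ρ₀) * (b + 2 * ρ₁ + 2 * ρ₀) := by
        rw [e1]
        exact lt10_card_bx _ _ _ _
      have h3 : (a + 2 * ρ₁ + 2 * ρ₀) * (b + 2 * ρ₁ + 2 * ρ₀) ≤ (L / 2) * (L / 2) :=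
        Nat.mul_le_mul (by omega) (by omega)
      have h4 : (L / 2) * (L / 2) * 2 ≤ L * L := by
        have h5 : L / 2 * 2 ≤ L := Nat.div_mul_le_self _ _
        calc (L / 2) * (L / 2) * 2 = (L / 2) * (L / 2 * 2) := by ring
          _ ≤ L * L := Nat.mul_le_mul (Nat.div_le_self _ _) h5
      have h5 : Kᶜ.card = L * L - K.card := by
        rw [card_compl, Fintype.card_prod, ZMod.card]
      omega
    have hcard : Fintype.card (CK d K) ≤ Fintype.card (CK d Kᶜ) := by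
      unfold CK
      simp only [Fintype.card_fun, Fintype.card_fin, Fintype.card_coe]
      exact Nat.pow_le_pow_right (by omega) hKc
    -- the operators
    have hgl := glue_near hr hrL hh hγ q ρ₁ hρ M₀ M hMb.le (inn L r K) hgap
    have hgl2 := hgl.2.trans hδ2
    have hgl3 : ‖GA (L := L) h ((inn L r K).filter fun v => ∀ p, boxPos L r v p ∉ M₀) *
        GA h ((inn L r K).filter fun v => ∀ p, boxPos L r v p ∈ M) - GA h (inn L r K)‖ ≤ δ :=
      (pow_le_pow_iff_left₀ (norm_nonneg _) hδ two_ne_zero).1 hgl2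
    obtain ⟨G, A, B, v, hG, hA, hB, hv, hGv, hGA, hBG, hAB, hactA, hactB, hGF, hGE⟩ :=
      abs_ops (by omega) hrL hh h0 h1 hδ hgl3 Ψ hΨ hΨ0
    have hind : ∀ (ψ : Type) [Fintype ψ] [DecidableEq ψ],
        Ind ((eN d h0 h1).trans (Equiv.prodAssoc _ _ _).symm) G v ψ (1 / 8) := by
      intro ψ _ _
      have h2 := smith ((eN d h0 h1).trans (Equiv.prodAssoc _ _ _).symm) G hG v hv hGv (1 / 16)
        hcard (fun O hO => topOrd_abs TO _ _ _ _ (by omega) (by omega) hM hK h0 h1 G hGF O hO) ψ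
      rwa [show (2 : ℝ) * (1 / 16) = 1 / 8 by norm_num] at h2
    have himp : Ind (eN d h0 h1) G v (CK d Kᶜ × κ) (8 * δ) :=
      improve (eN d h0 h1) G A B hG hA hB v hv hGv hactA hactB hGA hBG hδ hAB hind _
    obtain ⟨O₁, hO₁, hactO, hfin⟩ := toa_of_ind (by omega) h0 h1 hRK G v hv κ himp O hO
      (hM₀ ▸ hact)
    refine ⟨O₁, hO₁, hactO, fun φ χ hφ hχ => ?_⟩
    have key : ∀ φ : Conf d L × κ → ℂ, ZeroA h (ball (ρ₀ + ρ₁) (bx x y a b)) φ →
        InR G (φ ∘ (eE d K κ).symm) := by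
      intro φ hφ
      rw [hGE κ]
      have e2 : (φ ∘ (eE d K κ).symm) ∘ eE d K κ = φ := by
        funext p
        simp
      rw [e2]
      intro k v hv
      refine hφ k v ?_
      rw [← hM₀]
      refine hKb ?_
      have h3 := (mem_filter.1 hv).2 (⟨0, hr⟩, ⟨0, hr⟩)
      rwa [lt10_boxPos_zero] at h3
    exact hfin φ χ (key φ hφ) (key χ hχ)
  · have hM₀ : bx x y a b = ∅ := by
      ext u
      rw [lt10_mem_bx]
      simp only [Finset.notMem_empty, iff_false]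
      rintro ⟨h1, h2⟩
      exact hne ⟨by omega, by omega⟩
    rw [hM₀, Finset.empty_union] at hact
    refine ⟨O, hO, hact, fun φ χ _ _ => ?_⟩
    rw [sub_self, Matrix.zero_mulVec]
    have h1 : ipr φ (0 : Conf d L × κ → ℂ) = 0 := by
      unfold ipr
      simp
    rw [h1, norm_zero]
    have h2 : 0 ≤ nm φ := Real.sqrt_nonneg _
    have h3 : 0 ≤ nm χ := Real.sqrt_nonneg _
    positivity

end Torus

end Pool.Agent.FFG.LT
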