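import Pool.Agent.FFG.LT.Final
import Pool.Agent.FFG.LT.Toa
import Pool.Agent.FFG.LT.Quadtree
import Pool.Agent.FFG.LT.DimLt
import Pool.Agent.FFG.LT.Plain

/-!
# Topological order implies few zero-energy states
-/

open Finset
open scoped ComplexOrder

set_option autoImplicit false
set_option linter.unusedSectionVars false
set_option linter.unusedVariables false

namespace Pool.Agent.FFG.LT

open Pool.Agent.PEPS953

theorem fewZero_of_topOrd {d r : ℕ} (hd : 2 ≤ d) (hr : 0 < r)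
    {h : Matrix (LConf d r) (LConf d r) ℂ} (hh : h.PosSemidef) (k₀ : ℕ) {C₀ : ℝ} (hC₀ : 0 < C₀)
    (k₁ : ℕ) (C₁ : ℝ) :
    ∃ (C₂ : ℝ) (L₀ : ℕ), ∀ (L : ℕ) [NeZero L], L₀ ≤ L →
      (∀ (x y : ZMod L) (a b : ℕ), 2 * a ≤ L → 2 * b ≤ L →
        GapAt h (inn L r (bx x y a b)) (1 / (C₀ * (Real.log L) ^ k₀))) →
      ∀ ρ₀ : ℕ, (ρ₀ : ℝ) ≤ C₁ * (Real.log L) ^ k₁ → TopOrd L h ρ₀ (1 / 16) →
      (∃ Ψ : Hil d L, Ψ ≠ 0 ∧ hamOn h univ Ψ = 0) →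
      FewZero L h (C₂ * (Real.log L) ^ (2 * (k₀ + k₁ + 1) + 1)) := by
  refine lt18_of_facts hd hr ?_ ?_ ?_ k₀ hC₀ k₁ C₁
  · rintro L _ hrL γ hγ UG q ρ₀ ρ₁ hρ hL TO ⟨Ψ, hΨ, hΨ0⟩ δ hδ hδ2
    exact toa_of_topOrd hd hr hrL hh hγ UG hρ hL TO hΨ hΨ0 hδ hδ2
  · intro L _ w hw hL S
    exact quadtree w hw hL S
  · intro L _ hrL ℓ w ε hε H S n n' A B C hA hB hC hn hn' hδ
    exact dim_lt hd hrL hh hε H S A B C hA hB hC hn hn' hδ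

end Pool.Agent.FFG.LT
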