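import Pool.Agent.FFG.LT.Defs
import Pool.Agent.FFG.Pos

/-!
# Dyadic intervals and arcs
-/

open Finset

set_option autoImplicit false
set_option linter.unusedSectionVars false
set_option linter.unusedVariables false

namespace Pool.Agent.FFG.LT

open Pool.Agent.PEPS953

section Torus

variable {L : ℕ} [NeZero L]

theorem lt11_add_val (z : ZMod L) (i : ℕ) (hi : i ≤ L) :
    (z + (i : ZMod L)).val = if z.val + i < L then z.val + i else z.val + i - L := by
  have hL : 0 < L := NeZero.pos L
  have hz : z.val < L := ZMod.val_lt z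
  rw [ZMod.val_add, ZMod.val_natCast, Nat.add_mod_mod]
  split_ifs with h
  · exact Nat.mod_eq_of_lt h
  · rw [Nat.mod_eq_sub_mod (by omega), Nat.mod_eq_of_lt (by omega)]

theorem lt11_sub_val (z : ZMod L) (i : ℕ) (hi : i ≤ L) :
    (z - (i : ZMod L)).val = if i ≤ z.val then z.val - i else z.val + L - i := by
  have hL : 0 < L := NeZero.pos L
  have hz : z.val < L := ZMod.val_lt z
  have e : z - (i : ZMod L) = z + ((L - i : ℕ) : ZMod L) := by
    rw [Nat.cast_sub hi, ZMod.natCast_self]
    ring
  rw [e, lt11_add_val _ _ (Nat.sub_le _ _)]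
  split_ifs with h1 h2 h2 <;> omega

theorem dx_nested (k : ℕ) (x : ZMod L) : dx L k x = dx L (k + 1) x / 2 := by
  unfold dx
  rw [Nat.div_div_eq_div_mul, pow_succ, ← mul_assoc, Nat.mul_div_mul_right _ _ (by norm_num)]

theorem dx_lt (k : ℕ) (x : ZMod L) : dx L k x < 2 ^ k := by
  unfold dx
  refine Nat.div_lt_of_lt_mul ?_
  exact Nat.mul_lt_mul_of_pos_right (ZMod.val_lt x) (by positivity)

theorem lt11_arc_val (x : ZMod L) (s a : ℕ) (hs : s < L) (h : s + a ≤ L) :
    (x - (s : ZMod L)).val < a ↔ s ≤ x.val ∧ x.val < s + a := by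
  have hx : x.val < L := ZMod.val_lt x
  rw [lt11_sub_val x s hs.le]
  split_ifs with h1 <;> omega

theorem dx_arc {k : ℕ} (hk : 2 ^ k ≤ L) (i : ℕ) : ∃ (p : ZMod L) (a : ℕ), a ≤ L / 2 ^ k + 1 ∧
    (i < 2 ^ k → L / 2 ^ k ≤ a) ∧ ∀ x : ZMod L, dx L k x = i ↔ (x - p).val < a := by
  have hL : 0 < L := NeZero.pos L
  have hM : 0 < 2 ^ k := by positivity
  by_cases hi : i < 2 ^ k
  · generalize hMe : 2 ^ k = M at *
    set Q := L / M with hQ
    have hQ1 : Q * M ≤ L := Nat.div_mul_le_self _ _
    have hQ2 : L < Q * M + M := by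
      have := Nat.lt_div_mul_add (a := L) hM
      rwa [← hQ] at this
    have hQ0 : 1 ≤ Q := (Nat.one_le_div_iff hM).2 hk
    -- s = ⌈i L / M⌉, e = ⌈(i + 1) L / M⌉
    obtain ⟨s, hs⟩ : ∃ s, s = (i * L + (M - 1)) / M := ⟨_, rfl⟩
    obtain ⟨e, he⟩ : ∃ e, e = ((i + 1) * L + (M - 1)) / M := ⟨_, rfl⟩
    have hs1 : s * M ≤ i * L + (M - 1) := hs ▸ Nat.div_mul_le_self _ _
    have hs2 : i * L + (M - 1) < s * M + M := by
      have := Nat.lt_div_mul_add (a := i * L + (M - 1)) hM
      rwa [← hs] at this
    have he1 : e * M ≤ (i + 1) * L + (M - 1) := he ▸ Nat.div_mul_le_self _ _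
    have he2 : (i + 1) * L + (M - 1) < e * M + M := by
      have := Nat.lt_div_mul_add (a := (i + 1) * L + (M - 1)) hM
      rwa [← he] at this
    have e1 : (i + 1) * L = i * L + L := by ring
    have hiM : (i + 1) * L ≤ M * L := Nat.mul_le_mul_right L hi
    have heL : e ≤ L := by
      by_contra hcon
      have h3 : (L + 1) * M ≤ e * M := Nat.mul_le_mul_right M (by omega)
      have h4 : (L + 1) * M = M * L + M := by ring
      omega
    have hse : s + Q ≤ e := by
      by_contra hcon
      have h3 : (e + 1) * M ≤ (s + Q) * M := Nat.mul_le_mul_right M (by omega)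
      have h4 : (e + 1) * M = e * M + M := by ring
      have h5 : (s + Q) * M = s * M + Q * M := by ring
      omega
    have hse2 : e ≤ s + Q + 1 := by
      by_contra hcon
      have h3 : (s + Q + 2) * M ≤ e * M := Nat.mul_le_mul_right M (by omega)
      have h4 : (s + Q + 2) * M = s * M + Q * M + 2 * M := by ring
      omega
    refine ⟨(s : ZMod L), e - s, by omega, fun _ => by omega, fun x => ?_⟩
    rw [lt11_arc_val x s (e - s) (by omega) (by omega), show s + (e - s) = e by omega]
    unfold dx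
    rw [hMe, Nat.div_eq_iff hL]
    constructor
    · rintro ⟨h1, h2⟩
      constructor
      · by_contra hcon
        have h3 : (x.val + 1) * M ≤ s * M := Nat.mul_le_mul_right M (by omega)
        have h4 : (x.val + 1) * M = x.val * M + M := by ring
        omega
      · by_contra hcon
        have h3 : e * M ≤ x.val * M := Nat.mul_le_mul_right M (by omega)
        omega
    · rintro ⟨h1, h2⟩
      constructor
      · by_contra hcon
        have h3 : s * M ≤ x.val * M := Nat.mul_le_mul_right M h1
        omega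
      · by_contra hcon
        have h3 : (x.val + 1) * M ≤ e * M := Nat.mul_le_mul_right M h2
        have h4 : (x.val + 1) * M = x.val * M + M := by ring
        omega
  · refine ⟨0, 0, Nat.zero_le _, fun h => absurd h hi, fun x => ?_⟩
    have := dx_lt k x
    constructor
    · intro h
      omega
    · intro h
      omega

theorem arc_inter (p p' : ZMod L) (a a' : ℕ) (h : a + a' ≤ L) : ∃ (q : ZMod L) (b : ℕ), b ≤ a ∧
    ∀ x : ZMod L, ((x - p).val < a ∧ (x - p').val < a') ↔ (x - q).val < b := by
  have hL : 0 < L := NeZero.pos L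
  obtain ⟨D, hD⟩ : ∃ D, D = (p' - p).val := ⟨_, rfl⟩
  have hDL : D < L := hD ▸ ZMod.val_lt _
  have hp : p' = p + (D : ZMod L) := by
    rw [hD, ZMod.natCast_val, ZMod.cast_id]
    ring
  have key : ∀ x : ZMod L, (x - p').val =
      if D ≤ (x - p).val then (x - p).val - D else (x - p).val + L - D := by
    intro x
    rw [hp, show x - (p + (D : ZMod L)) = (x - p) - (D : ZMod L) by ring, lt11_sub_val _ _ hDL.le]
  by_cases hDa : D < a
  · refine ⟨p', min (a - D) a', by omega, fun x => ?_⟩
    have hx : (x - p).val < L := ZMod.val_lt _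
    rw [key x]
    split_ifs with h1 <;> omega
  · refine ⟨p, min a (D + a' - L), by omega, fun x => ?_⟩
    have hx : (x - p).val < L := ZMod.val_lt _
    rw [key x]
    split_ifs with h1 <;> omega

theorem arc_nbhd (p : ZMod L) {a w : ℕ} (ha : 0 < a) (h : a + 2 * w ≤ L) (x : ZMod L) :
    (∃ y : ZMod L, (y - p).val < a ∧ cdist y x ≤ w) ↔ (x - (p - (w : ZMod L))).val < a + 2 * w := by
  have hL : 0 < L := NeZero.pos L
  constructor
  · rintro ⟨y, hy, hyx⟩
    unfold cdist at hyx
    have hm := ZMod.coe_valMinAbs (y - x)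
    set m := (y - x).valMinAbs with hmdef
    have h1 : 0 ≤ ((y - p).val : ℤ) + w - m := by omega
    obtain ⟨t, ht⟩ : ∃ t : ℕ, (t : ℤ) = ((y - p).val : ℤ) + w - m :=
      ⟨(((y - p).val : ℤ) + w - m).toNat, Int.toNat_of_nonneg h1⟩
    have h2 : x - (p - (w : ZMod L)) = (t : ZMod L) := by
      have h3 : (((t : ℤ)) : ZMod L) = ((((y - p).val : ℤ) + w - m : ℤ) : ZMod L) := by rw [ht]
      push_cast at h3
      rw [h3, hm]
      have h4 : (((y - p).val : ℕ) : ZMod L) = y - p := by
        rw [ZMod.natCast_val, ZMod.cast_id]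
      rw [h4]
      ring
    rw [h2, ZMod.val_natCast, Nat.mod_eq_of_lt (by omega)]
    omega
  · intro hx
    obtain ⟨t, ht⟩ : ∃ t, t = (x - (p - (w : ZMod L))).val := ⟨_, rfl⟩
    rw [← ht] at hx
    have hxt : x = p - (w : ZMod L) + (t : ZMod L) := by
      rw [ht, ZMod.natCast_val, ZMod.cast_id]
      ring
    have main : ∀ j : ℕ, j < a → (j : ℤ) - (t - w) ≤ w → -(w : ℤ) ≤ (j : ℤ) - (t - w) →
        ∃ y : ZMod L, (y - p).val < a ∧ cdist y x ≤ w := by
      intro j hj h1 h2
      refine ⟨p + (j : ZMod L), ?_, ?_⟩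
      · rw [show p + (j : ZMod L) - p = (j : ZMod L) by ring, ZMod.val_natCast,
          Nat.mod_eq_of_lt (by omega)]
        exact hj
      · refine (cdist_le_int _ _ ((j : ℤ) - (t - w)) ?_).trans ?_
        · rw [hxt]
          push_cast
          ring
        · omega
    rcases Nat.lt_or_ge t w with h1 | h1
    · exact main 0 ha (by push_cast; omega) (by push_cast; omega)
    · rcases Nat.lt_or_ge t (w + a) with h2 | h2
      · exact main (t - w) (by omega) (by omega) (by omega)
      · exact main (a - 1) (by omega) (by omega) (by omega)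

/-- In a window which is shorter than the dyadic intervals of level `k`, the number of the
interval changes at most once. -/
theorem dx_window {k w : ℕ} (hk : 2 ^ k ≤ L) (hw : 2 * w + 1 ≤ L / 2 ^ k) (x : ZMod L) :
    ∃ t : ℕ, t ≤ 2 * w + 1 ∧
      (∀ i j : ℕ, i < t → j < t → dx L k (x - (w : ZMod L) + (i : ZMod L)) =
        dx L k (x - (w : ZMod L) + (j : ZMod L))) ∧
      ∀ i j : ℕ, t ≤ i → i < 2 * w + 1 → t ≤ j → j < 2 * w + 1 →
        dx L k (x - (w : ZMod L) + (i : ZMod L)) = dx L k (x - (w : ZMod L) + (j : ZMod L)) := by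
  classical
  have hL : 0 < L := NeZero.pos L
  have hLk : L / 2 ^ k ≤ L := Nat.div_le_self _ _
  set y := x - (w : ZMod L) with hy
  set g : ℕ → ℕ := fun i => dx L k (y + (i : ZMod L)) with hg
  by_cases hex : ∃ i, i < 2 * w + 1 ∧ g i ≠ g 0
  · obtain ⟨ht1, ht2⟩ := Nat.find_spec hex
    have hmin : ∀ i, i < Nat.find hex → g i = g 0 := by
      intro i hi
      have := Nat.find_min hex hi
      by_contra hcon
      exact this ⟨by omega, hcon⟩
    set t := Nat.find hex with htdef
    have ht0 : 0 < t := by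
      rcases Nat.eq_zero_or_pos t with h0 | h0
      · rw [h0] at ht2
        exact absurd rfl ht2
      · exact h0
    refine ⟨t, ht1.le, fun i j hi hj => ?_, ?_⟩
    · exact (hmin i hi).trans (hmin j hj).symm
    · obtain ⟨p', a', ha1, ha2, ha3⟩ := dx_arc hk (g t)
      have ha4 : L / 2 ^ k ≤ a' := ha2 (dx_lt k _)
      have hv1 : (y + (t : ZMod L) - p').val < a' := (ha3 _).1 rfl
      have hv0 : ¬ (y + ((t - 1 : ℕ) : ZMod L) - p').val < a' := by
        intro hcon
        have h1 := (ha3 _).2 hcon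
        have h2 := hmin (t - 1) (by omega)
        exact ht2 (h1.symm.trans h2)
      have hz : y + (t : ZMod L) - p' = (y + ((t - 1 : ℕ) : ZMod L) - p') + ((1 : ℕ) : ZMod L) := by
        rw [Nat.cast_sub ht0]
        push_cast
        ring
      have hv2 := lt11_add_val (y + ((t - 1 : ℕ) : ZMod L) - p') 1 (by omega)
      rw [← hz] at hv2
      have hlt : (y + ((t - 1 : ℕ) : ZMod L) - p').val < L := ZMod.val_lt _
      have hv3 : (y + (t : ZMod L) - p').val = 0 := by
        split_ifs at hv2 with h1 <;> omega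
      have key : ∀ i, t ≤ i → i < 2 * w + 1 → g i = g t := by
        intro i hi1 hi2
        refine (ha3 _).2 ?_
        have e : y + (i : ZMod L) - p' = (y + (t : ZMod L) - p') + ((i - t : ℕ) : ZMod L) := by
          rw [Nat.cast_sub hi1]
          ring
        rw [e, lt11_add_val _ _ (by omega), hv3]
        split_ifs with h1 <;> omega
      intro i j hi1 hi2 hj1 hj2
      exact (key i hi1 hi2).trans (key j hj1 hj2).symm
  · push Not at hex
    refine ⟨2 * w + 1, le_refl _, fun i j hi hj => ?_, fun i j hi1 hi2 => ?_⟩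
    · exact (hex i hi).trans (hex j hj).symm
    · omega

end Torus

end Pool.Agent.FFG.LT
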