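import Pool.Agent.FFG.LT.KyFan

/-!
# Truncated ranks
-/

open Finset
open scoped ComplexOrder Kronecker

set_option autoImplicit false
set_option linter.unusedSectionVars false
set_option linter.unusedVariables false

namespace Pool.Agent.FFG.LT

section Aux

variable {X Y W m c Z ι : Type} [Fintype X] [Fintype Y] [Fintype W] [Fintype m] [Fintype c]
  [Fintype Z] [Fintype ι] [DecidableEq X] [DecidableEq Y] [DecidableEq W] [DecidableEq m]
  [DecidableEq c] [DecidableEq Z] [DecidableEq ι]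

/-- The square of the Frobenius norm. -/
private noncomputable def lt5_fr (A : Matrix X Y ℂ) : ℝ := ∑ x, ∑ y, ‖A x y‖ ^ 2

private theorem lt5_mul_star (z : ℂ) : z * star z = ((‖z‖ ^ 2 : ℝ) : ℂ) := by
  have h := Complex.mul_conj z
  rw [Complex.normSq_eq_norm_sq] at h
  exact h

private theorem lt5_fr_trace (A : Matrix X Y ℂ) :
    (A * A.conjTranspose).trace = ((lt5_fr A : ℝ) : ℂ) := by
  simp only [lt5_fr, Matrix.trace, Matrix.diag_apply, Matrix.mul_apply,
    Matrix.conjTranspose_apply, lt5_mul_star, Complex.ofReal_sum]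

private theorem lt5_fr_trace' (A : Matrix X Y ℂ) :
    (A.conjTranspose * A).trace = ((lt5_fr A : ℝ) : ℂ) := by
  rw [Matrix.trace_mul_comm, lt5_fr_trace]

private theorem lt5_fr_nonneg (A : Matrix X Y ℂ) : 0 ≤ lt5_fr A :=
  Finset.sum_nonneg fun _ _ => Finset.sum_nonneg fun _ _ => by positivity

private theorem lt5_fr_iso (A : Matrix X Y ℂ) (V : Matrix Y W ℂ)
    (hV : V.conjTranspose * V = 1) : lt5_fr (A * V) ≤ lt5_fr A := by
  have hS : (1 - V * V.conjTranspose) * (1 - V * V.conjTranspose) = 1 - V * V.conjTranspose := by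
    have h1 : V * V.conjTranspose * (V * V.conjTranspose) = V * V.conjTranspose := by
      rw [Matrix.mul_assoc, ← Matrix.mul_assoc V.conjTranspose, hV, Matrix.one_mul]
    rw [Matrix.sub_mul, Matrix.mul_sub, Matrix.mul_sub, h1]
    simp
  have key : ((lt5_fr A : ℝ) : ℂ) = ((lt5_fr (A * V) : ℝ) : ℂ) +
      ((lt5_fr (A * (1 - V * V.conjTranspose)) : ℝ) : ℂ) := by
    rw [← lt5_fr_trace, ← lt5_fr_trace, ← lt5_fr_trace, ← Matrix.trace_add]
    congr 1
    rw [Matrix.conjTranspose_mul, Matrix.conjTranspose_mul, Matrix.conjTranspose_sub,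
      Matrix.conjTranspose_one, Matrix.conjTranspose_mul, Matrix.conjTranspose_conjTranspose]
    rw [Matrix.mul_assoc A (1 - V * V.conjTranspose), ← Matrix.mul_assoc (1 - V * V.conjTranspose),
      hS, Matrix.mul_assoc A V, ← Matrix.mul_assoc V, ← Matrix.mul_add, ← Matrix.add_mul]
    simp
  have h2 : lt5_fr A = lt5_fr (A * V) + lt5_fr (A * (1 - V * V.conjTranspose)) := by
    exact_mod_cast key
  have h3 := lt5_fr_nonneg (A * (1 - V * V.conjTranspose))
  linarith

private theorem lt5_exists_iso (K : Submodule ℂ (X → ℂ)) :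
    ∃ (r : ℕ) (V : Matrix X (Fin r) ℂ), r = Module.finrank ℂ K ∧ V.conjTranspose * V = 1 ∧
      (∀ x ∈ K, (V * V.conjTranspose).mulVec x = x) ∧ ∀ j, (fun x => V x j) ∈ K := by
  let f : EuclideanSpace ℂ X ≃ₗ[ℂ] (X → ℂ) := WithLp.linearEquiv 2 ℂ (X → ℂ)
  let K' : Submodule ℂ (EuclideanSpace ℂ X) := K.map (f.symm : (X → ℂ) →ₗ[ℂ] EuclideanSpace ℂ X)
  have hK : Module.finrank ℂ K' = Module.finrank ℂ K := LinearEquiv.finrank_map_eq f.symm K
  let b := stdOrthonormalBasis ℂ K'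
  let V : Matrix X (Fin (Module.finrank ℂ K')) ℂ := fun x j => (b j : EuclideanSpace ℂ X) x
  refine ⟨Module.finrank ℂ K', V, hK, ?_, ?_, ?_⟩
  · ext i j
    have h1 := orthonormal_iff_ite.1 b.orthonormal i j
    rw [Matrix.mul_apply, Matrix.one_apply, ← h1, Submodule.coe_inner,
      PiLp.inner_apply]
    apply Finset.sum_congr rfl
    intro x _
    rw [Matrix.conjTranspose_apply, RCLike.inner_apply, mul_comm]
    rfl
  · intro x hx
    have hx' : f.symm x ∈ K' := Submodule.mem_map_of_mem hx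
    have h1 := b.sum_repr' ⟨f.symm x, hx'⟩
    have h2 := congrArg (fun y : K' => f (y : EuclideanSpace ℂ X)) h1
    simp only [LinearEquiv.apply_symm_apply] at h2
    conv_rhs => rw [← h2]
    funext y
    rw [← Matrix.mulVec_mulVec]
    simp only [Submodule.coe_sum, map_sum, Finset.sum_apply, Matrix.mulVec, dotProduct]
    apply Finset.sum_congr rfl
    intro j _
    rw [mul_comm]
    congr 1
    rw [Submodule.coe_inner, PiLp.inner_apply]
    apply Finset.sum_congr rfl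
    intro z _
    rw [Matrix.conjTranspose_apply, RCLike.inner_apply, mul_comm]
    rfl
  · intro j
    have h1 : (b j : EuclideanSpace ℂ X) ∈ K' := (b j).2
    obtain ⟨y, hy, hy'⟩ := h1
    have h2 : (fun x => V x j) = y := by
      funext x
      show (b j : EuclideanSpace ℂ X) x = y x
      rw [← hy']
      rfl
    rw [h2]
    exact hy

private theorem lt5_isPr {r : ℕ} (V : Matrix X (Fin r) ℂ) (hV : V.conjTranspose * V = 1) :
    IsPr (V * V.conjTranspose) ∧ (V * V.conjTranspose).trace = (r : ℂ) := by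
  refine ⟨⟨Matrix.isHermitian_mul_conjTranspose_self V, ?_⟩, ?_⟩
  · rw [Matrix.mul_assoc, ← Matrix.mul_assoc V.conjTranspose, hV, Matrix.one_mul]
  · rw [Matrix.trace_mul_comm, hV, Matrix.trace_one]
    simp

private theorem lt5_pr_fac (Q : Matrix X X ℂ) (hQ : IsPr Q) :
    ∃ (r : ℕ) (V : Matrix X (Fin r) ℂ), V.conjTranspose * V = 1 ∧ Q = V * V.conjTranspose := by
  obtain ⟨r, V, -, hV, hVK, hVj⟩ := lt5_exists_iso (LinearMap.range Q.mulVecLin)
  refine ⟨r, V, hV, ?_⟩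
  have h1 : V * V.conjTranspose * Q = Q := by
    apply Matrix.ext_of_mulVec_single
    intro i
    rw [← Matrix.mulVec_mulVec]
    exact hVK _ ⟨_, rfl⟩
  have h2 : Q * V = V := by
    ext x j
    obtain ⟨y, hy⟩ := hVj j
    have h3 : Q.mulVec (fun x => V x j) = fun x => V x j := by
      rw [← hy, Matrix.mulVecLin_apply, Matrix.mulVec_mulVec, hQ.2]
    exact congrFun h3 x
  have h3 : Q * (V * V.conjTranspose) = Q := by
    have h4 := congrArg Matrix.conjTranspose h1
    rw [Matrix.conjTranspose_mul, Matrix.conjTranspose_mul, Matrix.conjTranspose_conjTranspose,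
      hQ.1.eq] at h4
    exact h4
  rw [← Matrix.mul_assoc, h2] at h3
  exact h3.symm

/-- The vector `Φ` as a matrix. -/
private noncomputable def lt5_rm (e : Z ≃ m × c) (Φ : Z × ι → ℂ) : Matrix (m × ι) c ℂ :=
  fun p t => Φ (e.symm (p.1, t), p.2)

/-- The vector `Ψ` as a matrix. -/
private noncomputable def lt5_red (e : Z ≃ m × c) (Ψ : Z → ℂ) : Matrix m c ℂ :=
  fun a t => Ψ (e.symm (a, t))

private theorem lt5_up (e : Z ≃ m × c) (Φ : Z × ι → ℂ) (P : Matrix (m × ι) (m × ι) ℂ) :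
    ipr Φ ((up e P).mulVec Φ) = ((lt5_rm e Φ).conjTranspose * P * lt5_rm e Φ).trace := by
  have h1 : ∀ (z : Z) (i : ι), ((up e P).mulVec Φ) (z, i) =
      ∑ p' : m × ι, P ((e z).1, i) p' * Φ (e.symm (p'.1, (e z).2), p'.2) := by
    intro z i
    simp only [Matrix.mulVec, dotProduct, up, Fintype.sum_prod_type]
    rw [← Equiv.sum_comp e.symm]
    simp only [Equiv.apply_symm_apply, Fintype.sum_prod_type]
    apply Finset.sum_congr rfl
    intro a _
    rw [Finset.sum_comm]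
    apply Finset.sum_congr rfl
    intro j _
    simp only [ite_mul, zero_mul, Finset.sum_ite_eq, Finset.mem_univ, if_true]
  simp only [ipr, Fintype.sum_prod_type, h1]
  rw [← Equiv.sum_comp e.symm]
  simp only [Equiv.apply_symm_apply, Fintype.sum_prod_type]
  rw [Matrix.mul_assoc, Finset.sum_comm]
  simp only [Matrix.trace, Matrix.diag_apply, Matrix.mul_apply, Matrix.conjTranspose_apply,
    lt5_rm, Fintype.sum_prod_type]

private theorem lt5_tens (e : Z ≃ m × c) (Ψ : Z → ℂ) (P : Matrix (m × ι) (m × ι) ℂ) :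
    ∑ i, ipr (tens Ψ i) ((up e P).mulVec (tens Ψ i)) =
      ((Matrix.kroneckerMap (· * ·) (lt5_red e Ψ * (lt5_red e Ψ).conjTranspose)
        (1 : Matrix ι ι ℂ) * P).trace) := by
  have h1 : ∑ i : ι, lt5_rm e (tens Ψ i) * (lt5_rm e (tens Ψ i)).conjTranspose =
      Matrix.kroneckerMap (· * ·) (lt5_red e Ψ * (lt5_red e Ψ).conjTranspose)
        (1 : Matrix ι ι ℂ) := by
    ext ⟨a, i⟩ ⟨b, j⟩
    rw [Matrix.sum_apply]
    simp only [Matrix.mul_apply, Matrix.conjTranspose_apply, lt5_rm, tens, lt5_red,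
      Matrix.kroneckerMap_apply, Matrix.one_apply]
    rw [Finset.sum_comm, Finset.sum_mul]
    apply Finset.sum_congr rfl
    intro t _
    rw [Finset.sum_eq_single i]
    · by_cases h : i = j
      · simp [h]
      · have h' : ¬ j = i := fun h'' => h h''.symm
        simp [h, h']
    · intro k _ hk
      have : ¬ i = k := fun h => hk h.symm
      simp [this]
    · simp
  rw [← h1, Matrix.sum_mul, Matrix.trace_sum]
  apply Finset.sum_congr rfl
  intro i _
  rw [lt5_up, Matrix.mul_assoc, Matrix.trace_mul_comm, Matrix.mul_assoc, Matrix.trace_mul_comm]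

private theorem lt5_kron_isPr (Q : Matrix m m ℂ) (hQ : IsPr Q) :
    IsPr (Matrix.kroneckerMap (· * ·) Q (1 : Matrix ι ι ℂ)) := by
  refine ⟨?_, ?_⟩
  · show (Q ⊗ₖ (1 : Matrix ι ι ℂ)).conjTranspose = Q ⊗ₖ (1 : Matrix ι ι ℂ)
    rw [Matrix.conjTranspose_kronecker, Matrix.conjTranspose_one, hQ.1.eq]
  · show Q ⊗ₖ (1 : Matrix ι ι ℂ) * Q ⊗ₖ (1 : Matrix ι ι ℂ) = Q ⊗ₖ (1 : Matrix ι ι ℂ)
    rw [← Matrix.mul_kronecker_mul, hQ.2, Matrix.one_mul]

private theorem lt5_red_fr (e : Z ≃ m × c) (Ψ : Z → ℂ) : lt5_fr (lt5_red e Ψ) = nsq Ψ := by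
  unfold lt5_fr nsq lt5_red
  rw [← Equiv.sum_comp e.symm (fun z => ‖Ψ z‖ ^ 2), Fintype.sum_prod_type]

/-- The weight of a projection is at most its trace. -/
private theorem lt5_le_trace (e : Z ≃ m × c) (Ψ : Z → ℂ) (hΨ : nsq Ψ = 1)
    (P : Matrix (m × ι) (m × ι) ℂ) (hP : IsPr P) :
    ((Matrix.kroneckerMap (· * ·) (lt5_red e Ψ * (lt5_red e Ψ).conjTranspose)
        (1 : Matrix ι ι ℂ) * P).trace).re ≤ P.trace.re := by
  obtain ⟨r, V, hV, rfl⟩ := lt5_pr_fac P hP
  set N := lt5_red e Ψ with hN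
  have h1 : Matrix.kroneckerMap (· * ·) (N * N.conjTranspose) (1 : Matrix ι ι ℂ) =
      (N ⊗ₖ (1 : Matrix ι ι ℂ)) * (N ⊗ₖ (1 : Matrix ι ι ℂ)).conjTranspose := by
    rw [Matrix.conjTranspose_kronecker, Matrix.conjTranspose_one, ← Matrix.mul_kronecker_mul,
      Matrix.one_mul]
  rw [h1, Matrix.mul_assoc, Matrix.trace_mul_comm, ← Matrix.mul_assoc, Matrix.mul_assoc _ _ (N ⊗ₖ _)]
  have h2 : V.conjTranspose * N ⊗ₖ (1 : Matrix ι ι ℂ) =
      ((N ⊗ₖ (1 : Matrix ι ι ℂ)).conjTranspose * V).conjTranspose := by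
    rw [Matrix.conjTranspose_mul, Matrix.conjTranspose_conjTranspose]
  rw [h2, lt5_fr_trace, lt5_fr_trace, Complex.ofReal_re, Complex.ofReal_re]
  have h3 : ∀ (t : c) (i : ι) (k : Fin r),
      ‖((N ⊗ₖ (1 : Matrix ι ι ℂ)).conjTranspose * V) (t, i) k‖ ^ 2 ≤
        (∑ b, ‖N b t‖ ^ 2) * ∑ b, ‖V (b, i) k‖ ^ 2 := by
    intro t i k
    have h4 : ((N ⊗ₖ (1 : Matrix ι ι ℂ)).conjTranspose * V) (t, i) k =
        ∑ b, star (N b t) * V (b, i) k := by
      rw [Matrix.mul_apply, Fintype.sum_prod_type]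
      apply Finset.sum_congr rfl
      intro b _
      rw [Finset.sum_eq_single i]
      · rw [Matrix.conjTranspose_apply, Matrix.kroneckerMap_apply, Matrix.one_apply_eq, mul_one]
      · intro j _ hj
        rw [Matrix.conjTranspose_apply, Matrix.kroneckerMap_apply, Matrix.one_apply_ne hj,
          mul_zero, star_zero, zero_mul]
      · intro h
        exact absurd (Finset.mem_univ i) h
    rw [h4]
    calc ‖∑ b, star (N b t) * V (b, i) k‖ ^ 2 ≤ (∑ b, ‖N b t‖ * ‖V (b, i) k‖) ^ 2 := by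
          apply pow_le_pow_left₀ (norm_nonneg _)
          refine le_trans (norm_sum_le _ _) (le_of_eq ?_)
          apply Finset.sum_congr rfl
          intro b _
          rw [norm_mul, norm_star]
      _ ≤ _ := Finset.sum_mul_sq_le_sq_mul_sq _ _ _
  have h5 : lt5_fr N = 1 := by rw [hN, lt5_red_fr, hΨ]
  calc lt5_fr ((N ⊗ₖ (1 : Matrix ι ι ℂ)).conjTranspose * V)
      = ∑ t, ∑ i, ∑ k, ‖((N ⊗ₖ (1 : Matrix ι ι ℂ)).conjTranspose * V) (t, i) k‖ ^ 2 := by
        unfold lt5_fr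
        rw [Fintype.sum_prod_type]
    _ ≤ ∑ t, ∑ i, ∑ k, (∑ b, ‖N b t‖ ^ 2) * ∑ b, ‖V (b, i) k‖ ^ 2 :=
        Finset.sum_le_sum fun t _ => Finset.sum_le_sum fun i _ => Finset.sum_le_sum fun k _ =>
          h3 t i k
    _ = (∑ t, ∑ b, ‖N b t‖ ^ 2) * ∑ i, ∑ k, ∑ b, ‖V (b, i) k‖ ^ 2 := by
        rw [Finset.sum_mul]
        apply Finset.sum_congr rfl
        intro t _
        rw [Finset.mul_sum]
        apply Finset.sum_congr rfl
        intro i _
        rw [Finset.mul_sum]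
    _ = lt5_fr N * lt5_fr V := by
        congr 1
        · rw [Finset.sum_comm]
          rfl
        · unfold lt5_fr
          rw [Fintype.sum_prod_type]
          have h6 : ∀ i : ι, ∑ k, ∑ b, ‖V (b, i) k‖ ^ 2 = ∑ b, ∑ k, ‖V (b, i) k‖ ^ 2 :=
            fun i => Finset.sum_comm
          rw [Finset.sum_congr rfl fun i _ => h6 i]
          exact Finset.sum_comm
    _ = lt5_fr V := by rw [h5, one_mul]

end Aux

section Step

variable {α β γ Z ι : Type} [Fintype α] [Fintype β] [Fintype γ] [Fintype Z] [Fintype ι]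
  [DecidableEq α] [DecidableEq β] [DecidableEq γ] [DecidableEq Z] [DecidableEq ι]

private theorem lt5_step (e : Z ≃ α × β × γ) (e' : Z ≃ β × α × γ)
    (he' : ∀ z, e' z = ((e z).2.1, (e z).1, (e z).2.2))
    (Ψ : Z → ℂ) (Φ : Z × ι → ℂ) (δ : ℝ)
    (hA : ∀ P : Matrix (α × ι) (α × ι) ℂ, IsPr P →
      ‖ipr Φ ((up e P).mulVec Φ) -
        (∑ i, ipr (tens Ψ i) ((up e P).mulVec (tens Ψ i))) / Fintype.card ι‖ ≤ δ)
    (hB : ∀ P : Matrix (β × ι) (β × ι) ℂ, IsPr P →
      ‖ipr Φ ((up e' P).mulVec Φ) -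
        (∑ i, ipr (tens Ψ i) ((up e' P).mulVec (tens Ψ i))) / Fintype.card ι‖ ≤ δ)
    (hN0 : 0 < Fintype.card ι) (u : ℕ) (η : ℝ) (Q : Matrix α α ℂ) (hQ : IsPr Q)
    (hu : Q.trace.re ≤ u)
    (hw : 1 - η ≤ ((lt5_red e Ψ * (lt5_red e Ψ).conjTranspose * Q).trace).re) :
    ∃ P : Matrix (β × ι) (β × ι) ℂ, IsPr P ∧ P.trace.re ≤ u * Fintype.card γ ∧
      (1 - η - 2 * δ) * Fintype.card ι ≤
        ((Matrix.kroneckerMap (· * ·) (lt5_red e' Ψ * (lt5_red e' Ψ).conjTranspose)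
          (1 : Matrix ι ι ℂ) * P).trace).re := by
  have hN : (0 : ℝ) < Fintype.card ι := by exact_mod_cast hN0
  have hNC : ((Fintype.card ι : ℕ) : ℂ) ≠ 0 := by
    exact_mod_cast hN0.ne'
  obtain ⟨r, V, hV, hQV⟩ := lt5_pr_fac Q hQ
  have hr : (r : ℝ) ≤ u := by
    have h1 := (lt5_isPr V hV).2
    rw [← hQV] at h1
    rw [h1] at hu
    simpa using hu
  -- the matrix of the compressed vector
  set RB : Matrix (β × ι) (α × γ) ℂ := lt5_rm e' Φ with hRB
  set W : Matrix (α × γ) (Fin r × γ) ℂ := (V.map star) ⊗ₖ (1 : Matrix γ γ ℂ) with hWdef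
  have hW : W.conjTranspose * W = 1 := by
    have h1 : (V.map star).conjTranspose * V.map star = (1 : Matrix (Fin r) (Fin r) ℂ) := by
      have h2 := congrArg (fun A : Matrix (Fin r) (Fin r) ℂ => A.map star) hV
      ext i j
      have h3 := congrFun (congrFun h2 i) j
      simp only [Matrix.map_apply, Matrix.mul_apply, Matrix.conjTranspose_apply, star_sum,
        star_mul', star_star, Matrix.one_apply] at h3 ⊢
      rw [h3]
      split_ifs <;> simp
    rw [hWdef, Matrix.conjTranspose_kronecker, Matrix.conjTranspose_one,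
      ← Matrix.mul_kronecker_mul, h1, Matrix.one_mul, Matrix.one_kronecker_one]
  set Y := RB * W with hY
  -- the weight of the compressed vector
  have hYw : ipr Φ ((up e (Matrix.kroneckerMap (· * ·) Q (1 : Matrix ι ι ℂ))).mulVec Φ) =
      ((lt5_fr Y : ℝ) : ℂ) := by
    have hes : ∀ (a : α) (b : β) (c : γ), e'.symm (b, a, c) = e.symm (a, b, c) := by
      intro a b c
      rw [Equiv.symm_apply_eq, he', Equiv.apply_symm_apply]
    have hYe : ∀ (b : β) (i : ι) (j : Fin r) (c : γ),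
        Y (b, i) (j, c) = ∑ a, star (V a j) * Φ (e.symm (a, b, c), i) := by
      intro b i j c
      rw [hY, Matrix.mul_apply, Fintype.sum_prod_type]
      apply Finset.sum_congr rfl
      intro a _
      rw [Finset.sum_eq_single c]
      · rw [hWdef, Matrix.kroneckerMap_apply, Matrix.one_apply_eq, mul_one, hRB, Matrix.map_apply,
          mul_comm]
        show star (V a j) * Φ (e'.symm (b, a, c), i) = _
        rw [hes]
      · intro c' _ hc
        rw [hWdef, Matrix.kroneckerMap_apply, Matrix.one_apply_ne hc, mul_zero, mul_zero]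
      · intro h
        exact absurd (Finset.mem_univ c) h
    have hBe : ∀ (j : Fin r) (i : ι) (b : β) (c : γ),
        ((V ⊗ₖ (1 : Matrix ι ι ℂ)).conjTranspose * lt5_rm e Φ) (j, i) (b, c) =
          ∑ a, star (V a j) * Φ (e.symm (a, b, c), i) := by
      intro j i b c
      rw [Matrix.mul_apply, Fintype.sum_prod_type]
      apply Finset.sum_congr rfl
      intro a _
      rw [Finset.sum_eq_single i]
      · rw [Matrix.conjTranspose_apply, Matrix.kroneckerMap_apply, Matrix.one_apply_eq, mul_one]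
        rfl
      · intro i' _ hi
        rw [Matrix.conjTranspose_apply, Matrix.kroneckerMap_apply, Matrix.one_apply_ne hi,
          mul_zero, star_zero, zero_mul]
      · intro h
        exact absurd (Finset.mem_univ i) h
    have hfr : lt5_fr ((V ⊗ₖ (1 : Matrix ι ι ℂ)).conjTranspose * lt5_rm e Φ) = lt5_fr Y := by
      unfold lt5_fr
      simp only [Fintype.sum_prod_type, hBe, hYe]
      -- sums over j i b c and b i j c
      have h1 : ∀ f : Fin r → ι → β → γ → ℝ,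
          ∑ j, ∑ i, ∑ b, ∑ c, f j i b c = ∑ b, ∑ i, ∑ j, ∑ c, f j i b c := by
        intro f
        calc ∑ j, ∑ i, ∑ b, ∑ c, f j i b c = ∑ j, ∑ b, ∑ i, ∑ c, f j i b c :=
              Finset.sum_congr rfl fun j _ => Finset.sum_comm
          _ = ∑ b, ∑ j, ∑ i, ∑ c, f j i b c := Finset.sum_comm
          _ = ∑ b, ∑ i, ∑ j, ∑ c, f j i b c :=
              Finset.sum_congr rfl fun b _ => Finset.sum_comm
      exact h1 fun j i b c => ‖∑ a, star (V a j) * Φ (e.symm (a, b, c), i)‖ ^ 2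
    have hQk : Matrix.kroneckerMap (· * ·) Q (1 : Matrix ι ι ℂ) =
        (V ⊗ₖ (1 : Matrix ι ι ℂ)) * (V ⊗ₖ (1 : Matrix ι ι ℂ)).conjTranspose := by
      rw [Matrix.conjTranspose_kronecker, Matrix.conjTranspose_one, ← Matrix.mul_kronecker_mul,
        Matrix.one_mul, ← hQV]
    rw [lt5_up, hQk, ← hfr, ← lt5_fr_trace', Matrix.conjTranspose_mul,
      Matrix.conjTranspose_conjTranspose]
    simp only [Matrix.mul_assoc]
  -- the projection
  obtain ⟨r', V', hr', hV', hVK, -⟩ := lt5_exists_iso (LinearMap.range Y.mulVecLin)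
  have hPY : V' * V'.conjTranspose * Y = Y := by
    apply Matrix.ext_of_mulVec_single
    intro i
    rw [← Matrix.mulVec_mulVec]
    exact hVK _ ⟨_, rfl⟩
  have hrk : (r' : ℝ) ≤ u * Fintype.card γ := by
    have h1 : r' ≤ r * Fintype.card γ := by
      rw [hr']
      refine le_trans (LinearMap.finrank_range_le _) ?_
      rw [Module.finrank_pi, Fintype.card_prod, Fintype.card_fin]
    have h2 : (r' : ℝ) ≤ r * Fintype.card γ := by exact_mod_cast h1
    refine le_trans h2 ?_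
    exact mul_le_mul_of_nonneg_right hr (Nat.cast_nonneg _)
  have hPw : lt5_fr Y ≤ (ipr Φ ((up e' (V' * V'.conjTranspose)).mulVec Φ)).re := by
    have h1 : ipr Φ ((up e' (V' * V'.conjTranspose)).mulVec Φ) =
        ((lt5_fr (V'.conjTranspose * RB) : ℝ) : ℂ) := by
      rw [lt5_up, ← lt5_fr_trace', Matrix.conjTranspose_mul, Matrix.conjTranspose_conjTranspose]
      simp only [Matrix.mul_assoc]
      rfl
    have h2 : lt5_fr (V'.conjTranspose * Y) = lt5_fr Y := by
      have h3 : ((lt5_fr (V'.conjTranspose * Y) : ℝ) : ℂ) = ((lt5_fr Y : ℝ) : ℂ) := by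
        rw [← lt5_fr_trace', ← lt5_fr_trace', Matrix.conjTranspose_mul,
          Matrix.conjTranspose_conjTranspose, Matrix.mul_assoc, ← Matrix.mul_assoc V', hPY]
      exact_mod_cast h3
    rw [h1, Complex.ofReal_re, ← h2, hY, ← Matrix.mul_assoc]
    exact lt5_fr_iso _ _ hW
  have hP := lt5_isPr V' hV'
  refine ⟨V' * V'.conjTranspose, hP.1, ?_, ?_⟩
  · rw [hP.2]
    simpa using hrk
  · have h1 := hA _ (lt5_kron_isPr Q hQ)
    rw [hYw, lt5_tens] at h1
    have h2 : (Matrix.kroneckerMap (· * ·) (lt5_red e Ψ * (lt5_red e Ψ).conjTranspose)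
        (1 : Matrix ι ι ℂ) * Matrix.kroneckerMap (· * ·) Q (1 : Matrix ι ι ℂ)).trace =
        (lt5_red e Ψ * (lt5_red e Ψ).conjTranspose * Q).trace * Fintype.card ι := by
      show ((lt5_red e Ψ * (lt5_red e Ψ).conjTranspose) ⊗ₖ (1 : Matrix ι ι ℂ) *
        Q ⊗ₖ (1 : Matrix ι ι ℂ)).trace = _
      rw [← Matrix.mul_kronecker_mul, Matrix.one_mul, Matrix.trace_kronecker, Matrix.trace_one]
    rw [h2, mul_div_assoc, div_self hNC, mul_one] at h1
    have h3 := le_trans (Complex.abs_re_le_norm _) h1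
    rw [Complex.sub_re, Complex.ofReal_re, abs_le] at h3
    have h4 := hB _ hP.1
    rw [lt5_tens] at h4
    have h5 := le_trans (Complex.abs_re_le_norm _) h4
    rw [Complex.sub_re, abs_le] at h5
    have h6 : ((Matrix.kroneckerMap (· * ·) (lt5_red e' Ψ * (lt5_red e' Ψ).conjTranspose)
        (1 : Matrix ι ι ℂ) * (V' * V'.conjTranspose)).trace / (Fintype.card ι : ℂ)).re =
        ((Matrix.kroneckerMap (· * ·) (lt5_red e' Ψ * (lt5_red e' Ψ).conjTranspose)
        (1 : Matrix ι ι ℂ) * (V' * V'.conjTranspose)).trace).re / Fintype.card ι := by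
      have := Complex.div_natCast_re ((Matrix.kroneckerMap (· * ·)
        (lt5_red e' Ψ * (lt5_red e' Ψ).conjTranspose)
        (1 : Matrix ι ι ℂ) * (V' * V'.conjTranspose)).trace) (Fintype.card ι)
      exact this
    rw [h6] at h5
    rw [← le_div_iff₀ hN]
    linarith [h3.1, h5.2]

private theorem lt5_ind (k : ℕ) : ∀ {α β γ Z ι : Type} [Fintype α] [Fintype β] [Fintype γ]
    [Fintype Z] [Fintype ι] [DecidableEq α] [DecidableEq β] [DecidableEq γ] [DecidableEq Z]
    [DecidableEq ι] (e : Z ≃ α × β × γ) (e' : Z ≃ β × α × γ)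
    (he' : ∀ z, e' z = ((e z).2.1, (e z).1, (e z).2.2))
    (Ψ : Z → ℂ) (Φ : Z × ι → ℂ) (hΨ : nsq Ψ = 1) (δ : ℝ)
    (hA : ∀ P : Matrix (α × ι) (α × ι) ℂ, IsPr P →
      ‖ipr Φ ((up e P).mulVec Φ) -
        (∑ i, ipr (tens Ψ i) ((up e P).mulVec (tens Ψ i))) / Fintype.card ι‖ ≤ δ)
    (hB : ∀ P : Matrix (β × ι) (β × ι) ℂ, IsPr P →
      ‖ipr Φ ((up e' P).mulVec Φ) -
        (∑ i, ipr (tens Ψ i) ((up e' P).mulVec (tens Ψ i))) / Fintype.card ι‖ ≤ δ)
    (hN0 : 0 < Fintype.card ι) (hN : 2 * Fintype.card γ ≤ Fintype.card ι) (u : ℕ)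
    (hk : u ≤ 2 ^ k) (η : ℝ) (Q : Matrix α α ℂ) (hQ : IsPr Q)
    (hu : Q.trace.re ≤ u)
    (hw : 1 - η ≤ ((lt5_red e Ψ * (lt5_red e Ψ).conjTranspose * Q).trace).re),
    1 - η - 2 * δ * (k + 1) ≤ 1 / 2 := by
  induction k with
  | zero =>
    intro α β γ Z ι _ _ _ _ _ _ _ _ _ _ e e' he' Ψ Φ hΨ δ hA hB hN0 hN u hk η Q hQ hu hw
    obtain ⟨P, hP, hPt, hPw⟩ := lt5_step e e' he' Ψ Φ δ hA hB hN0 u η Q hQ hu hw
    have h1 := lt5_le_trace e' Ψ hΨ P hP
    have hN' : (0 : ℝ) < Fintype.card ι := by exact_mod_cast hN0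
    have h2 : (2 : ℝ) * Fintype.card γ ≤ Fintype.card ι := by exact_mod_cast hN
    have hu1 : (u : ℝ) ≤ 1 := by
      have : u ≤ 1 := by simpa using hk
      exact_mod_cast this
    have h3 : (u : ℝ) * Fintype.card γ ≤ Fintype.card γ := by
      have := mul_le_mul_of_nonneg_right hu1 (Nat.cast_nonneg (α := ℝ) (Fintype.card γ))
      linarith
    have h4 : (1 - η - 2 * δ) * Fintype.card ι ≤ 1 / 2 * Fintype.card ι := by linarith
    have h5 := le_of_mul_le_mul_right h4 hN'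
    simp only [Nat.cast_zero]
    linarith
  | succ k ih =>
    intro α β γ Z ι _ _ _ _ _ _ _ _ _ _ e e' he' Ψ Φ hΨ δ hA hB hN0 hN u hk η Q hQ hu hw
    obtain ⟨P, hP, hPt, hPw⟩ := lt5_step e e' he' Ψ Φ δ hA hB hN0 u η Q hQ hu hw
    have hN' : (0 : ℝ) < Fintype.card ι := by exact_mod_cast hN0
    have h2 : (2 : ℝ) * Fintype.card γ ≤ Fintype.card ι := by exact_mod_cast hN
    have hu2 : (u : ℝ) ≤ 2 * (((u + 1) / 2 : ℕ) : ℝ) := by
      have : u ≤ 2 * ((u + 1) / 2) := by omega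
      exact_mod_cast this
    have hPt' : P.trace.re ≤ (((u + 1) / 2 : ℕ) : ℝ) * Fintype.card ι := by
      refine le_trans hPt ?_
      calc (u : ℝ) * Fintype.card γ ≤ 2 * (((u + 1) / 2 : ℕ) : ℝ) * Fintype.card γ :=
            mul_le_mul_of_nonneg_right hu2 (Nat.cast_nonneg _)
        _ = (((u + 1) / 2 : ℕ) : ℝ) * (2 * Fintype.card γ) := by ring
        _ ≤ _ := mul_le_mul_of_nonneg_left h2 (Nat.cast_nonneg _)
    obtain ⟨Q', hQ', hQt, hQw⟩ := kyfan (lt5_red e' Ψ * (lt5_red e' Ψ).conjTranspose)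
      (Matrix.posSemidef_self_mul_conjTranspose _) P hP ((u + 1) / 2) hPt'
    have h3 : (1 - η - 2 * δ) * Fintype.card ι ≤
        (((lt5_red e' Ψ * (lt5_red e' Ψ).conjTranspose) * Q').trace).re * Fintype.card ι := by
      linarith
    have h4 := le_of_mul_le_mul_right h3 hN'
    have h5 := ih e' e (fun z => by rw [he' z]) Ψ Φ hΨ δ hB hA hN0 hN ((u + 1) / 2)
      (by rw [pow_succ] at hk; omega) (η + 2 * δ) Q' hQ' hQt (by linarith)
    rw [Nat.cast_succ]
    linarith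

/-- LT5 (truncated ranks). -/
theorem bpt (e : Z ≃ α × β × γ) (e' : Z ≃ β × α × γ)
    (he' : ∀ z, e' z = ((e z).2.1, (e z).1, (e z).2.2))
    (Ψ : Z → ℂ) (Φ : Z × ι → ℂ) (hΨ : nsq Ψ = 1) (hΦ : nsq Φ = 1) (δ : ℝ)
    (hA : ∀ P : Matrix (α × ι) (α × ι) ℂ, IsPr P →
      ‖ipr Φ ((up e P).mulVec Φ) -
        (∑ i, ipr (tens Ψ i) ((up e P).mulVec (tens Ψ i))) / Fintype.card ι‖ ≤ δ)
    (hB : ∀ P : Matrix (β × ι) (β × ι) ℂ, IsPr P →
      ‖ipr Φ ((up e' P).mulVec Φ) -
        (∑ i, ipr (tens Ψ i) ((up e' P).mulVec (tens Ψ i))) / Fintype.card ι‖ ≤ δ)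
    (hδ : 4 * δ * (Nat.clog 2 (Fintype.card α + Fintype.card β) + 2) < 1) :
    Fintype.card ι < 2 * Fintype.card γ := by
  by_contra hcon
  have hN : 2 * Fintype.card γ ≤ Fintype.card ι := not_lt.1 hcon
  have hN0 : 0 < Fintype.card ι := by
    rcases isEmpty_or_nonempty ι with h | h
    · exfalso
      have : nsq Φ = 0 := by
        unfold nsq
        apply Finset.sum_eq_zero
        intro x _
        exact (IsEmpty.false x.2).elim
      rw [this] at hΦ
      exact zero_ne_one hΦ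
    · exact Fintype.card_pos
  have hδ0 : 0 ≤ δ := le_trans (norm_nonneg _) (hA 0 ⟨Matrix.isHermitian_zero, by simp⟩)
  have h1 : ((lt5_red e Ψ * (lt5_red e Ψ).conjTranspose * (1 : Matrix α α ℂ)).trace).re = 1 := by
    rw [Matrix.mul_one, lt5_fr_trace, Complex.ofReal_re, lt5_red_fr, hΨ]
  have h2 := lt5_ind (Nat.clog 2 (Fintype.card α + Fintype.card β)) e e' he' Ψ Φ hΨ δ hA hB hN0 hN
    (Fintype.card α) (le_trans (Nat.le_add_right _ _) (Nat.le_pow_clog (by norm_num) _)) 0 1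
    ⟨Matrix.isHermitian_one, by simp⟩ (by simp) (by rw [h1]; norm_num)
  have h3 : 2 * δ * ((Nat.clog 2 (Fintype.card α + Fintype.card β) : ℝ) + 1) ≤
      2 * δ * ((Nat.clog 2 (Fintype.card α + Fintype.card β) : ℝ) + 2) := by
    apply mul_le_mul_of_nonneg_left _ (by linarith)
    linarith
  linarith

end Step

end Pool.Agent.FFG.LT
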