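import Pool.Agent.FFG.LT.Arcs

/-!
# Leaves and corners
-/

open Finset

set_option autoImplicit false
set_option linter.unusedSectionVars false
set_option linter.unusedVariables false

namespace Pool.Agent.FFG.LT

open Pool.Agent.PEPS953

variable {d L r : ℕ} [NeZero L]

theorem lt12_dx_le {k j : ℕ} (hkj : k ≤ j) {x y : ZMod L} (h : dx L j x = dx L j y) :
    dx L k x = dx L k y := by
  induction j, hkj using Nat.le_induction with
  | base => exact h
  | succ j hj ih =>
    apply ih
    rw [dx_nested j x, dx_nested j y, h]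

theorem lt12_dsq_le {k j : ℕ} (hkj : k ≤ j) {u v : Site L} (h : dsq j u = dsq j v) :
    dsq k u = dsq k v := by
  unfold dsq at h ⊢
  have h1 := congrArg Prod.fst h
  have h2 := congrArg Prod.snd h
  simp only at h1 h2
  rw [lt12_dx_le hkj h1, lt12_dx_le hkj h2]

theorem lt12_free_congr {S : Finset (Site L)} {g k : ℕ} {u v : Site L} (h : dsq k v = dsq k u) :
    free S g k v ↔ free S g k u := by
  unfold free
  rw [h]

open scoped Classical in
theorem lt12_lev_le (S : Finset (Site L)) (g K : ℕ) (u : Site L) : lev S g K u ≤ K := by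
  unfold lev
  split_ifs with h
  · exact (Nat.find_spec h).2.1
  · exact le_rfl

open scoped Classical in
theorem lt12_lev_ge (S : Finset (Site L)) (g : ℕ) {K : ℕ} (hK : 3 ≤ K) (u : Site L) :
    3 ≤ lev S g K u := by
  unfold lev
  split_ifs with h
  · exact (Nat.find_spec h).1
  · exact hK

open scoped Classical in
/-- Below the level of the leaf the squares are not free. -/
theorem lt12_not_free {S : Finset (Site L)} {g K : ℕ} {u : Site L} {k : ℕ} (h3 : 3 ≤ k)
    (hk : k < lev S g K u) : ¬ free S g k u := by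
  intro hf
  have hkK : k ≤ K := hk.le.trans (lt12_lev_le S g K u)
  have hex : ∃ k, 3 ≤ k ∧ k ≤ K ∧ free S g k u := ⟨k, h3, hkK, hf⟩
  unfold lev at hk
  rw [dif_pos hex] at hk
  exact Nat.find_min hex hk ⟨h3, hkK, hf⟩

open scoped Classical in
theorem lt12_lev_congr {S : Finset (Site L)} {g K : ℕ} {u v : Site L}
    (h : dsq (lev S g K u) v = dsq (lev S g K u) u) : lev S g K v = lev S g K u := by
  by_cases hu : ∃ k, 3 ≤ k ∧ k ≤ K ∧ free S g k u
  · have h1 : lev S g K u = Nat.find hu := by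
      unfold lev
      rw [dif_pos hu]
    have h2 := Nat.find_spec hu
    rw [h1] at h
    have hv : ∃ k, 3 ≤ k ∧ k ≤ K ∧ free S g k v :=
      ⟨Nat.find hu, h2.1, h2.2.1, (lt12_free_congr h).2 h2.2.2⟩
    have h3 : lev S g K v = Nat.find hv := by
      unfold lev
      rw [dif_pos hv]
    rw [h1, h3]
    have h4 := Nat.find_spec hv
    apply le_antisymm
    · exact Nat.find_min' hv ⟨h2.1, h2.2.1, (lt12_free_congr h).2 h2.2.2⟩
    · refine Nat.find_min' hu ⟨h4.1, h4.2.1, ?_⟩
      have h5 : Nat.find hv ≤ Nat.find hu :=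
        Nat.find_min' hv ⟨h2.1, h2.2.1, (lt12_free_congr h).2 h2.2.2⟩
      exact (lt12_free_congr (lt12_dsq_le h5 h)).1 h4.2.2
  · have h1 : lev S g K u = K := by
      unfold lev
      rw [dif_neg hu]
    rw [h1] at h ⊢
    have hv : ¬ ∃ k, 3 ≤ k ∧ k ≤ K ∧ free S g k v := by
      rintro ⟨k, hk1, hk2, hk3⟩
      exact hu ⟨k, hk1, hk2, (lt12_free_congr (lt12_dsq_le hk2 h)).1 hk3⟩
    unfold lev
    rw [dif_neg hv]

theorem leaf_eq_iff (S : Finset (Site L)) (g K : ℕ) (u v : Site L) :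
    leaf S g K v = leaf S g K u ↔ dsq (lev S g K u) v = dsq (lev S g K u) u := by
  constructor
  · intro h
    unfold leaf at h
    have h1 : lev S g K v = lev S g K u := congrArg Prod.fst h
    have h2 := congrArg Prod.snd h
    simp only at h2
    rw [h1] at h2
    exact h2
  · intro h
    have h1 := lt12_lev_congr h
    unfold leaf
    rw [h1, h]

theorem lt12_leaf_of_dsq (S : Finset (Site L)) (g K : ℕ) {u v : Site L} (h : dsq K v = dsq K u) :
    leaf S g K v = leaf S g K u :=
  (leaf_eq_iff S g K u v).2 (lt12_dsq_le (lt12_lev_le S g K u) h)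

theorem lt12_cdist_comm (x y : ZMod L) : cdist x y = cdist y x := by
  unfold cdist
  rw [← neg_sub, ZMod.natAbs_valMinAbs_neg]

theorem lt12_index {x y : ZMod L} {w : ℕ} (h : cdist x y ≤ w) :
    ∃ i, i < 2 * w + 1 ∧ y = x - (w : ZMod L) + (i : ZMod L) := by
  unfold cdist at h
  have hm := ZMod.coe_valMinAbs (x - y)
  set m := (x - y).valMinAbs
  have h1 : 0 ≤ (w : ℤ) - m := by omega
  refine ⟨((w : ℤ) - m).toNat, by omega, ?_⟩
  have h2 : ((((w : ℤ) - m).toNat : ℕ) : ZMod L) = (w : ZMod L) - (x - y) := by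
    rw [← hm]
    have h3 : (((((w : ℤ) - m).toNat : ℕ) : ℤ) : ZMod L) = (((w : ℤ) - m : ℤ) : ZMod L) := by
      rw [Int.toNat_of_nonneg h1]
    rw [Int.cast_natCast] at h3
    rw [h3]
    push_cast
    rfl
  rw [h2]
  ring

theorem lt12_cdist_le {x : ZMod L} {w i : ℕ} (hi : i < 2 * w + 1) (hw : 2 * w + 1 ≤ L) :
    cdist x (x - (w : ZMod L) + (i : ZMod L)) ≤ w := by
  unfold cdist
  have h1 : x - (x - (w : ZMod L) + (i : ZMod L)) = (((w : ℤ) - i : ℤ) : ZMod L) := by
    push_cast
    ring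
  rw [h1]
  have h2 := ZMod.natAbs_min_of_le_div_two L
    ((((w : ℤ) - i : ℤ) : ZMod L).valMinAbs) ((w : ℤ) - i) (by rw [ZMod.coe_valMinAbs])
    (ZMod.natAbs_valMinAbs_le _)
  omega

theorem lt12_mem_ball {ρ : ℕ} {u v : Site L} : v ∈ ball ρ {u} ↔ cdist u.1 v.1 ≤ ρ ∧
    cdist u.2 v.2 ≤ ρ := by
  simp [ball, sdist]

theorem exists_corner (S : Finset (Site L)) (g : ℕ) {K ρ : ℕ} (hK : 3 ≤ K) (hKL : 2 ^ K ≤ L)
    (hρ : 2 * ρ + 1 ≤ L / 2 ^ K) (u : Site L) (hu : 3 ≤ (nbl S g K ρ u).card) :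
    ∃ v ∈ ball ρ {u}, corner S g K v := by
  by_contra hcon
  push Not at hcon
  have hL : 2 * ρ + 1 ≤ L := hρ.trans (Nat.div_le_self _ _)
  obtain ⟨t, ht, ht1, ht2⟩ := dx_window hKL hρ u.1
  obtain ⟨t', ht', ht1', ht2'⟩ := dx_window hKL hρ u.2
  set s : ℕ → ℕ → Site L := fun i j =>
    (u.1 - (ρ : ZMod L) + (i : ZMod L), u.2 - (ρ : ZMod L) + (j : ZMod L)) with hs
  have hmem : ∀ i j, i < 2 * ρ + 1 → j < 2 * ρ + 1 → s i j ∈ ball ρ {u} := by
    intro i j hi hj
    rw [lt12_mem_ball]
    exact ⟨lt12_cdist_le hi hL, lt12_cdist_le hj hL⟩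
  have hB : ∀ i j i' j', i < 2 * ρ + 1 → j < 2 * ρ + 1 → i' < 2 * ρ + 1 → j' < 2 * ρ + 1 →
      (i < t ↔ i' < t) → (j < t' ↔ j' < t') → leaf S g K (s i j) = leaf S g K (s i' j') := by
    intro i j i' j' hi hj hi' hj' h1 h2
    apply lt12_leaf_of_dsq
    simp only [dsq, hs]
    congr 1
    · by_cases h3 : i < t
      · exact ht1 i i' h3 (h1.1 h3)
      · exact ht2 i i' (by omega) hi (by omega) hi'
    · by_cases h3 : j < t'
      · exact ht1' j j' h3 (h2.1 h3)
      · exact ht2' j j' (by omega) hj (by omega) hj'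
  have hcover : ∀ q ∈ nbl S g K ρ u, ∃ i j, i < 2 * ρ + 1 ∧ j < 2 * ρ + 1 ∧
      leaf S g K (s i j) = q := by
    intro q hq
    unfold nbl at hq
    rw [mem_image] at hq
    obtain ⟨v, hv, rfl⟩ := hq
    rw [lt12_mem_ball] at hv
    obtain ⟨i, hi, hi2⟩ := lt12_index hv.1
    obtain ⟨j, hj, hj2⟩ := lt12_index hv.2
    refine ⟨i, j, hi, hj, ?_⟩
    congr 1
    exact Prod.ext hi2.symm hj2.symm
  -- if the leaves take at most two values, we are done
  have hfin : ∀ a b : ℕ × ℕ × ℕ, (∀ q ∈ nbl S g K ρ u, q = a ∨ q = b) → False := by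
    intro a b hab
    have h1 : nbl S g K ρ u ⊆ {a, b} := by
      intro q hq
      rw [mem_insert, mem_singleton]
      exact hab q hq
    have h2 := card_le_card h1
    have h3 : ({a, b} : Finset (ℕ × ℕ × ℕ)).card ≤ 2 := card_le_two
    omega
  by_cases h0 : t = 0 ∨ t = 2 * ρ + 1
  · apply hfin (leaf S g K (s 0 0)) (leaf S g K (s 0 (2 * ρ)))
    intro q hq
    obtain ⟨i, j, hi, hj, rfl⟩ := hcover q hq
    by_cases h1 : j < t'
    · left
      exact hB _ _ _ _ hi hj (by omega) (by omega) (by omega) (by omega)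
    · right
      exact hB _ _ _ _ hi hj (by omega) (by omega) (by omega) (by omega)
  by_cases h0' : t' = 0 ∨ t' = 2 * ρ + 1
  · apply hfin (leaf S g K (s 0 0)) (leaf S g K (s (2 * ρ) 0))
    intro q hq
    obtain ⟨i, j, hi, hj, rfl⟩ := hcover q hq
    by_cases h1 : i < t
    · left
      exact hB _ _ _ _ hi hj (by omega) (by omega) (by omega) (by omega)
    · right
      exact hB _ _ _ _ hi hj (by omega) (by omega) (by omega) (by omega)
  push Not at h0 h0'
  obtain ⟨a, rfl⟩ : ∃ a, t = a + 1 := ⟨t - 1, by omega⟩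
  obtain ⟨b, rfl⟩ : ∃ b, t' = b + 1 := ⟨t' - 1, by omega⟩
  -- a site which is not a corner has the leaf of its horizontal or its vertical neighbours
  have hnc : ∀ v ∈ ball ρ {u},
      (∀ w : Site L, w.2 = v.2 → (w.1 = v.1 - 1 ∨ w.1 = v.1 + 1) → leaf S g K w = leaf S g K v) ∨
      (∀ w : Site L, w.1 = v.1 → (w.2 = v.2 - 1 ∨ w.2 = v.2 + 1) → leaf S g K w = leaf S g K v) := by
    intro v hv
    have h1 := hcon v hv
    unfold corner at h1
    rw [not_and_or, not_or, not_or, not_not, not_not, not_not, not_not] at h1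
    rcases h1 with ⟨h2, h3⟩ | ⟨h2, h3⟩
    · left
      intro w hw1 hw2
      rw [leaf_eq_iff]
      simp only [dsq, hw1]
      rcases hw2 with h4 | h4
      · rw [h4, h2]
      · rw [h4, h3]
    · right
      intro w hw1 hw2
      rw [leaf_eq_iff]
      simp only [dsq, hw1]
      rcases hw2 with h4 | h4
      · rw [h4, h2]
      · rw [h4, h3]
  have hstep : ∀ (x : ZMod L) (i : ℕ), x - (ρ : ZMod L) + ((i + 1 : ℕ) : ZMod L) =
      x - (ρ : ZMod L) + (i : ZMod L) + 1 := by
    intro x i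
    push_cast
    ring
  have hstep' : ∀ (x : ZMod L) (i : ℕ), x - (ρ : ZMod L) + (i : ZMod L) =
      x - (ρ : ZMod L) + ((i + 1 : ℕ) : ZMod L) - 1 := by
    intro x i
    push_cast
    ring
  have e2 : leaf S g K (s a b) = leaf S g K (s (a + 1) b) ∨
      leaf S g K (s (a + 1) (b + 1)) = leaf S g K (s (a + 1) b) := by
    rcases hnc (s (a + 1) b) (hmem _ _ (by omega) (by omega)) with h | h
    · left
      exact h _ rfl (Or.inl (hstep' _ _))
    · right
      exact h _ rfl (Or.inr (hstep _ _))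
  have e3 : leaf S g K (s (a + 1) (b + 1)) = leaf S g K (s a (b + 1)) ∨
      leaf S g K (s a b) = leaf S g K (s a (b + 1)) := by
    rcases hnc (s a (b + 1)) (hmem _ _ (by omega) (by omega)) with h | h
    · left
      exact h _ rfl (Or.inr (hstep _ _))
    · right
      exact h _ rfl (Or.inl (hstep' _ _))
  have hall : ∀ q ∈ nbl S g K ρ u, q = leaf S g K (s a b) ∨ q = leaf S g K (s (a + 1) b) ∨
      q = leaf S g K (s a (b + 1)) ∨ q = leaf S g K (s (a + 1) (b + 1)) := by
    intro q hq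
    obtain ⟨i, j, hi, hj, rfl⟩ := hcover q hq
    by_cases h1 : i < a + 1
    · by_cases h2 : j < b + 1
      · left
        exact hB _ _ _ _ hi hj (by omega) (by omega) (by omega) (by omega)
      · right; right; left
        exact hB _ _ _ _ hi hj (by omega) (by omega) (by omega) (by omega)
    · by_cases h2 : j < b + 1
      · right; left
        exact hB _ _ _ _ hi hj (by omega) (by omega) (by omega) (by omega)
      · right; right; right
        exact hB _ _ _ _ hi hj (by omega) (by omega) (by omega) (by omega)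
  generalize leaf S g K (s a b) = p1 at *
  generalize leaf S g K (s (a + 1) b) = p2 at *
  generalize leaf S g K (s a (b + 1)) = p3 at *
  generalize leaf S g K (s (a + 1) (b + 1)) = p4 at *
  apply hfin p1 p4
  intro q hq
  rcases hall q hq with h | h | h | h
  · exact Or.inl h
  · rcases e2 with h' | h'
    · exact Or.inl (h.trans h'.symm)
    · exact Or.inr (h.trans h'.symm)
  · rcases e3 with h' | h'
    · exact Or.inr (h.trans h'.symm)
    · exact Or.inl (h.trans h'.symm)
  · exact Or.inr h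

end Pool.Agent.FFG.LT
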