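import Pool.Agent.FFG.LT.Corners

/-!
# The number of leaves
-/

open Finset

set_option autoImplicit false
set_option linter.unusedSectionVars false
set_option linter.unusedVariables false

namespace Pool.Agent.FFG.LT

open Pool.Agent.PEPS953

variable {d L r : ℕ} [NeZero L]

/-- The squares of level `k` which meet the window of radius `g` about `s`. -/
def lt13_near (g k : ℕ) (s : Site L) : Finset (ℕ × ℕ) :=
  ({dx L k (s.1 - (g : ZMod L) + ((0 : ℕ) : ZMod L)),
    dx L k (s.1 - (g : ZMod L) + ((2 * g : ℕ) : ZMod L))} : Finset ℕ) ×ˢ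
  ({dx L k (s.2 - (g : ZMod L) + ((0 : ℕ) : ZMod L)),
    dx L k (s.2 - (g : ZMod L) + ((2 * g : ℕ) : ZMod L))} : Finset ℕ)

theorem lt13_near_card (g k : ℕ) (s : Site L) : (lt13_near g k s).card ≤ 4 := by
  unfold lt13_near
  rw [card_product]
  have h1 := card_le_two (a := dx L k (s.1 - (g : ZMod L) + ((0 : ℕ) : ZMod L)))
    (b := dx L k (s.1 - (g : ZMod L) + ((2 * g : ℕ) : ZMod L)))
  have h2 := card_le_two (a := dx L k (s.2 - (g : ZMod L) + ((0 : ℕ) : ZMod L)))
    (b := dx L k (s.2 - (g : ZMod L) + ((2 * g : ℕ) : ZMod L)))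
  calc _ ≤ 2 * 2 := Nat.mul_le_mul h1 h2
    _ = 4 := rfl

theorem lt13_dx_near {g k : ℕ} (hk : 2 ^ k ≤ L) (hg : 2 * g + 1 ≤ L / 2 ^ k) {x y : ZMod L}
    (h : cdist x y ≤ g) :
    dx L k y = dx L k (x - (g : ZMod L) + ((0 : ℕ) : ZMod L)) ∨
      dx L k y = dx L k (x - (g : ZMod L) + ((2 * g : ℕ) : ZMod L)) := by
  obtain ⟨t, ht, ht1, ht2⟩ := dx_window hk hg x
  obtain ⟨i, hi, rfl⟩ := lt12_index h
  by_cases h1 : i < t
  · left
    exact ht1 i 0 h1 (by omega)
  · right
    exact ht2 i (2 * g) (by omega) hi (by omega) (by omega)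

theorem lt13_mem_near {S : Finset (Site L)} {g k : ℕ} (hk : 2 ^ k ≤ L)
    (hg : 2 * g + 1 ≤ L / 2 ^ k) {u : Site L} (hu : ¬ free S g k u) :
    dsq k u ∈ S.biUnion (lt13_near g k) := by
  unfold free at hu
  push Not at hu
  obtain ⟨v, hv, s, hs, hvs⟩ := hu
  rw [mem_biUnion]
  refine ⟨s, hs, ?_⟩
  rw [← hv]
  have h1 : cdist s.1 v.1 ≤ g ∧ cdist s.2 v.2 ≤ g := by
    rw [lt12_cdist_comm s.1, lt12_cdist_comm s.2]
    unfold sdist at hvs
    exact max_le_iff.1 hvs
  unfold lt13_near dsq
  rw [mem_product]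
  simp only [mem_insert, mem_singleton]
  exact ⟨lt13_dx_near hk hg h1.1, lt13_dx_near hk hg h1.2⟩

theorem lt13_card_near (S : Finset (Site L)) (g k : ℕ) :
    (S.biUnion (lt13_near g k)).card ≤ 4 * S.card := by
  refine (card_biUnion_le_card_mul S _ 4 (fun s _ => lt13_near_card g k s)).trans ?_
  rw [mul_comm]

/-- The children of a square. -/
def lt13_ch (p : ℕ × ℕ) : Finset (ℕ × ℕ) :=
  ({2 * p.1, 2 * p.1 + 1} : Finset ℕ) ×ˢ ({2 * p.2, 2 * p.2 + 1} : Finset ℕ)

theorem lt13_ch_card (p : ℕ × ℕ) : (lt13_ch p).card ≤ 4 := by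
  unfold lt13_ch
  rw [card_product]
  have h1 := card_le_two (a := 2 * p.1) (b := 2 * p.1 + 1)
  have h2 := card_le_two (a := 2 * p.2) (b := 2 * p.2 + 1)
  calc _ ≤ 2 * 2 := Nat.mul_le_mul h1 h2
    _ = 4 := rfl

theorem lt13_mem_ch (k : ℕ) (u : Site L) : dsq (k + 1) u ∈ lt13_ch (dsq k u) := by
  unfold lt13_ch dsq
  rw [mem_product]
  simp only [mem_insert, mem_singleton]
  rw [dx_nested k u.1, dx_nested k u.2]
  constructor <;> omega

/-- A set of squares of level `k + 1` which contains the leaves of this level. -/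
def lt13_F (S : Finset (Site L)) (g k : ℕ) : Finset (ℕ × ℕ × ℕ) :=
  ((S.biUnion (lt13_near g k)).biUnion lt13_ch).image fun p => (k + 1, p)

theorem lt13_F_card (S : Finset (Site L)) (g k : ℕ) : (lt13_F S g k).card ≤ 16 * S.card := by
  unfold lt13_F
  refine card_image_le.trans ?_
  refine (card_biUnion_le_card_mul _ _ 4 (fun p _ => lt13_ch_card p)).trans ?_
  have := lt13_card_near S g k
  omega

open scoped Classical in
/-- LT13 (the number of leaves). -/
theorem leaf_count (S : Finset (Site L)) {g K : ℕ} (hK : 3 ≤ K) (hKL : 2 ^ K ≤ L)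
    (hg : 2 * g + 1 ≤ L / 2 ^ K) :
    ((univ : Finset (Site L)).image (leaf S g K)).card ≤ 64 + 16 * S.card * K ∧
      ((univ.filter fun u : Site L => ¬ free S g (lev S g K u) u).image (leaf S g K)).card ≤
        16 * S.card := by
  have hpow : ∀ k, k ≤ K → 2 ^ k ≤ L ∧ 2 * g + 1 ≤ L / 2 ^ k := by
    intro k hk
    have h1 : 2 ^ k ≤ 2 ^ K := Nat.pow_le_pow_right (by norm_num) hk
    exact ⟨h1.trans hKL, hg.trans (Nat.div_le_div_left h1 (by positivity))⟩
  constructor
  · have hsub : (univ : Finset (Site L)).image (leaf S g K) ⊆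
        ((range 8 ×ˢ range 8).image fun p : ℕ × ℕ => ((3 : ℕ), p)) ∪
          (range K).biUnion (lt13_F S g) := by
      intro q hq
      rw [mem_image] at hq
      obtain ⟨u, -, rfl⟩ := hq
      rw [mem_union]
      have h3 := lt12_lev_ge S g hK u
      by_cases h4 : lev S g K u = 3
      · left
        rw [mem_image]
        refine ⟨dsq 3 u, ?_, ?_⟩
        · rw [mem_product, mem_range, mem_range]
          exact ⟨dx_lt 3 u.1, dx_lt 3 u.2⟩
        · unfold leaf
          rw [h4]
      · right
        obtain ⟨k, hk⟩ : ∃ k, lev S g K u = k + 1 := ⟨lev S g K u - 1, by omega⟩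
        have hkK : k + 1 ≤ K := hk ▸ lt12_lev_le S g K u
        rw [mem_biUnion]
        refine ⟨k, mem_range.2 (by omega), ?_⟩
        unfold lt13_F
        rw [mem_image]
        refine ⟨dsq (k + 1) u, ?_, ?_⟩
        · rw [mem_biUnion]
          refine ⟨dsq k u, ?_, lt13_mem_ch k u⟩
          have h5 := hpow k (by omega)
          exact lt13_mem_near h5.1 h5.2 (lt12_not_free (K := K) (by omega) (by omega))
        · unfold leaf
          rw [hk]
    refine (card_le_card hsub).trans ?_
    refine (card_union_le _ _).trans ?_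
    have h1 : ((range 8 ×ˢ range 8).image fun p : ℕ × ℕ => ((3 : ℕ), p)).card ≤ 64 := by
      refine card_image_le.trans ?_
      rw [card_product, card_range]
    have h2 : ((range K).biUnion (lt13_F S g)).card ≤ K * (16 * S.card) := by
      refine (card_biUnion_le_card_mul _ _ (16 * S.card)
        (fun k _ => lt13_F_card S g k)).trans ?_
      rw [card_range]
    have h3 : K * (16 * S.card) = 16 * S.card * K := mul_comm _ _
    omega
  · have hsub : (univ.filter fun u : Site L => ¬ free S g (lev S g K u) u).image (leaf S g K) ⊆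
        (S.biUnion (lt13_near g K)).image fun p => (K, p) := by
      intro q hq
      rw [mem_image] at hq
      obtain ⟨u, hu, rfl⟩ := hq
      rw [mem_filter] at hu
      have hlev : lev S g K u = K := by
        by_contra hne
        apply hu.2
        unfold lev at hne ⊢
        split_ifs at hne ⊢ with h
        · exact (Nat.find_spec h).2.2
        · exact absurd rfl hne
      rw [mem_image]
      refine ⟨dsq K u, ?_, ?_⟩
      · apply lt13_mem_near hKL hg
        have := hu.2
        rw [hlev] at this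
        exact this
      · unfold leaf
        rw [hlev]
    refine (card_le_card hsub).trans ?_
    refine card_image_le.trans ?_
    have := lt13_card_near S g K
    omega

end Pool.Agent.FFG.LT
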