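import Pool.Agent.FFG.LT.Arcs
import Pool.Agent.FFG.LT.Corners
import Pool.Agent.FFG.LT.LeafCount
import Pool.Agent.FFG.Exotic

/-!
# The size of the exceptional set of the quadtree
-/

open Finset

set_option autoImplicit false
set_option linter.unusedSectionVars false
set_option linter.unusedVariables false

namespace Pool.Agent.FFG.LT

open Pool.Agent.PEPS953

variable {L : ℕ} [NeZero L]

lemma lt14_arc_card (p : ZMod L) (a ρ : ℕ) :
    (univ.filter fun x : ZMod L => ∃ y : ZMod L, (y - p).val < a ∧ cdist x y ≤ ρ).card ≤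
      a + 2 * ρ := by
  have hsub : (univ.filter fun x : ZMod L => ∃ y : ZMod L, (y - p).val < a ∧ cdist x y ≤ ρ) ⊆
      (range (a + 2 * ρ)).image (fun t : ℕ => p - (ρ : ZMod L) + (t : ZMod L)) := by
    intro x hx
    obtain ⟨y, hy, hxy⟩ := (mem_filter.mp hx).2
    obtain ⟨t, ht, ht'⟩ := cdist_rep x y hxy
    rw [mem_image]
    refine ⟨(y - p).val + t, ?_, ?_⟩
    · rw [mem_range]
      omega
    · push_cast
      rw [ZMod.natCast_zmod_val, ← ht']
      ring
  calc _ ≤ _ := card_le_card hsub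
    _ ≤ (range (a + 2 * ρ)).card := card_image_le
    _ = a + 2 * ρ := card_range _

lemma lt14_val_pred (z : ZMod L) (h : z ≠ 0) : (z - 1).val + 1 = z.val := by
  have h1 : z.val ≠ 0 := by
    intro h2
    exact h ((ZMod.val_eq_zero z).1 h2)
  have h2 : z - 1 = ((z.val - 1 : ℕ) : ZMod L) := by
    rw [Nat.cast_sub (by omega), ZMod.natCast_zmod_val]
    simp
  rw [h2, ZMod.val_natCast, Nat.mod_eq_of_lt]
  · omega
  · have := ZMod.val_lt z
    omega

lemma lt14_end (p x : ZMod L) (a : ℕ) (h : (x - p).val < a)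
    (h' : ¬ (x - 1 - p).val < a ∨ ¬ (x + 1 - p).val < a) :
    x = p ∨ x = p + ((a - 1 : ℕ) : ZMod L) := by
  by_cases h0 : x - p = 0
  · left
    exact sub_eq_zero.1 h0
  · have h1 := lt14_val_pred (x - p) h0
    rw [show x - p - 1 = x - 1 - p by ring] at h1
    right
    rcases h' with h2 | h2
    · omega
    · have h3 : x + 1 - p = (((x - p).val + 1 : ℕ) : ZMod L) := by
        push_cast
        rw [ZMod.natCast_zmod_val]
        ring
      have h4 : (x + 1 - p).val ≤ (x - p).val + 1 := by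
        rw [h3, ZMod.val_natCast]
        exact Nat.mod_le _ _
      have h5 : (x - p).val = a - 1 := by omega
      have h6 : x = p + (((x - p).val : ℕ) : ZMod L) := by
        rw [ZMod.natCast_zmod_val]
        ring
      rw [← h5]
      exact h6

lemma lt14_lev_le (S : Finset (Site L)) (g K : ℕ) (u : Site L) : lev S g K u ≤ K := by
  classical
  unfold lev
  split_ifs with h
  · exact (Nat.find_spec h).2.1
  · exact le_rfl

lemma lt14_lev_bad (S : Finset (Site L)) (g K : ℕ) (u : Site L)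
    (hu : ¬ free S g (lev S g K u) u) : lev S g K u = K := by
  classical
  by_contra hne
  apply hu
  unfold lev at hne ⊢
  split_ifs with h
  · exact (Nat.find_spec h).2.2
  · rw [dif_neg h] at hne
    exact absurd rfl hne

/-- The corners of a leaf. -/
lemma lt14_corners (S : Finset (Site L)) {g K : ℕ} (hKL : 2 ^ K ≤ L) (v₀ : Site L) :
    ∃ T : Finset (Site L), T.card ≤ 4 ∧ ∀ v : Site L, corner S g K v →
      leaf S g K v = leaf S g K v₀ → v ∈ T := by
  classical
  have hk : 2 ^ lev S g K v₀ ≤ L :=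
    (Nat.pow_le_pow_right (by norm_num) (lt14_lev_le S g K v₀)).trans hKL
  obtain ⟨p, a, -, -, h1⟩ := dx_arc hk (dx L (lev S g K v₀) v₀.1)
  obtain ⟨q, b, -, -, h2⟩ := dx_arc hk (dx L (lev S g K v₀) v₀.2)
  refine ⟨({p, p + ((a - 1 : ℕ) : ZMod L)} : Finset (ZMod L)) ×ˢ
    ({q, q + ((b - 1 : ℕ) : ZMod L)} : Finset (ZMod L)), ?_, ?_⟩
  · rw [card_product]
    calc _ ≤ 2 * 2 := Nat.mul_le_mul card_le_two card_le_two
      _ = 4 := by norm_num
  · intro v hv hl
    unfold leaf dsq at hl
    rw [Prod.mk.injEq, Prod.mk.injEq] at hl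
    obtain ⟨hl0, hl1, hl2⟩ := hl
    unfold corner at hv
    rw [hl0] at hv hl1 hl2
    rw [hl1, hl2] at hv
    rw [ne_eq, ne_eq, ne_eq, ne_eq, h1, h1, h2, h2] at hv
    rw [h1] at hl1
    rw [h2] at hl2
    rw [mem_product, mem_insert, mem_singleton, mem_insert, mem_singleton]
    exact ⟨lt14_end p v.1 a hl1 hv.1, lt14_end q v.2 b hl2 hv.2⟩

open scoped Classical in
/-- LT14 (the number of corners and the size of the exceptional set). -/
theorem exceptional_card (S : Finset (Site L)) {g K w : ℕ} (hw : 0 < w) (hK : 3 ≤ K)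
    (hKL : 16 * w * 2 ^ K ≤ L) (hLK : L ≤ 32 * w * 2 ^ K) (hg : 2 * g + 1 ≤ L / 2 ^ K) :
    (univ.filter fun u : Site L => 3 ≤ (nbl S g K (2 * w) u).card ∨
      ∃ v ∈ ball (2 * w) {u}, ¬ free S g (lev S g K v) v).card ≤
        10 ^ 6 * w ^ 2 * (K + 1) * (1 + S.card) := by
  have h2K : 0 < 2 ^ K := by positivity
  have hKL' : 2 ^ K ≤ L := by
    refine le_trans ?_ hKL
    exact Nat.le_mul_of_pos_left _ (by omega)
  have hLd : 16 * w ≤ L / 2 ^ K := (Nat.le_div_iff_mul_le h2K).2 hKL
  have hLd2 : L / 2 ^ K ≤ 32 * w := Nat.div_le_of_le_mul (by rw [mul_comm]; exact hLK)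
  have hρ : 2 * (2 * w) + 1 ≤ L / 2 ^ K := by omega
  obtain ⟨hc1, hc2⟩ := leaf_count S hK hKL' hg
  set Exc : Finset (Site L) := univ.filter fun u : Site L => 3 ≤ (nbl S g K (2 * w) u).card ∨
      ∃ v ∈ ball (2 * w) {u}, ¬ free S g (lev S g K v) v with hExc
  have hball : ∀ (u v : Site L), v ∈ ball (2 * w) {u} → sdist u v ≤ 2 * w := by
    intro u v hv
    unfold ball at hv
    obtain ⟨z, hz, hzv⟩ := (mem_filter.mp hv).2
    rw [mem_singleton] at hz
    rw [← hz]
    exact hzv
  set Cor : Finset (Site L) := univ.filter fun v => corner S g K v with hCor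
  set Bad : Finset (Site L) := univ.filter fun v => ¬ free S g (lev S g K v) v with hBad
  -- the corners
  have hCorCard : Cor.card ≤ 4 * (64 + 16 * S.card * K) := by
    calc Cor.card ≤ 4 * (Cor.image (leaf S g K)).card := by
          apply card_le_mul_card_image
          intro ℓ hℓ
          obtain ⟨v₀, hv₀, rfl⟩ := mem_image.mp hℓ
          obtain ⟨T, hT, hT'⟩ := lt14_corners S (g := g) hKL' v₀
          refine le_trans (card_le_card ?_) hT
          intro v hv
          rw [mem_filter, hCor, mem_filter] at hv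
          exact hT' v hv.1.2 hv.2
      _ ≤ 4 * ((univ : Finset (Site L)).image (leaf S g K)).card := by
          apply Nat.mul_le_mul_left
          exact card_le_card (image_subset_image (subset_univ _))
      _ ≤ 4 * (64 + 16 * S.card * K) := Nat.mul_le_mul_left _ hc1
  -- the bad leaves
  set Near : Finset (Site L) := (Bad.image (leaf S g K)).biUnion fun ℓ =>
    univ.filter fun u => ∃ v, v ∈ Bad ∧ leaf S g K v = ℓ ∧ sdist u v ≤ 2 * w with hNear
  have hNearCard : Near.card ≤ 16 * S.card * (36 * w + 1) ^ 2 := by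
    refine le_trans (card_biUnion_le_card_mul _ _ ((36 * w + 1) ^ 2) ?_)
      (Nat.mul_le_mul_right _ hc2)
    intro ℓ hℓ
    obtain ⟨v₀, hv₀, rfl⟩ := mem_image.mp hℓ
    rw [hBad, mem_filter] at hv₀
    have hlev₀ := lt14_lev_bad S g K v₀ hv₀.2
    obtain ⟨p, a, ha, -, h1⟩ := dx_arc hKL' (dx L K v₀.1)
    obtain ⟨q, b, hb, -, h2⟩ := dx_arc hKL' (dx L K v₀.2)
    have hsub : (univ.filter fun u : Site L => ∃ v, v ∈ Bad ∧ leaf S g K v = leaf S g K v₀ ∧
        sdist u v ≤ 2 * w) ⊆
        (univ.filter fun x : ZMod L => ∃ y : ZMod L, (y - p).val < a ∧ cdist x y ≤ 2 * w) ×ˢ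
        (univ.filter fun x : ZMod L => ∃ y : ZMod L, (y - q).val < b ∧ cdist x y ≤ 2 * w) := by
      intro u hu
      obtain ⟨v, hv, hl, hd⟩ := (mem_filter.mp hu).2
      unfold leaf dsq at hl
      rw [Prod.mk.injEq, Prod.mk.injEq] at hl
      obtain ⟨hl0, hl1, hl2⟩ := hl
      rw [hl0, hlev₀, h1] at hl1
      rw [hl0, hlev₀, h2] at hl2
      rw [mem_product, mem_filter, mem_filter]
      unfold sdist at hd
      exact ⟨⟨mem_univ _, v.1, hl1, (le_max_left _ _).trans hd⟩,
        ⟨mem_univ _, v.2, hl2, (le_max_right _ _).trans hd⟩⟩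
    refine (card_le_card hsub).trans ?_
    rw [card_product, sq]
    refine Nat.mul_le_mul ((lt14_arc_card p a (2 * w)).trans ?_)
      ((lt14_arc_card q b (2 * w)).trans ?_) <;> omega
  -- the inclusion
  have hsub : Exc ⊆ nbhd (2 * w) Cor ∪ Near := by
    intro u hu
    rw [mem_union]
    simp only [hExc, mem_filter, mem_univ, true_and] at hu
    rcases hu with h | ⟨v, hv, hf⟩
    · left
      obtain ⟨v, hv, hc⟩ := exists_corner S g hK hKL' hρ u h
      unfold nbhd
      rw [mem_filter]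
      exact ⟨mem_univ _, v, mem_filter.mpr ⟨mem_univ _, hc⟩, hball u v hv⟩
    · right
      have hvB : v ∈ Bad := mem_filter.mpr ⟨mem_univ _, hf⟩
      rw [hNear, mem_biUnion]
      exact ⟨leaf S g K v, mem_image_of_mem _ hvB,
        mem_filter.mpr ⟨mem_univ _, v, hvB, rfl, hball u v hv⟩⟩
  have hn := nbhd_card (2 * w) Cor
  calc _ ≤ (nbhd (2 * w) Cor ∪ Near).card := card_le_card hsub
    _ ≤ (nbhd (2 * w) Cor).card + Near.card := card_union_le _ _
    _ ≤ (2 * (2 * w) + 1) ^ 2 * (4 * (64 + 16 * S.card * K)) +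
        16 * S.card * (36 * w + 1) ^ 2 := by
        refine Nat.add_le_add (hn.trans ?_) hNearCard
        exact Nat.mul_le_mul_left _ hCorCard
    _ ≤ (5 * w) ^ 2 * (4 * (64 + 16 * S.card * K)) + 16 * S.card * (37 * w) ^ 2 := by
        refine Nat.add_le_add (Nat.mul_le_mul_right _ (Nat.pow_le_pow_left (by omega) 2))
          (Nat.mul_le_mul_left _ (Nat.pow_le_pow_left (by omega) 2))
    _ ≤ 10 ^ 6 * w ^ 2 * (K + 1) * (1 + S.card) := by
        have : (5 * w) ^ 2 * (4 * (64 + 16 * S.card * K)) + 16 * S.card * (37 * w) ^ 2 =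
            w ^ 2 * (6400 + 1600 * (S.card * K) + 21904 * S.card) := by ring
        rw [this]
        have h3 : 10 ^ 6 * w ^ 2 * (K + 1) * (1 + S.card) =
            w ^ 2 * (10 ^ 6 * (1 + S.card + K + S.card * K)) := by ring
        rw [h3]
        apply Nat.mul_le_mul_left
        nlinarith [Nat.zero_le (S.card * K), Nat.zero_le K, Nat.zero_le S.card]

end Pool.Agent.FFG.LT
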