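import Pool.Agent.FFG.LT.Defs

/-!
# The choice of the parameters
-/

open Finset
open scoped ComplexOrder

set_option autoImplicit false

namespace Pool.Agent.FFG.LT

open Pool.Agent.PEPS953

variable {d r : ℕ}

/-- Purely numerical part of the choice of the parameters. -/
theorem lt18_params (r d k₀ k₁ : ℕ) (hr : 0 < r) (C₀ c₂ C₁ : ℝ) (hC₀ : 0 < C₀) (hc₂ : 1 ≤ c₂) :
    ∃ (W : ℝ) (L₀ : ℕ), 1 ≤ W ∧ ∀ L : ℕ, L₀ ≤ L → ∃ (q ρ₁ : ℕ),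
      3 ≤ L ∧ r ≤ L ∧ (q * (4 * r ^ 2) + 4) * r ≤ ρ₁ ∧
      ((1 + 1 / (C₀ * (Real.log L) ^ k₀) / c₂ / ((4 * r ^ 2 : ℕ) : ℝ) ^ 2)⁻¹) ^ q ≤
        (((L : ℝ) ^ 8)⁻¹) ^ 2 ∧
      4 * (2 * (L : ℝ) ^ 4 * (8 * ((L : ℝ) ^ 8)⁻¹)) * (L ^ 2 * d + 3) < 1 ∧
      ∀ ρ₀ : ℕ, (ρ₀ : ℝ) ≤ C₁ * (Real.log L) ^ k₁ →
        200 * (ρ₀ + ρ₁) ≤ L ∧ 24 * (ρ₀ + ρ₁ + 1) ≤ L ∧
        ((ρ₀ + ρ₁ : ℕ) : ℝ) ≤ W * (Real.log L) ^ (k₀ + k₁ + 1) := by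
  obtain ⟨g, hg⟩ : ∃ g : ℝ, g = ((4 * r ^ 2 : ℕ) : ℝ) := ⟨_, rfl⟩
  have hr1 : (1 : ℝ) ≤ r := by exact_mod_cast hr
  have hg4 : 4 ≤ g := by
    rw [hg]; push_cast
    nlinarith
  obtain ⟨D, hD⟩ : ∃ D : ℝ, D = 32 * (C₀ * c₂ * g ^ 2 + 1) + 1 := ⟨_, rfl⟩
  have hD1 : 33 ≤ D := by
    rw [hD]
    have : 0 ≤ C₀ * c₂ * g ^ 2 := by positivity
    linarith
  obtain ⟨W, hW⟩ : ∃ W : ℝ, W = |C₁| + (D * g + 4) * r := ⟨_, rfl⟩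
  have hW1 : 1 ≤ W := by
    rw [hW]
    have h1 : 0 ≤ |C₁| := abs_nonneg _
    have h2 : (4 : ℝ) ≤ D * g + 4 := by nlinarith
    nlinarith
  obtain ⟨L₁, hL₁⟩ := polylog_le (200 * W) (k₀ + k₁ + 1)
  refine ⟨W, max (max L₁ r) (max 3 (64 * (d + 3) + 1)), hW1, fun L hL => ?_⟩
  have hLL₁ : L₁ ≤ L := le_trans (le_trans (le_max_left _ _) (le_max_left _ _)) hL
  have hLr : r ≤ L := le_trans (le_trans (le_max_right _ _) (le_max_left _ _)) hL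
  have hL3 : 3 ≤ L := le_trans (le_trans (le_max_left _ _) (le_max_right _ _)) hL
  have hLd : 64 * (d + 3) + 1 ≤ L := le_trans (le_trans (le_max_right _ _) (le_max_right _ _)) hL
  obtain ⟨ℓ, hℓ⟩ : ∃ ℓ : ℝ, ℓ = Real.log L := ⟨_, rfl⟩
  have hℓ1 : 1 ≤ ℓ := by rw [hℓ]; exact Pool.Agent.PEPS953.one_le_log hL3
  have hL0 : (0 : ℝ) < L := by
    have : 0 < L := by omega
    exact_mod_cast this
  have hL1 : (1 : ℝ) ≤ L := by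
    have : 1 ≤ L := by omega
    exact_mod_cast this
  have hexp : Real.exp ℓ = L := by rw [hℓ, Real.exp_log hL0]
  rw [← hℓ]
  have hpow1 : ∀ k : ℕ, 1 ≤ ℓ ^ k := fun k => one_le_pow₀ hℓ1
  have hpm : ∀ {a b : ℕ}, a ≤ b → ℓ ^ a ≤ ℓ ^ b := fun hab => pow_le_pow_right₀ hℓ1 hab
  obtain ⟨x, hx⟩ : ∃ x : ℝ, x = 1 / (C₀ * ℓ ^ k₀) / c₂ / g ^ 2 := ⟨_, rfl⟩
  have hℓk : 0 < ℓ ^ k₀ := by linarith [hpow1 k₀]
  have hx0 : 0 < x := by rw [hx]; positivity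
  have hxinv : 1 / x = C₀ * c₂ * g ^ 2 * ℓ ^ k₀ := by
    rw [hx]; field_simp
  obtain ⟨y, hy⟩ : ∃ y : ℝ, y = min x 1 := ⟨_, rfl⟩
  have hy0 : 0 < y := by rw [hy]; exact lt_min hx0 one_pos
  have hy1 : y ≤ 1 := by rw [hy]; exact min_le_right _ _
  have hyx : y ≤ x := by rw [hy]; exact min_le_left _ _
  have hyinv : 1 / y ≤ 1 / x + 1 := by
    rcases le_total x 1 with h | h
    · rw [hy, min_eq_left h]; linarith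
    · rw [hy, min_eq_right h]
      have : 0 < 1 / x := by positivity
      linarith
  obtain ⟨q, hq⟩ : ∃ q : ℕ, q = ⌈32 * ℓ / y⌉₊ := ⟨_, rfl⟩
  have hq1 : 32 * ℓ / y ≤ q := by rw [hq]; exact Nat.le_ceil _
  have hq2 : (q : ℝ) < 32 * ℓ / y + 1 := by
    rw [hq]; exact Nat.ceil_lt_add_one (by positivity)
  have hqD : (q : ℝ) ≤ D * ℓ ^ (k₀ + 1) := by
    have h1 : 32 * ℓ / y ≤ 32 * ℓ * (C₀ * c₂ * g ^ 2 * ℓ ^ k₀ + 1) := by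
      have : 32 * ℓ / y = 32 * ℓ * (1 / y) := by ring
      rw [this, ← hxinv]
      exact mul_le_mul_of_nonneg_left hyinv (by linarith)
    have h2 : ℓ ≤ ℓ ^ (k₀ + 1) := by
      calc ℓ = ℓ ^ 1 := (pow_one ℓ).symm
        _ ≤ _ := hpm (by omega)
    have h3 : 32 * ℓ * (C₀ * c₂ * g ^ 2 * ℓ ^ k₀ + 1) =
        32 * (C₀ * c₂ * g ^ 2) * ℓ ^ (k₀ + 1) + 32 * ℓ := by rw [pow_succ]; ring
    have h4 := hpow1 (k₀ + 1)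
    rw [hD]
    calc (q : ℝ) ≤ 32 * (C₀ * c₂ * g ^ 2) * ℓ ^ (k₀ + 1) + 32 * ℓ + 1 := by linarith
      _ ≤ 32 * (C₀ * c₂ * g ^ 2) * ℓ ^ (k₀ + 1) + 32 * ℓ ^ (k₀ + 1) + ℓ ^ (k₀ + 1) := by linarith
      _ = _ := by ring
  refine ⟨q, (q * (4 * r ^ 2) + 4) * r, hL3, hLr, le_rfl, ?_, ?_, fun ρ₀ hρ₀ => ?_⟩
  · rw [← hg, ← hx]
    have h1 : Real.exp (y / 2) ≤ 1 + x := (exp_half_le hy0.le hy1).trans (by linarith)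
    have h2 : (1 + x)⁻¹ ≤ Real.exp (-(y / 2)) := by
      rw [Real.exp_neg]
      exact inv_anti₀ (Real.exp_pos _) h1
    have h3 : 32 * ℓ ≤ y * q := by
      have : y * (32 * ℓ / y) ≤ y * q := mul_le_mul_of_nonneg_left hq1 hy0.le
      rwa [mul_div_cancel₀ _ hy0.ne'] at this
    calc ((1 + x)⁻¹) ^ q ≤ (Real.exp (-(y / 2))) ^ q :=
          pow_le_pow_left₀ (by positivity) h2 q
      _ = Real.exp (-(y * q / 2)) := by rw [← Real.exp_nat_mul]; ring_nf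
      _ ≤ Real.exp (-(16 * ℓ)) := Real.exp_le_exp.mpr (by linarith)
      _ = (((L : ℝ) ^ 8)⁻¹) ^ 2 := by
          rw [Real.exp_neg, inv_pow, ← pow_mul, ← hexp, ← Real.exp_nat_mul]
          norm_num
  · have h1 : (64 * ((d : ℝ) + 3) + 1) ≤ L := by exact_mod_cast hLd
    have h2 : (L : ℝ) ^ 2 * d + 3 ≤ L ^ 2 * (d + 3) := by
      have : (1 : ℝ) ≤ (L : ℝ) ^ 2 := one_le_pow₀ hL1
      rw [mul_add]
      linarith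
    have h3 : 4 * (2 * (L : ℝ) ^ 4 * (8 * ((L : ℝ) ^ 8)⁻¹)) * (L ^ 2 * d + 3) ≤
        4 * (2 * (L : ℝ) ^ 4 * (8 * ((L : ℝ) ^ 8)⁻¹)) * (L ^ 2 * (d + 3)) :=
      mul_le_mul_of_nonneg_left h2 (by positivity)
    have h4 : 4 * (2 * (L : ℝ) ^ 4 * (8 * ((L : ℝ) ^ 8)⁻¹)) * ((L : ℝ) ^ 2 * (d + 3)) =
        64 * (d + 3) / (L : ℝ) ^ 2 := by
      field_simp
      ring
    have h5 : 64 * ((d : ℝ) + 3) / (L : ℝ) ^ 2 < 1 := by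
      rw [div_lt_one (by positivity)]
      have : (L : ℝ) * 1 ≤ L * L := mul_le_mul_of_nonneg_left hL1 hL0.le
      calc 64 * ((d : ℝ) + 3) < 64 * ((d : ℝ) + 3) + 1 := by linarith
        _ ≤ L := h1
        _ = L * 1 := (mul_one _).symm
        _ ≤ L * L := this
        _ = L ^ 2 := by ring
    linarith [h3.trans_eq h4]
  · have h1 : (ρ₀ : ℝ) ≤ |C₁| * ℓ ^ k₁ := by
      refine hρ₀.trans ?_
      exact mul_le_mul_of_nonneg_right (le_abs_self _) (by linarith [hpow1 k₁])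
    have h2 : (((q * (4 * r ^ 2) + 4) * r : ℕ) : ℝ) ≤ (D * g + 4) * r * ℓ ^ (k₀ + 1) := by
      have h3 : (((q * (4 * r ^ 2) + 4) * r : ℕ) : ℝ) = (q * g + 4) * r := by
        rw [hg]; push_cast; ring
      rw [h3]
      have h4 := hpow1 (k₀ + 1)
      have h5 : (q : ℝ) * g + 4 ≤ (D * g + 4) * ℓ ^ (k₀ + 1) := by
        have h6 : (q : ℝ) * g ≤ D * ℓ ^ (k₀ + 1) * g :=
          mul_le_mul_of_nonneg_right hqD (by linarith)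
        calc (q : ℝ) * g + 4 ≤ D * ℓ ^ (k₀ + 1) * g + 4 * ℓ ^ (k₀ + 1) := by linarith
          _ = _ := by ring
      calc ((q : ℝ) * g + 4) * r ≤ (D * g + 4) * ℓ ^ (k₀ + 1) * r :=
            mul_le_mul_of_nonneg_right h5 (by linarith)
        _ = _ := by ring
    have h3 : ((ρ₀ + (q * (4 * r ^ 2) + 4) * r : ℕ) : ℝ) ≤ W * ℓ ^ (k₀ + k₁ + 1) := by
      rw [Nat.cast_add]
      have h4 : |C₁| * ℓ ^ k₁ ≤ |C₁| * ℓ ^ (k₀ + k₁ + 1) :=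
        mul_le_mul_of_nonneg_left (hpm (by omega)) (abs_nonneg _)
      have h5 : (D * g + 4) * r * ℓ ^ (k₀ + 1) ≤ (D * g + 4) * r * ℓ ^ (k₀ + k₁ + 1) :=
        mul_le_mul_of_nonneg_left (hpm (by omega)) (by positivity)
      rw [hW]
      linarith
    have h4 : 200 * W * ℓ ^ (k₀ + k₁ + 1) ≤ L := by rw [hℓ]; exact hL₁ L hLL₁
    have h5 : 200 * (ρ₀ + (q * (4 * r ^ 2) + 4) * r) ≤ L := by
      have : ((200 * (ρ₀ + (q * (4 * r ^ 2) + 4) * r) : ℕ) : ℝ) ≤ (L : ℝ) := by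
        rw [Nat.cast_mul]
        calc ((200 : ℕ) : ℝ) * ((ρ₀ + (q * (4 * r ^ 2) + 4) * r : ℕ) : ℝ) ≤
            ((200 : ℕ) : ℝ) * (W * ℓ ^ (k₀ + k₁ + 1)) :=
              mul_le_mul_of_nonneg_left h3 (Nat.cast_nonneg _)
          _ = 200 * W * ℓ ^ (k₀ + k₁ + 1) := by push_cast; ring
          _ ≤ L := h4
      exact_mod_cast this
    have h6 : 4 ≤ (q * (4 * r ^ 2) + 4) * r := by
      calc 4 ≤ q * (4 * r ^ 2) + 4 := by omega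
        _ ≤ _ := Nat.le_mul_of_pos_right _ hr
    exact ⟨h5, by omega, h3⟩

/-- The final step, from the three facts on topological order, the quadtree and the dimension. -/
theorem lt18_of_facts (hd : 2 ≤ d) (hr : 0 < r) {h : Matrix (LConf d r) (LConf d r) ℂ}
    (H10 : ∀ (L : ℕ) [NeZero L], r ≤ L → ∀ γ : ℝ, 0 < γ →
      (∀ (x y : ZMod L) (a b : ℕ), 2 * a ≤ L → 2 * b ≤ L → GapAt h (inn L r (bx x y a b)) γ) →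
      ∀ q ρ₀ ρ₁ : ℕ, (q * (4 * r ^ 2) + 4) * r ≤ ρ₁ →
      24 * (ρ₀ + ρ₁ + 1) ≤ L → TopOrd L h ρ₀ (1 / 16) →
      (∃ Ψ : Hil d L, Ψ ≠ 0 ∧ hamOn h univ Ψ = 0) → ∀ δ : ℝ, 0 ≤ δ →
      ((1 + γ / (entNorm h + 1) / ((4 * r ^ 2 : ℕ) : ℝ) ^ 2)⁻¹) ^ q ≤ δ ^ 2 →
      TOA L h (L / 6) (ρ₀ + ρ₁) (8 * δ))
    (H15 : ∀ (L : ℕ) [NeZero L] (w : ℕ), 0 < w → 200 * w ≤ L → ∀ S : Finset (Site L),
      ∃ (n n' : ℕ) (A : Fin n → Finset (Site L)) (B : Fin n' → Finset (Site L))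
        (C : Finset (Site L)), n ≤ L ^ 4 ∧ n' ≤ L ^ 4 ∧ Layer w (L / 6) S A ∧
        Layer w (L / 6) S B ∧ (∀ u, (∃ j, u ∈ A j) ∨ (∃ j, u ∈ B j) ∨ u ∈ C) ∧
        C.card ≤ 10 ^ 6 * w ^ 2 * (Nat.log 2 L + 1) * (1 + S.card))
    (H17 : ∀ (L : ℕ) [NeZero L], r ≤ L → ∀ (ℓ w : ℕ) (ε : ℝ), 0 ≤ ε → TOA L h ℓ w ε →
      ∀ (S : Finset (Site L)) (n n' : ℕ) (A : Fin n → Finset (Site L))
        (B : Fin n' → Finset (Site L)) (C : Finset (Site L)), Layer w ℓ S A → Layer w ℓ S B →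
        (∀ u, (∃ j, u ∈ A j) ∨ (∃ j, u ∈ B j) ∨ u ∈ C) → n ≤ L ^ 4 → n' ≤ L ^ 4 →
        4 * (2 * (L : ℝ) ^ 4 * ε) * (L ^ 2 * d + 3) < 1 →
        Module.finrank ℂ (LinearMap.ker (hamOn h Sᶜ : Hil d L →ₗ[ℂ] Hil d L)) < 2 * d ^ C.card)
    (k₀ : ℕ) {C₀ : ℝ} (hC₀ : 0 < C₀) (k₁ : ℕ) (C₁ : ℝ) :
    ∃ (C₂ : ℝ) (L₀ : ℕ), ∀ (L : ℕ) [NeZero L], L₀ ≤ L →
      (∀ (x y : ZMod L) (a b : ℕ), 2 * a ≤ L → 2 * b ≤ L →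
        GapAt h (inn L r (bx x y a b)) (1 / (C₀ * (Real.log L) ^ k₀))) →
      ∀ ρ₀ : ℕ, (ρ₀ : ℝ) ≤ C₁ * (Real.log L) ^ k₁ → TopOrd L h ρ₀ (1 / 16) →
      (∃ Ψ : Hil d L, Ψ ≠ 0 ∧ hamOn h univ Ψ = 0) →
      FewZero L h (C₂ * (Real.log L) ^ (2 * (k₀ + k₁ + 1) + 1)) := by
  obtain ⟨W, L₀, hW1, hpar⟩ := lt18_params r d k₀ k₁ hr C₀ (entNorm h + 1) C₁ hC₀
    (by linarith [entNorm_nonneg h])
  have hd2 : (2 : ℝ) ≤ d := by exact_mod_cast hd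
  have hlogd : 0 ≤ Real.log d := Real.log_nonneg (by linarith)
  refine ⟨Real.log 2 + 3 * 10 ^ 6 * W ^ 2 * Real.log d, L₀, fun L _ hL UG ρ₀ hρ₀ TO hΨ S => ?_⟩
  obtain ⟨q, ρ₁, hL3, hLr, hρ₁, hq, hδ, hρ⟩ := hpar L hL
  obtain ⟨h200, h24, hw⟩ := hρ ρ₀ hρ₀
  have hℓ1 : 1 ≤ Real.log L := Pool.Agent.PEPS953.one_le_log hL3
  have hγ : 0 < 1 / (C₀ * (Real.log L) ^ k₀) := by
    have : 0 < Real.log (L : ℝ) := by linarith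
    positivity
  have hL0 : (0 : ℝ) < L := by
    have : 0 < L := by omega
    exact_mod_cast this
  have hTOA := H10 L hLr _ hγ UG q ρ₀ ρ₁ hρ₁ h24 TO hΨ (((L : ℝ) ^ 8)⁻¹) (by positivity) hq
  have hw0 : 0 < ρ₀ + ρ₁ := by
    have h6 : 4 ≤ (q * (4 * r ^ 2) + 4) * r := by
      calc 4 ≤ q * (4 * r ^ 2) + 4 := by omega
        _ ≤ _ := Nat.le_mul_of_pos_right _ hr
    omega
  obtain ⟨n, n', A, B, C, hn, hn', hA, hB, hC, hcard⟩ := H15 L (ρ₀ + ρ₁) hw0 h200 S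
  have hfin := H17 L hLr (L / 6) (ρ₀ + ρ₁) (8 * ((L : ℝ) ^ 8)⁻¹) (by positivity) hTOA S n n' A B C
    hA hB hC hn hn' hδ
  -- the dimension bound
  have h1 : (Module.finrank ℂ (LinearMap.ker (hamOn h Sᶜ : Hil d L →ₗ[ℂ] Hil d L)) : ℝ) ≤
      2 * (d : ℝ) ^ C.card := by exact_mod_cast hfin.le
  have h2 : 2 * (d : ℝ) ^ C.card = Real.exp (Real.log 2 + C.card * Real.log d) := by
    rw [Real.exp_add, Real.exp_log two_pos, mul_comm (C.card : ℝ), Real.exp_mul,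
      Real.exp_log (by linarith), Real.rpow_natCast]
  refine h1.trans (h2.trans_le (Real.exp_le_exp.mpr ?_))
  obtain ⟨ℓ, hℓ⟩ : ∃ ℓ : ℝ, ℓ = Real.log L := ⟨_, rfl⟩
  rw [← hℓ] at hℓ1 hw ⊢
  have hlog2 : (Nat.log 2 L : ℝ) + 1 ≤ 3 * ℓ := by
    have h3 : ((2 : ℕ) : ℝ) ^ (Nat.log 2 L) ≤ (L : ℝ) := by
      exact_mod_cast Nat.pow_log_le_self 2 (by omega)
    have h4 : (Nat.log 2 L : ℝ) * Real.log 2 ≤ ℓ := by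
      rw [hℓ, ← Real.log_pow]
      exact Real.log_le_log (by positivity) (by exact_mod_cast h3)
    have h5 := Real.log_two_gt_d9
    have h6 : (0 : ℝ) ≤ (Nat.log 2 L : ℝ) := Nat.cast_nonneg _
    nlinarith
  have hcard' : (C.card : ℝ) ≤ 10 ^ 6 * ((ρ₀ + ρ₁ : ℕ) : ℝ) ^ 2 * ((Nat.log 2 L : ℝ) + 1) *
      (1 + S.card) := by exact_mod_cast hcard
  have hS0 : (0 : ℝ) ≤ S.card := Nat.cast_nonneg _
  have h3 : (C.card : ℝ) ≤ 10 ^ 6 * (W * ℓ ^ (k₀ + k₁ + 1)) ^ 2 * (3 * ℓ) * (1 + S.card) := by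
    refine hcard'.trans ?_
    have hwn : (0 : ℝ) ≤ ((ρ₀ + ρ₁ : ℕ) : ℝ) := Nat.cast_nonneg _
    have hlogn : (0 : ℝ) ≤ (Nat.log 2 L : ℝ) + 1 := by positivity
    gcongr
  have h4 : 10 ^ 6 * (W * ℓ ^ (k₀ + k₁ + 1)) ^ 2 * (3 * ℓ) * (1 + (S.card : ℝ)) =
      3 * 10 ^ 6 * W ^ 2 * ℓ ^ (2 * (k₀ + k₁ + 1) + 1) * (1 + S.card) := by
    rw [mul_pow, ← pow_mul, pow_succ ℓ (2 * (k₀ + k₁ + 1)), mul_comm (k₀ + k₁ + 1) 2]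
    ring
  have h5 : (1 : ℝ) ≤ ℓ ^ (2 * (k₀ + k₁ + 1) + 1) := one_le_pow₀ hℓ1
  have h6 : Real.log 2 ≤ Real.log 2 * ℓ ^ (2 * (k₀ + k₁ + 1) + 1) * (1 + S.card) := by
    have h7 : (1 : ℝ) ≤ ℓ ^ (2 * (k₀ + k₁ + 1) + 1) * (1 + S.card) := by nlinarith
    have h8 : 0 ≤ Real.log 2 := Real.log_nonneg (by norm_num)
    nlinarith
  have h7 : (C.card : ℝ) * Real.log d ≤
      3 * 10 ^ 6 * W ^ 2 * ℓ ^ (2 * (k₀ + k₁ + 1) + 1) * (1 + S.card) * Real.log d :=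
    mul_le_mul_of_nonneg_right (h3.trans_eq h4) hlogd
  calc Real.log 2 + (C.card : ℝ) * Real.log d ≤
      Real.log 2 * ℓ ^ (2 * (k₀ + k₁ + 1) + 1) * (1 + S.card) +
        3 * 10 ^ 6 * W ^ 2 * ℓ ^ (2 * (k₀ + k₁ + 1) + 1) * (1 + S.card) * Real.log d := by
        linarith
    _ = _ := by ring

end Pool.Agent.FFG.LT
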