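import Pool.Agent.FFG.LT.Defs

/-!
# LT4: a Ky Fan inequality
-/

open Finset
open scoped ComplexOrder

set_option autoImplicit false

namespace Pool.Agent.FFG.LT

/-- The `m` largest values of a function. -/
theorem lt4_choose {β : Type} [Fintype β] [DecidableEq β] (lam : β → ℝ) (h0 : ∀ j, 0 ≤ lam j)
    (m : ℕ) : ∃ (J : Finset β) (t : ℝ), J.card ≤ m ∧ 0 ≤ t ∧ (∀ j ∈ J, t ≤ lam j) ∧
      (∀ j, j ∉ J → lam j ≤ t) ∧ (J.card = m ∨ t = 0) := by
  induction m with
  | zero =>
    refine ⟨∅, ∑ j, lam j, by simp, sum_nonneg fun j _ => h0 j, by simp, ?_, Or.inl rfl⟩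
    intro j _
    exact single_le_sum (fun i _ => h0 i) (mem_univ j)
  | succ m ih =>
    obtain ⟨J, t, h1, h2, h3, h4, h5⟩ := ih
    by_cases hJ : J = univ
    · refine ⟨J, 0, by omega, le_refl _, fun j _ => h0 j, ?_, Or.inr rfl⟩
      intro j hj
      rw [hJ] at hj
      exact absurd (mem_univ j) hj
    · obtain ⟨j1, hj1⟩ : (univ \ J).Nonempty := by
        rw [nonempty_iff_ne_empty, Ne, sdiff_eq_empty_iff_subset, univ_subset_iff]
        exact hJ
      obtain ⟨j0, hj0, hmax⟩ := exists_max_image (univ \ J) lam ⟨j1, hj1⟩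
      have hj0' : j0 ∉ J := (mem_sdiff.1 hj0).2
      refine ⟨insert j0 J, lam j0, ?_, h0 j0, ?_, ?_, ?_⟩
      · rw [card_insert_of_notMem hj0']
        omega
      · intro j hj
        rcases mem_insert.1 hj with rfl | hj
        · exact le_refl _
        · exact (h4 j0 hj0').trans (h3 j hj)
      · intro j hj
        rw [mem_insert, not_or] at hj
        exact hmax j (mem_sdiff.2 ⟨mem_univ j, hj.2⟩)
      · rcases h5 with h5 | h5
        · left
          rw [card_insert_of_notMem hj0', h5]
        · right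
          have := h4 j0 hj0'
          have := h0 j0
          linarith

theorem lt4_ineq {β : Type} [Fintype β] [DecidableEq β] (lam p : β → ℝ) (h0 : ∀ j, 0 ≤ lam j)
    {c : ℝ} (hp0 : ∀ j, 0 ≤ p j) (hpc : ∀ j, p j ≤ c) (m : ℕ) (hs : ∑ j, p j ≤ m * c) :
    ∃ J : Finset β, J.card ≤ m ∧ ∑ j, lam j * p j ≤ c * ∑ j ∈ J, lam j := by
  obtain ⟨J, t, h1, h2, h3, h4, h5⟩ := lt4_choose lam h0 m
  refine ⟨J, h1, ?_⟩
  have key : ∀ j, lam j * p j ≤ (if j ∈ J then c * lam j else 0) +
      t * (p j - if j ∈ J then c else 0) := by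
    intro j
    split_ifs with hj
    · nlinarith [h3 j hj, hpc j]
    · nlinarith [h4 j hj, hp0 j]
  have hsum := sum_le_sum fun j (_ : j ∈ (univ : Finset β)) => key j
  rw [sum_add_distrib, ← mul_sum, sum_sub_distrib, ← sum_filter, ← sum_filter] at hsum
  have e1 : univ.filter (fun j => j ∈ J) = J := by
    ext j
    simp
  rw [e1, sum_const, nsmul_eq_mul, ← mul_sum] at hsum
  have e2 : t * (∑ j, p j - (J.card : ℝ) * c) ≤ 0 := by
    rcases h5 with h5 | h5
    · rw [h5]
      exact mul_nonpos_of_nonneg_of_nonpos h2 (by linarith)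
    · rw [h5, zero_mul]
  linarith

theorem lt4_diag {X : Type} [Fintype X] [DecidableEq X] {R : Matrix X X ℂ} (hR : IsPr R) (a : X) :
    0 ≤ (R a a).re ∧ (R a a).re ≤ 1 := by
  have h1 : (R a a).re = ∑ b, ‖R a b‖ ^ 2 := by
    have h2 : R a a = ∑ b, R a b * R b a := by
      conv_lhs => rw [← hR.2]
      rw [Matrix.mul_apply]
    rw [h2, Complex.re_sum]
    refine sum_congr rfl fun b _ => ?_
    have h3 : R b a = star (R a b) := by
      conv_lhs => rw [← hR.1]
      rw [Matrix.conjTranspose_apply]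
    rw [h3, Complex.star_def, Complex.mul_conj, Complex.normSq_eq_norm_sq]
    exact Complex.ofReal_re _
  have h4 : 0 ≤ (R a a).re := by
    rw [h1]
    exact sum_nonneg fun b _ => by positivity
  refine ⟨h4, ?_⟩
  have h5 : (R a a).re ^ 2 ≤ (R a a).re := by
    calc (R a a).re ^ 2 ≤ ‖R a a‖ ^ 2 := by
          rw [← sq_abs (R a a).re]
          exact pow_le_pow_left₀ (abs_nonneg _) (Complex.abs_re_le_norm _) 2
      _ ≤ ∑ b, ‖R a b‖ ^ 2 := single_le_sum (f := fun b => ‖R a b‖ ^ 2)
          (fun b _ => by positivity) (mem_univ a)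
      _ = (R a a).re := h1.symm
  by_contra h6
  push Not at h6
  nlinarith

/-- LT4 (Ky Fan). -/
theorem kyfan {β ι : Type} [Fintype β] [Fintype ι] [DecidableEq β] [DecidableEq ι]
    (σ : Matrix β β ℂ) (hσ : σ.PosSemidef) (P : Matrix (β × ι) (β × ι) ℂ) (hP : IsPr P) (m : ℕ)
    (hm : P.trace.re ≤ m * Fintype.card ι) :
    ∃ Q : Matrix β β ℂ, IsPr Q ∧ Q.trace.re ≤ m ∧
      ((Matrix.kroneckerMap (· * ·) σ (1 : Matrix ι ι ℂ) * P).trace).re ≤
        Fintype.card ι * ((σ * Q).trace).re := by
  classical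
  set U : Matrix β β ℂ := (hσ.isHermitian.eigenvectorUnitary : Matrix β β ℂ) with hU
  have hU1 : U.conjTranspose * U = 1 := by
    have := (Matrix.mem_unitaryGroup_iff' (A := U)).1 hσ.isHermitian.eigenvectorUnitary.2
    exact this
  have hU2 : U * U.conjTranspose = 1 := by
    have := (Matrix.mem_unitaryGroup_iff (A := U)).1 hσ.isHermitian.eigenvectorUnitary.2
    exact this
  set lam : β → ℝ := hσ.isHermitian.eigenvalues with hlam
  have hlam0 : ∀ j, 0 ≤ lam j := fun j => hσ.eigenvalues_nonneg j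
  set D : Matrix β β ℂ := Matrix.diagonal fun j => ((lam j : ℝ) : ℂ) with hD
  have hspec : σ = U * D * U.conjTranspose := hσ.isHermitian.spectral_theorem
  set Uk : Matrix (β × ι) (β × ι) ℂ := Matrix.kroneckerMap (· * ·) U (1 : Matrix ι ι ℂ) with hUk
  have hUkc : Uk.conjTranspose =
      Matrix.kroneckerMap (· * ·) U.conjTranspose (1 : Matrix ι ι ℂ) := by
    rw [hUk, Matrix.conjTranspose_kronecker, Matrix.conjTranspose_one]
  have hUk1 : Uk.conjTranspose * Uk = 1 := by
    rw [hUkc, hUk, ← Matrix.mul_kronecker_mul, hU1, Matrix.one_mul, Matrix.one_kronecker_one]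
  have hUk2 : Uk * Uk.conjTranspose = 1 := by
    rw [hUkc, hUk, ← Matrix.mul_kronecker_mul, hU2, Matrix.one_mul, Matrix.one_kronecker_one]
  set R : Matrix (β × ι) (β × ι) ℂ := Uk.conjTranspose * P * Uk with hR
  have hRP : IsPr R := by
    refine ⟨?_, ?_⟩
    · rw [hR, Matrix.IsHermitian, Matrix.conjTranspose_mul, Matrix.conjTranspose_mul,
        Matrix.conjTranspose_conjTranspose, hP.1, Matrix.mul_assoc]
    · calc R * R = Uk.conjTranspose * P * (Uk * Uk.conjTranspose) * P * Uk := by
            rw [hR]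
            simp only [Matrix.mul_assoc]
        _ = R := by
            rw [hUk2, Matrix.mul_one, Matrix.mul_assoc Uk.conjTranspose P P, hP.2, hR]
  have htrR : R.trace = P.trace := by
    rw [hR, Matrix.trace_mul_comm, ← Matrix.mul_assoc, hUk2, Matrix.one_mul]
  have hdiag := fun a => lt4_diag hRP a
  -- the numbers `p_j`
  set p : β → ℝ := fun j => ∑ i, (R (j, i) (j, i)).re with hp
  have hp0 : ∀ j, 0 ≤ p j := fun j => sum_nonneg fun i _ => (hdiag (j, i)).1
  have hpc : ∀ j, p j ≤ (Fintype.card ι : ℝ) := by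
    intro j
    calc p j ≤ ∑ _i : ι, (1 : ℝ) := sum_le_sum fun i _ => (hdiag (j, i)).2
      _ = (Fintype.card ι : ℝ) := by simp
  have hps : ∑ j, p j = P.trace.re := by
    rw [← htrR, Matrix.trace, Complex.re_sum, Fintype.sum_prod_type]
    rfl
  obtain ⟨J, hJ1, hJ2⟩ := lt4_ineq lam p hlam0 hp0 hpc m (by rw [hps]; exact hm)
  set E : Matrix β β ℂ := Matrix.diagonal fun j => if j ∈ J then (1 : ℂ) else 0 with hE
  have hEE : E * E = E := by
    rw [hE, Matrix.diagonal_mul_diagonal]
    congr 1
    funext j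
    split_ifs <;> simp
  have hEh : E.conjTranspose = E := by
    rw [hE, Matrix.diagonal_conjTranspose]
    congr 1
    funext j
    simp only [Pi.star_apply]
    split_ifs <;> simp
  refine ⟨U * E * U.conjTranspose, ⟨?_, ?_⟩, ?_, ?_⟩
  · rw [Matrix.IsHermitian, Matrix.conjTranspose_mul, Matrix.conjTranspose_mul,
      Matrix.conjTranspose_conjTranspose, hEh, Matrix.mul_assoc]
  · calc U * E * U.conjTranspose * (U * E * U.conjTranspose)
        = U * E * (U.conjTranspose * U) * E * U.conjTranspose := by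
          simp only [Matrix.mul_assoc]
      _ = U * E * U.conjTranspose := by
          rw [hU1, Matrix.mul_one, Matrix.mul_assoc U E E, hEE]
  · have : (U * E * U.conjTranspose).trace = (J.card : ℂ) := by
      rw [Matrix.trace_mul_comm, ← Matrix.mul_assoc, hU1, Matrix.one_mul, hE,
        Matrix.trace_diagonal]
      simp
    rw [this, Complex.natCast_re]
    exact_mod_cast hJ1
  · have h1 : ((Matrix.kroneckerMap (· * ·) σ (1 : Matrix ι ι ℂ) * P).trace).re =
        ∑ j, lam j * p j := by
      have e1 : Matrix.kroneckerMap (· * ·) σ (1 : Matrix ι ι ℂ) =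
          Uk * Matrix.kroneckerMap (· * ·) D (1 : Matrix ι ι ℂ) * Uk.conjTranspose := by
        rw [hUkc, hUk, ← Matrix.mul_kronecker_mul, ← Matrix.mul_kronecker_mul, ← hspec]
        simp
      have e2 : (Matrix.kroneckerMap (· * ·) σ (1 : Matrix ι ι ℂ) * P).trace =
          (Matrix.kroneckerMap (· * ·) D (1 : Matrix ι ι ℂ) * R).trace := by
        rw [e1, hR, Matrix.mul_assoc, Matrix.mul_assoc, Matrix.trace_mul_comm]
        simp only [Matrix.mul_assoc]
      have e3 : Matrix.kroneckerMap (· * ·) D (1 : Matrix ι ι ℂ) =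
          Matrix.diagonal fun a : β × ι => ((lam a.1 : ℝ) : ℂ) := by
        rw [hD, ← Matrix.diagonal_one]
        have := Matrix.diagonal_kronecker_diagonal (m := β) (n := ι)
          (fun j => ((lam j : ℝ) : ℂ)) (fun _ => (1 : ℂ))
        rw [this]
        simp
      rw [e2, e3, Matrix.trace, Complex.re_sum, Fintype.sum_prod_type]
      refine sum_congr rfl fun j _ => ?_
      rw [hp, mul_sum]
      refine sum_congr rfl fun i _ => ?_
      rw [Matrix.diag_apply, Matrix.diagonal_mul, Complex.re_ofReal_mul]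
    have h2 : ((σ * (U * E * U.conjTranspose)).trace).re = ∑ j ∈ J, lam j := by
      have e1 : (σ * (U * E * U.conjTranspose)).trace = (D * E).trace := by
        rw [hspec]
        calc (U * D * U.conjTranspose * (U * E * U.conjTranspose)).trace
            = (U * (D * (U.conjTranspose * U) * E * U.conjTranspose)).trace := by
              simp only [Matrix.mul_assoc]
          _ = (D * (U.conjTranspose * U) * E * U.conjTranspose * U).trace :=
              Matrix.trace_mul_comm _ _
          _ = (D * E).trace := by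
              rw [hU1, Matrix.mul_one, Matrix.mul_assoc (D * E), hU1, Matrix.mul_one]
      rw [e1, hD, hE, Matrix.diagonal_mul_diagonal, Matrix.trace_diagonal, Complex.re_sum]
      rw [← sum_filter_add_sum_filter_not univ (fun j => j ∈ J)]
      have e2 : univ.filter (fun j => j ∈ J) = J := by
        ext j
        simp
      rw [e2]
      have e3 : ∑ j ∈ univ.filter (fun j => ¬ j ∈ J),
          (((lam j : ℝ) : ℂ) * if j ∈ J then (1 : ℂ) else 0).re = 0 := by
        refine sum_eq_zero fun j hj => ?_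
        rw [mem_filter] at hj
        rw [if_neg hj.2, mul_zero, Complex.zero_re]
      rw [e3, add_zero]
      refine sum_congr rfl fun j hj => ?_
      rw [if_pos hj, mul_one, Complex.ofReal_re]
    rw [h1, h2]
    exact hJ2

end Pool.Agent.FFG.LT
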